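import Pool.Agent.Mg.Fc7a479.Gd25afc

set_option linter.all false

section

/-! Jets of quadratic polynomials: `TD (p + 1, t ^ 2 + u t) - TD (p + 1, u t)`. -/

namespace Pool.Agent.MP_c7a479_co.Ex

open Finset
open scoped Classical

section jet

variable {A : Type} [CommRing A]

/-- The value of a quadratic polynomial at a point of the projective line. -/
def jval (g : A × A × A) : Option A → A
  | some a => g.1 + g.2.1 * a + g.2.2 * a ^ 2
  | none => g.2.2

/-- The derivative of a quadratic polynomial at a point of the projective line. -/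
def jder (g : A × A × A) : Option A → A
  | some a => g.2.1 + 2 * g.2.2 * a
  | none => -g.2.1

/-- Two points of the projective line that stay distinct in every quotient. -/
def Far : Option A → Option A → Prop
  | some a, some b => IsUnit (a - b)
  | none, none => False
  | _, _ => True

theorem jet_interp {a b : Option A} (h : Far a b) (x y : A) :
    ∃ ρ : A, ∀ z : A, ∃ g, jval g a = x ∧ jval g b = y ∧ jder g a = z ∧ jder g b = ρ - z := by
  rcases a with _ | a <;> rcases b with _ | b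
  · exact h.elim
  · exact ⟨2 * x * b, fun z => ⟨(y + z * b - x * b ^ 2, -z, x), by simp [jval], by
      simp only [jval]; ring, by simp [jder], by simp only [jder]; ring⟩⟩
  · exact ⟨2 * y * a, fun z => ⟨(x - z * a + y * a ^ 2, z - 2 * y * a, y), by
      simp only [jval]; ring, by simp [jval], by simp only [jder]; ring, by simp only [jder]; ring⟩⟩
  · obtain ⟨e, he⟩ := IsUnit.exists_right_inv h
    refine ⟨2 * (x - y) * e, fun z => ?_⟩
    obtain ⟨c, hc⟩ : ∃ c, c = (y - x + z * (a - b)) * e ^ 2 := ⟨_, rfl⟩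
    refine ⟨(x - z * a + c * a ^ 2, z - 2 * c * a, c), by simp only [jval]; ring, ?_,
      by simp only [jder]; ring, ?_⟩
    · simp only [jval]
      linear_combination (a - b) ^ 2 * hc + (y - x + z * (a - b)) * ((a - b) * e + 1) * he
    · simp only [jder]
      linear_combination -2 * (a - b) * hc - (2 * (y - x + z * (a - b)) * e + 2 * z) * he

theorem gap_exists {k i j m : ℕ} (hij : i ≠ j) (hi : i < k + 2) (hj : j < k + 2) (hm : m < k) :
    ∃ o, o < k + 2 ∧ o ≠ i ∧ o ≠ j ∧
      o + (if o < i then 1 else 0) + (if o < j then 1 else 0) = m + 2 := by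
  by_cases h1 : m < i ∧ m < j
  · exact ⟨m, by omega, by omega, by omega, by rw [if_pos h1.1, if_pos h1.2]⟩
  by_cases h2 : m + 1 < i ∨ m + 1 < j
  · refine ⟨m + 1, by omega, by omega, by omega, ?_⟩
    split_ifs <;> omega
  · exact ⟨m + 2, by omega, by omega, by omega, by rw [if_neg (by omega), if_neg (by omega)]⟩

/-- The hole consists of values, the other symbols are jets of order one. -/
theorem itd_jet [Fintype A] {k : ℕ} (a : Fin (k + 2) → Option A)
    (ha : ∀ i j, i ≠ j → Far (a i) (a j)) (h2 : IsUnit (2 : A))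
    (hk : Function.Injective fun m : Fin k => (((m : ℕ) + 2 : ℕ) : A)) :
    Itd (Fin (k + 2)) (A × A) A := by
  obtain ⟨h, hh⟩ := h2.exists_right_inv
  let b : ({c : A // ∀ m : Fin k, c ≠ (((m : ℕ) + 2 : ℕ) : A)} ⊕ Fin (k + 2)) × (A × A × A) →
      Fin (k + 2) → (A × A) ⊕ A := fun c l => match c.1 with
    | .inl s => .inl (jval c.2 (a l), jder c.2 (a l) + s.1 * h)
    | .inr o => if l = o then .inr (jval c.2 (a l)) else
        .inl (jval c.2 (a l), jder c.2 (a l) + ((o : ℕ) * h + if o < l then 1 else 0))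
  refine ⟨_, inferInstance, b, ?_, fun i j hij x y => ?_⟩
  · have := Fintype.card_le_of_injective _ hk
    simp only [Fintype.card_prod, Fintype.card_sum, card_off hk, Fintype.card_fin] at this ⊢
    rw [show Fintype.card A - k + (k + 2) = Fintype.card A + 2 by omega]
    exact le_of_eq (by ring)
  obtain ⟨x0, x1⟩ := x
  rcases y with ⟨y0, y1⟩ | y
  · obtain ⟨ρ, hρ⟩ := jet_interp (ha i j hij) x0 y0
    by_cases hc : ∀ m : Fin k, x1 + y1 - ρ ≠ (((m : ℕ) + 2 : ℕ) : A)
    · obtain ⟨g, g1, g2, g3, g4⟩ := hρ (x1 - (x1 + y1 - ρ) * h)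
      refine ⟨(.inl ⟨_, hc⟩, g), ?_, ?_⟩
      · simp [b, g1, g3]
      · simp only [b, g2, g4]
        congr 2
        linear_combination (x1 + y1 - ρ) * hh
    · push Not at hc
      obtain ⟨m, hm⟩ := hc
      obtain ⟨o, o0, o1, o2, o3⟩ := gap_exists (Fin.val_ne_of_ne hij) i.2 j.2 m.2
      obtain ⟨g, g1, g2, g3, g4⟩ := hρ (x1 - ((o : A) * h + if o < i then 1 else 0))
      have e1 : i ≠ ⟨o, o0⟩ := fun e => o1 (congrArg Fin.val e).symm
      have e2 : j ≠ ⟨o, o0⟩ := fun e => o2 (congrArg Fin.val e).symm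
      refine ⟨(.inr ⟨o, o0⟩, g), ?_, ?_⟩
      · simp only [b, if_neg e1, g1, g3, Fin.lt_def, sub_add_cancel]
      · simp only [b, if_neg e2, g2, g4, Fin.lt_def]
        congr 2
        rw [← o3] at hm
        push_cast at hm
        linear_combination (o : A) * hh - hm
  · obtain ⟨ρ, hρ⟩ := jet_interp (ha i j hij) x0 y
    obtain ⟨g, g1, g2, g3, -⟩ := hρ (x1 - (((j : ℕ) : A) * h + if j < i then 1 else 0))
    exact ⟨(.inr j, g), by simp only [b, if_neg hij, g1, g3, sub_add_cancel],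
      by simp only [b, if_true, g2]⟩

theorem td_line [Fintype A] {ι : Type} (a : ι → Option A) (ha : ∀ i j, i ≠ j → Far (a i) (a j)) :
    Td ι A := by
  refine ⟨A × A, inferInstance, fun c l => (a l).elim c.2 fun s => c.1 + s * c.2,
    by simp [sq], fun i j hij x y => ?_⟩
  have h := ha i j hij
  rcases hi : a i with _ | s <;> rcases hj : a j with _ | s' <;> rw [hi, hj] at h
  · exact h.elim
  · exact ⟨(y - s' * x, x), by simp [hi], by simp [hj]⟩
  · exact ⟨(x - s * y, y), by simp [hi], by simp [hj]⟩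
  · obtain ⟨e, he⟩ := IsUnit.exists_right_inv h
    refine ⟨(x - s * ((x - y) * e), (x - y) * e), by simp [hi], ?_⟩
    simp only [hj, Option.elim]
    linear_combination -(x - y) * he

end jet

/-- `TD (p + 1, t ^ 2 + t)` for odd `t` without prime factors below `p`. -/
theorem td_pronic {k t : ℕ} (ht : Odd t) (hkt : k ≤ t)
    (hp : ∀ p : ℕ, p.Prime → p ∣ t → k + 1 ≤ p) : Td (Fin (k + 2)) (Fin (t ^ 2 + t)) := by
  have : NeZero t := ⟨ht.pos.ne'⟩
  let a : Fin (k + 2) → Option (ZMod t) := fun l => if (l : ℕ) = k + 1 then none else some (l : ℕ)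
  have ha : ∀ i j, i ≠ j → Far (a i) (a j) := by
    intro i j hij
    have hv := Fin.val_ne_of_ne hij
    simp only [a]
    split_ifs with h1 h2 h2
    · omega
    · trivial
    · trivial
    · have hi : (i : ℕ) < k + 1 := by omega
      have hj : (j : ℕ) < k + 1 := by omega
      rcases lt_or_gt_of_ne hv with e | e
      · have := (unit_sub hp (i := ⟨j, hj⟩) (j := ⟨i, hi⟩) e).neg
        rwa [neg_sub] at this
      · exact unit_sub hp (i := ⟨i, hi⟩) (j := ⟨j, hj⟩) e
  have h2 : IsUnit (2 : ZMod t) := by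
    have := (ZMod.isUnit_iff_coprime 2 t).2 (Nat.coprime_two_left.2 ht)
    simpa using this
  have hk : Function.Injective fun m : Fin k => (((m : ℕ) + 2 : ℕ) : ZMod t) := by
    intro m m' e
    simp only [Nat.cast_add, add_left_inj] at e
    rw [ZMod.natCast_eq_natCast_iff', Nat.mod_eq_of_lt (by omega), Nat.mod_eq_of_lt (by omega)] at e
    exact Fin.ext e
  exact ((itd_jet a ha h2 hk).fill (td_line a ha)).of_card (by simp [ZMod.card, sq])

theorem pronic {t : ℕ} (ht : Odd t) (h3 : 3 ≤ t) : HasVarSet 2 (t ^ 2 + t) (t.minFac - 1) := by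
  have h1 := Nat.minFac_le (show 0 < t by omega)
  have h2 := (Nat.minFac_prime (show t ≠ 1 by omega)).two_le
  refine (td_pronic ht (by omega) fun p hp h => ?_).hasVarSet
  have := Nat.minFac_le_of_dvd hp.two_le h
  omega

end Pool.Agent.MP_c7a479_co.Ex

end

section

/-! Wilson's construction with weighted points in the last group. -/

namespace Pool.Agent.MP_c7a479_co.Ex

open Finset
open scoped Classical

theorem wilson_gen {ι T M : Type} [Fintype T] [Fintype M] (i₀ : ι) (h : Td (Option ι) T)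
    (u : T → ℕ) (hu : ∀ τ, Itd ι M (Fin (u τ))) : Itd ι (T × M) (Σ τ, Fin (u τ)) := by
  obtain ⟨X, _, b, h1, h2⟩ := h
  choose Y iY y k1 k2 using hu
  have hb := td_bij h1 h2 (i := some i₀) (j := none) (by simp)
  refine ⟨Σ c : X, Y (b c none), inferInstance,
    fun c l => (y _ c.2 l).map (fun m => (b c.1 (some l), m)) fun r => ⟨_, r⟩, ?_,
    fun i j hij x z => ?_⟩
  · have e : ∑ c : X, (Fintype.card M ^ 2 + 2 * Fintype.card M * u (b c none)) =
        ∑ p : T × T, (Fintype.card M ^ 2 + 2 * Fintype.card M * u p.2) :=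
      Fintype.sum_bijective _ hb _ _ fun _ => rfl
    simp only [Fintype.card_sigma, Fintype.card_prod, Fintype.card_fin] at k1 ⊢
    refine (sum_le_sum fun c _ => k1 _).trans (e.le.trans (le_of_eq ?_))
    simp only [Fintype.sum_prod_type, sum_add_distrib, sum_const, card_univ, smul_eq_mul,
      ← mul_sum, Fintype.card_prod]
    ring
  · rcases z with z | ⟨τ, r⟩
    · obtain ⟨c, e1, e2⟩ := h2 (some i) (some j) (by simpa using hij) x.1 z.1
      obtain ⟨d, f1, f2⟩ := k2 (b c none) i j hij x.2 (.inl z.2)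
      exact ⟨⟨c, d⟩, by simp [e1, f1], by simp [e2, f2]⟩
    · obtain ⟨c, e1, e2⟩ := h2 (some i) none (by simp) x.1 τ
      subst e2
      obtain ⟨d, f1, f2⟩ := k2 (b c none) i j hij x.2 (.inr r)
      exact ⟨⟨c, d⟩, by simp [e1, f1], by simp [f2]⟩

theorem Td.option {k : ℕ} {T : Type} [Fintype T] (h : Td (Fin (k + 1)) T) :
    Td (Option (Fin k)) T :=
  h.of_inj (finSuccEquiv k).symm (finSuccEquiv k).symm.injective

/-- The points of the projective line over `ZMod t` with small index. -/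
theorem far_zmod {k t : ℕ} (hp : ∀ p : ℕ, p.Prime → p ∣ t → k + 1 ≤ p) :
    ∃ a : Fin (k + 2) → Option (ZMod t), ∀ i j, i ≠ j → Far (a i) (a j) := by
  refine ⟨fun l => if (l : ℕ) = k + 1 then none else some (l : ℕ), fun i j hij => ?_⟩
  have hv := Fin.val_ne_of_ne hij
  simp only
  split_ifs with h1 h2 h2
  · omega
  · trivial
  · trivial
  · have hi : (i : ℕ) < k + 1 := by omega
    have hj : (j : ℕ) < k + 1 := by omega
    rcases lt_or_gt_of_ne hv with e | e
    · have := (unit_sub hp (i := ⟨j, hj⟩) (j := ⟨i, hi⟩) e).neg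
      rwa [neg_sub] at this
    · exact unit_sub hp (i := ⟨i, hi⟩) (j := ⟨j, hj⟩) e

/-- MacNeish with the point at infinity. -/
theorem td_rough' {k t : ℕ} (ht : t ≠ 0) (hp : ∀ p : ℕ, p.Prime → p ∣ t → k + 1 ≤ p) :
    Td (Fin (k + 2)) (Fin t) := by
  have : NeZero t := ⟨ht⟩
  obtain ⟨a, ha⟩ := far_zmod hp
  exact (td_line a ha).of_card (by simp [ZMod.card])

theorem itd_sq {k s : ℕ} (hs : Odd s) (hks : k ≤ s)
    (hp : ∀ p : ℕ, p.Prime → p ∣ s → k + 1 ≤ p) : Itd (Fin (k + 2)) (Fin (s ^ 2)) (Fin s) := by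
  have : NeZero s := ⟨hs.pos.ne'⟩
  obtain ⟨a, ha⟩ := far_zmod hp
  have h2 : IsUnit (2 : ZMod s) := by
    have := (ZMod.isUnit_iff_coprime 2 s).2 (Nat.coprime_two_left.2 hs)
    simpa using this
  have hk : Function.Injective fun m : Fin k => (((m : ℕ) + 2 : ℕ) : ZMod s) := by
    intro m m' e
    simp only [Nat.cast_add, add_left_inj] at e
    rw [ZMod.natCast_eq_natCast_iff', Nat.mod_eq_of_lt (by omega), Nat.mod_eq_of_lt (by omega)] at e
    exact Fin.ext e
  exact (itd_jet a ha h2 hk).of_card (by simp [ZMod.card, sq]) (by simp [ZMod.card])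

theorem sum_ite_lt {t b c : ℕ} (h : b ≤ t) : ∑ τ : Fin t, (if (τ : ℕ) < b then c else 0) = c * b := by
  rw [Fin.sum_univ_eq_sum_range (fun v => if v < b then c else 0) t, ← sum_filter, sum_const,
    smul_eq_mul, mul_comm]
  congr 1
  have : (range t).filter (fun v => v < b) = range b := by
    ext v
    simp only [mem_filter, mem_range]
    omega
  rw [this, card_range]

/-- Orders `s (s t + b)`: no design of order `s + 1` is needed. -/
theorem td_pronic_gen {k s t b : ℕ} (hs : Odd s) (hs3 : 3 ≤ s) (hb : 1 ≤ b) (hbt : b ≤ t)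
    (h1 : ∀ p : ℕ, p.Prime → p ∣ s * b → k + 1 ≤ p) (h2 : ∀ p : ℕ, p.Prime → p ∣ t → k + 2 ≤ p) :
    Td (Fin (k + 2)) (Fin (s * (s * t + b))) := by
  have hs1 : ∀ p : ℕ, p.Prime → p ∣ s → k + 1 ≤ p := fun p hp h => h1 p hp (h.mul_right _)
  have hks : k ≤ s := by
    have := hs1 _ (Nat.minFac_prime (show s ≠ 1 by omega)) (Nat.minFac_dvd s)
    have := Nat.minFac_le (show 0 < s by omega)
    omega
  have hT : Td (Fin (k + 2 + 1)) (Fin t) := td_rough' (k := k + 1) (by omega) h2
  have hI := wilson_gen (M := Fin (s ^ 2)) 0 hT.option (fun τ => if (τ : ℕ) < b then s else 0)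
    fun τ => by
      by_cases e : (τ : ℕ) < b
      · rw [if_pos e]
        exact itd_sq hs hks hs1
      · rw [if_neg e]
        exact (td_rough' (by positivity) fun p hp h => hs1 p hp (hp.dvd_of_dvd_pow h)).itd
  have hH : Td (Fin (k + 2)) (Σ τ : Fin t, Fin (if (τ : ℕ) < b then s else 0)) :=
    (td_rough' (t := s * b) (by positivity) h1).of_card (by simp [sum_ite_lt hbt])
  exact (hI.fill hH).of_card (by simp [sum_ite_lt hbt]; ring)

end Pool.Agent.MP_c7a479_co.Ex

end

section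

/-! The triangle gadget and the private layers over `K × K`. -/

namespace Pool.Agent.MP_c7a479_co.Ex

open Finset
open scoped Classical

section gad

variable {K V : Type} [Field K] [AddCommGroup V] [Module K V]

/-- The three sides of the triangle with vertices `y`, `y + e`, `y + f`. -/
def Tri (K : Type) {V : Type} [Field K] [AddCommGroup V] [Module K V] (y e f : V) : Set V :=
  Ln K (y + e) (f - e) ∪ Ln K y e ∪ Ln K y f

/-- A reflection on the side opposite to `y` and two homotheties with centre `y`. -/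
theorem gadget2 {y e f : V} (h : ∀ a b : K, a • e + b • f = 0 → a = 0 ∧ b = 0) {A κ κ' : K}
    (hA : A ≠ 0) (h1 : κ ≠ 1) (h1' : κ' ≠ 1) :
    ∃ Y Z : V → V,
      (∀ τ : K, 1 - 2 * τ * A ≠ 0 → ∀ v ∈ Tri K y e f, ∃ s ∈ Tri K y e f, s + τ • Y s = v) ∧
      (∀ τ : K, 1 + τ * (κ * A) ≠ 0 → 1 + τ * (κ' * A) ≠ 0 →
        ∀ v ∈ Tri K y e f, ∃ s ∈ Tri K y e f, s + τ • Z s = v) ∧
      ∀ v, (v ∈ Tri K y e f ∧ v ≠ y + (1 - κ) • e ∧ v ≠ y + (1 - κ') • f) ∨
          v = y + f - κ • e ∨ v = y + e - κ' • f →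
        ∃ s ∈ Tri K y e f, s + A⁻¹ • (Y s - Z s) = v := by
  obtain ⟨Y, hY⟩ : ∃ Y : V → V, ∀ s, Y s =
    if s ∈ Ln K (y + e) (f - e) then A • (y + e + (y + f) - (2 : K) • s) else 0 :=
    ⟨_, fun _ => rfl⟩
  obtain ⟨Z, hZ⟩ : ∃ Z : V → V, ∀ s, Z s = if s ∈ Ln K y e then (κ * A) • (s - y) else
    if s ∈ Ln K y f then (κ' * A) • (s - y) else 0 := ⟨_, fun _ => rfl⟩
  have m1 : ∀ t : K, y + e + t • (f - e) ∈ Tri K y e f := fun t => Or.inl (Or.inl ⟨t, rfl⟩)
  have m2 : ∀ t : K, y + t • e ∈ Tri K y e f := fun t => Or.inl (Or.inr ⟨t, rfl⟩)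
  have m3 : ∀ t : K, y + t • f ∈ Tri K y e f := fun t => Or.inr ⟨t, rfl⟩
  have d12 : ∀ t u : K, y + e + t • (f - e) = y + u • e → t = 0 ∧ u = 1 := fun t u g => by
    have := h (1 - t - u) t (by linear_combination (norm := module) g)
    exact ⟨this.2, by linear_combination -this.1 - this.2⟩
  have d13 : ∀ t u : K, y + e + t • (f - e) = y + u • f → t = 1 ∧ u = 1 := fun t u g => by
    have := h (1 - t) (t - u) (by linear_combination (norm := module) g)
    exact ⟨by linear_combination -this.1, by linear_combination -this.1 - this.2⟩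
  have Y1 : ∀ t : K, Y (y + e + t • (f - e)) = (A * (1 - 2 * t)) • (f - e) := fun t => by
    rw [hY, if_pos ⟨t, rfl⟩]
    module
  have Y2 : ∀ t : K, t ≠ 1 → Y (y + t • e) = 0 := fun t ht => by
    rw [hY, if_neg fun ⟨u, g⟩ => ht (d12 u t g.symm).2]
  have Y3 : ∀ t : K, t ≠ 1 → Y (y + t • f) = 0 := fun t ht => by
    rw [hY, if_neg fun ⟨u, g⟩ => ht (d13 u t g.symm).2]
  have Z1 : ∀ t : K, t ≠ 0 → t ≠ 1 → Z (y + e + t • (f - e)) = 0 := fun t g0 g1 => by
    rw [hZ, if_neg fun ⟨u, g⟩ => g0 (d12 t u g).1, if_neg fun ⟨u, g⟩ => g1 (d13 t u g).1]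
  have Z2 : ∀ t : K, Z (y + t • e) = (κ * A * t) • e := fun t => by
    rw [hZ, if_pos ⟨t, rfl⟩]
    module
  have Z3 : ∀ t : K, Z (y + t • f) = (κ' * A * t) • f := fun t => by
    rw [hZ]
    split_ifs with g1 g2
    · obtain ⟨u, g⟩ := g1
      have := (h (-u) t (by linear_combination (norm := module) g)).2
      subst this
      simp
    · module
    · exact absurd ⟨t, rfl⟩ g2
  have iA : A⁻¹ * A = 1 := inv_mul_cancel₀ hA
  have k1 : 1 - κ ≠ 0 := sub_ne_zero.2 h1.symm
  have k1' : 1 - κ' ≠ 0 := sub_ne_zero.2 h1'.symm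
  have p2 : ∀ u : K, u ≠ 1 - κ → ∃ s ∈ Tri K y e f, s + A⁻¹ • (Y s - Z s) = y + u • e :=
    fun u hu => ⟨_, m2 (u / (1 - κ)), by
      rw [Y2 _ fun g => hu ((div_eq_one_iff_eq k1).1 g), Z2]
      linear_combination (norm := module) div_mul_cancel₀ u k1 • e - (κ * (u / (1 - κ))) • iA • e⟩
  have p3 : ∀ u : K, u ≠ 1 - κ' → ∃ s ∈ Tri K y e f, s + A⁻¹ • (Y s - Z s) = y + u • f :=
    fun u hu => ⟨_, m3 (u / (1 - κ')), by
      rw [Y3 _ fun g => hu ((div_eq_one_iff_eq k1').1 g), Z3]
      linear_combination (norm := module) div_mul_cancel₀ u k1' • f - (κ' * (u / (1 - κ'))) • iA • f⟩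
  refine ⟨Y, Z, fun τ hτ v hv => ?_, fun τ hτ hτ' v hv => ?_, ?_⟩
  · by_cases g1 : v ∈ Ln K (y + e) (f - e)
    · obtain ⟨u, rfl⟩ := g1
      refine ⟨_, m1 ((u - τ * A) / (1 - 2 * τ * A)), ?_⟩
      rw [Y1]
      linear_combination (norm := module) div_mul_cancel₀ (u - τ * A) hτ • (f - e)
    · exact ⟨v, hv, by rw [hY, if_neg g1, smul_zero, add_zero]⟩
  · by_cases g2 : v ∈ Ln K y e
    · obtain ⟨u, rfl⟩ := g2
      refine ⟨_, m2 (u / (1 + τ * (κ * A))), ?_⟩
      rw [Z2]
      linear_combination (norm := module) div_mul_cancel₀ u hτ • e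
    by_cases g3 : v ∈ Ln K y f
    · obtain ⟨u, rfl⟩ := g3
      refine ⟨_, m3 (u / (1 + τ * (κ' * A))), ?_⟩
      rw [Z3]
      linear_combination (norm := module) div_mul_cancel₀ u hτ' • f
    · exact ⟨v, hv, by rw [hZ, if_neg g2, if_neg g3, smul_zero, add_zero]⟩
  · rintro v (⟨hv, a, b⟩ | rfl | rfl)
    · by_cases g2 : v ∈ Ln K y e
      · obtain ⟨u, rfl⟩ := g2
        exact p2 u fun g => a (by rw [g])
      by_cases g3 : v ∈ Ln K y f
      · obtain ⟨u, rfl⟩ := g3
        exact p3 u fun g => b (by rw [g])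
      obtain ⟨u, rfl⟩ : v ∈ Ln K (y + e) (f - e) := (hv.resolve_right g3).resolve_right g2
      have h0 : u ≠ 0 := fun g => g2 ⟨1, by rw [g]; module⟩
      have h1 : u ≠ 1 := fun g => g3 ⟨1, by rw [g]; module⟩
      refine ⟨_, m1 (1 - u), ?_⟩
      rw [Y1, Z1 _ (sub_ne_zero.2 (Ne.symm h1)) fun g => h0 (sub_eq_self.1 g)]
      linear_combination (norm := module) (1 - 2 * (1 - u)) • iA • (f - e)
    · have y1 := Y1 0
      have z1 := Z2 1
      rw [zero_smul, add_zero] at y1
      rw [one_smul] at z1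
      refine ⟨y + e, by simpa using m2 1, ?_⟩
      rw [y1, z1]
      linear_combination (norm := module) iA • (f - e) - κ • iA • e
    · have y1 := Y1 1
      have z1 := Z3 1
      rw [show y + e + (1 : K) • (f - e) = y + f by module] at y1
      rw [one_smul] at z1
      refine ⟨y + f, by simpa using m3 1, ?_⟩
      rw [y1, z1]
      linear_combination (norm := module) -iA • (f - e) - κ' • iA • f

end gad

end Pool.Agent.MP_c7a479_co.Ex

end

section

namespace Pool.Agent.MP_c7a479_co.Ex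

open Finset
open scoped Classical

variable {K : Type} [Field K] {k : ℕ}

/-- The hub slopes in the plane. -/
def hub2 (a : Fin k → K) (l : Fin k) : K × K := (0, a l)

/-- `g` is not a hub difference. -/
def Free2 (a : Fin k → K) (i j : Fin k) (g : K × K) : Prop := ∀ l, g ≠ (a i - a j) • hub2 a l

/-- What the shifted columns of a base layer cover. -/
def Base2 (a : Fin k → K) (i j : Fin k) (g : K × K) : Prop :=
  (∃ l, l ≠ i ∧ l ≠ j ∧ g = (a i - a j) • hub2 a l) ∨ g = (a i - a j) • ((1, 0) : K × K) ∨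
    g = (a i - a j) • ((-1, a i + a j) : K × K)

/-- What the private layer of the pair `i, j` covers in this pair. -/
def Spec2 (a : Fin k → K) (i j : Fin k) (g : K × K) : Prop :=
  (Free2 a i j g ∧ g ≠ (a i - a j) • ((1, 0) : K × K) ∧
    g ≠ (a i - a j) • ((-1, a i + a j) : K × K)) ∨
    g = (a i - a j) • hub2 a i ∨ g = (a i - a j) • hub2 a j

theorem spec_or_base2 (a : Fin k → K) (i j : Fin k) (g : K × K) :
    Spec2 a i j g ∨ Base2 a i j g := by
  by_cases h : Free2 a i j g
  · by_cases h1 : g = (a i - a j) • ((1, 0) : K × K)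
    · exact Or.inr (Or.inr (Or.inl h1))
    by_cases h2 : g = (a i - a j) • ((-1, a i + a j) : K × K)
    · exact Or.inr (Or.inr (Or.inr h2))
    exact Or.inl (Or.inl ⟨h, h1, h2⟩)
  · obtain ⟨l, hl⟩ := not_forall.1 h
    have hl := not_not.1 hl
    by_cases h1 : l = i
    · exact Or.inl (Or.inr (Or.inl (h1 ▸ hl)))
    by_cases h2 : l = j
    · exact Or.inl (Or.inr (Or.inr (h2 ▸ hl)))
    exact Or.inr (Or.inl ⟨l, h1, h2, hl⟩)

theorem hub2_inj {a : Fin k → K} (ha : Function.Injective a) : Function.Injective (hub2 a) :=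
  fun _ _ h => ha (congrArg Prod.snd h)

theorem cov_hub2 {a : Fin k → K} : Cov k (K × K) 0 k fun i j g => ¬ Free2 a i j g := by
  refine ⟨Fin k, inferInstance, fun l i => .inl (a i • hub2 a l), by simp, fun i j _ g hg => ?_,
    fun _ _ _ h => h.elim0⟩
  obtain ⟨l, hl⟩ := not_forall.1 hg
  exact ⟨l, _, _, rfl, rfl, by rw [not_not.1 hl, sub_smul]⟩

theorem cov_base2 {a : Fin k → K} : Cov k (K × K) 1 (k + 2) (Base2 a) := by
  refine ⟨Fin k ⊕ Bool, inferInstance, Sum.elim
    (fun l i => if i = l then .inr 0 else .inl (a i • hub2 a l))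
    fun b i => .inl (if b then (a i, 0) else (-a i, a i ^ 2)), by simp, ?_, ?_⟩
  · rintro i j - g (⟨l, h1, h2, rfl⟩ | rfl | rfl)
    · exact ⟨.inl l, _, _, if_neg h1.symm, if_neg h2.symm, (sub_smul _ _ _).symm⟩
    · exact ⟨.inr true, _, _, rfl, rfl, by simp⟩
    · refine ⟨.inr false, _, _, rfl, rfl, ?_⟩
      simp only [Bool.false_eq_true, if_false, Prod.mk_sub_mk, Prod.smul_mk, smul_eq_mul]
      refine Prod.ext ?_ ?_ <;> simp only <;> ring
  · intro i j hij h
    exact ⟨.inl j, _, if_neg hij, by rw [Subsingleton.elim h 0]; exact if_pos rfl⟩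

theorem cov_free2 [Fintype K] {a : Fin k → K} (ha : Function.Injective a) :
    Cov k (K × K) 0 (Fintype.card (K × K) - k) (Free2 a) := by
  refine ⟨{s // ∀ l, s ≠ hub2 a l}, inferInstance, fun s i => .inl (a i • s.1),
    (card_off (hub2_inj ha)).le, fun i j hij g hg => ?_, fun _ _ _ h => h.elim0⟩
  have hA : a i - a j ≠ 0 := sub_ne_zero.2 (ha.ne hij.ne)
  refine ⟨⟨(a i - a j)⁻¹ • g, fun l e => hg l ?_⟩, _, _, rfl, rfl, ?_⟩
  · rw [← e, smul_inv_smul₀ hA]
  · rw [← sub_smul, smul_inv_smul₀ hA]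

omit [Field K] in
theorem avoid3 [Fintype K] (hq : 3 * k < Fintype.card K) (f g h : Fin k → K) :
    ∃ x : K, ∀ l, x ≠ f l ∧ x ≠ g l ∧ x ≠ h l := by
  obtain ⟨x, -, hx⟩ := exists_mem_notMem_of_card_lt_card
    (s := univ.image f ∪ univ.image g ∪ univ.image h) (t := univ) (by
      have h1 := card_union_le (univ.image f ∪ univ.image g) (univ.image h)
      have h2 := card_union_le (univ.image f) (univ.image g)
      have h3 : #(univ.image f) ≤ k := card_image_le.trans (by simp)
      have h4 : #(univ.image g) ≤ k := card_image_le.trans (by simp)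
      have h5 : #(univ.image h) ≤ k := card_image_le.trans (by simp)
      rw [card_univ]
      omega)
  simp only [mem_union, mem_image, mem_univ, true_and, not_or, not_exists] at hx
  exact ⟨x, fun l => ⟨Ne.symm (hx.1.1 l), Ne.symm (hx.1.2 l), Ne.symm (hx.2 l)⟩⟩

/-- The parameters of the triangle of the pair `p, q`. -/
theorem tri_par [Fintype K] (hq : 3 * k < Fintype.card K) {a : Fin k → K}
    (ha : Function.Injective a) {p q : Fin k} (hpq : p ≠ q) :
    ∃ κ κ' : K, κ' - κ ≠ 0 ∧ ∀ l, a q + κ * (a p - a q) ≠ a l ∧ a q + κ' * (a p - a q) ≠ a l ∧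
      a p - a l ≠ κ * (a l - a q) ∧ a q - a l ≠ κ' * (a l - a p) ∧
      κ * (a p - a q) ≠ (a l - a p) * (κ' - κ) := by
  have hA : a p - a q ≠ 0 := sub_ne_zero.2 (ha.ne hpq)
  obtain ⟨κ, hκ⟩ := avoid3 hq (fun l => (a l - a q) / (a p - a q))
    (fun l => (a p - a l) / (a l - a q)) fun _ => 0
  obtain ⟨κ', hκ'⟩ := avoid3 hq (fun l => (a l - a q) / (a p - a q))
    (fun l => (a q - a l) / (a l - a p)) fun l => κ + κ * (a p - a q) / (a l - a p)
  refine ⟨κ, κ', sub_ne_zero.2 (by simpa using (hκ' p).2.2), fun l => ⟨fun e => ?_, fun e => ?_,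
    fun e => ?_, fun e => ?_, fun e => ?_⟩⟩
  · exact (hκ l).1 (by rw [eq_div_iff hA]; linear_combination e)
  · exact (hκ' l).1 (by rw [eq_div_iff hA]; linear_combination e)
  · by_cases h : a l - a q = 0
    · exact hA (by linear_combination e + (1 + κ) * h)
    · exact (hκ l).2.1 (by rw [eq_div_iff h]; linear_combination -e)
  · by_cases h : a l - a p = 0
    · exact hA (by linear_combination -e - (1 + κ') * h)
    · exact (hκ' l).2.1 (by rw [eq_div_iff h]; linear_combination -e)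
  · by_cases h : a l - a p = 0
    · rw [h, zero_mul] at e
      exact (hκ l).2.2 ((mul_eq_zero.1 e).resolve_right hA)
    · exact (hκ' l).2.2 (by rw [e]; field_simp; ring)

/-- The private layer of the pair `p < q`: one triangle. -/
theorem cov_priv2 [Fintype K] (hq : 3 * k < Fintype.card K) {a : Fin k → K}
    (ha : Function.Injective a)
    (hap : ∀ i j l, a i + a j = 2 * a l → i = j) {p q : Fin k} (hpq : p < q) :
    Cov k (K × K) 0 (Fintype.card (K × K) - k)
      fun i j g => if i = p ∧ j = q then Spec2 a i j g else Free2 a i j g := by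
  have hA : a p - a q ≠ 0 := sub_ne_zero.2 (ha.ne hpq.ne)
  obtain ⟨κ, κ', hD, hκ⟩ := tri_par hq ha hpq.ne
  obtain ⟨D, iD⟩ : ∃ D, D * (κ' - κ) = 1 := ⟨_, inv_mul_cancel₀ hD⟩
  obtain ⟨e, he⟩ : ∃ e : K × K, e = (D * (1 + κ'), -D * (a q + κ' * a p)) := ⟨_, rfl⟩
  obtain ⟨f, hf⟩ : ∃ f : K × K, f = e + (-1, a p) := ⟨_, rfl⟩
  obtain ⟨y, hy⟩ : ∃ y : K × K, y = (1, 0) - (1 - κ) • e := ⟨_, rfl⟩
  have hI : ∀ x z : K, x • e + z • f = 0 → x = 0 ∧ z = 0 := by
    intro x z h
    simp only [hf, he, Prod.smul_mk, smul_eq_mul, Prod.mk_add_mk, Prod.mk_eq_zero] at h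
    obtain ⟨h1, h2⟩ := h
    have hs : (x + z) * D = 0 := by
      apply (mul_eq_zero.1 (?_ : (x + z) * D * (a p - a q) = 0)).resolve_right hA
      linear_combination h2 + a p * h1
    have hz : z = 0 := by linear_combination -h1 + (1 + κ') * hs
    exact ⟨by linear_combination (κ' - κ) * hs - (x + z) * iD - hz, hz⟩
  have e1 : y + (1 - κ) • e = (1, 0) := by rw [hy, sub_add_cancel]
  have e4 : y + e - κ' • f = hub2 a q := by
    simp only [hy, hf, he, hub2, Prod.smul_mk, smul_eq_mul, Prod.mk_add_mk, Prod.mk_sub_mk]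
    refine Prod.ext ?_ ?_ <;> simp only
    · linear_combination -(1 + κ') * iD
    · linear_combination (a q + κ' * a p) * iD
  have e3 : y + f - κ • e = hub2 a p := by
    have : y + f - κ • e = y + (1 - κ) • e + (-1, a p) := by rw [hf]; module
    rw [this, e1]
    simp [hub2]
  have e2 : y + (1 - κ') • f = (-1, a p + a q) := by
    have : y + (1 - κ') • f = y + e - κ' • f + (-1, a p) := by rw [hf]; module
    rw [this, e4]
    simp [hub2, add_comm]
  obtain ⟨Y, Z, hY, hZ, hS⟩ := gadget2 (y := y) (κ := κ) (κ' := κ') hI hA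
    (fun h => (hκ p).1 (by rw [h]; ring)) (fun h => (hκ p).2.1 (by rw [h]; ring))
  rw [e1, e2, e3, e4] at hS
  set G := Tri K y e f with hG
  have hc : ∀ s ∈ G, ∀ l, s ≠ hub2 a l := by
    rintro s ((⟨t, rfl⟩ | ⟨t, rfl⟩) | ⟨t, rfl⟩) l g
    · have g1 := congrArg Prod.fst g
      have g2 := congrArg Prod.snd g
      simp only [hy, hf, he, hub2, Prod.smul_mk, smul_eq_mul, Prod.mk_add_mk,
        Prod.mk_sub_mk] at g1 g2
      refine (hκ l).2.2.2.2 ?_
      linear_combination (κ' - κ) * (g2 + a p * g1) - κ * (a p - a q) * iD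
    · have g1 := congrArg Prod.fst g
      have g2 := congrArg Prod.snd g
      simp only [hy, he, hub2, Prod.smul_mk, smul_eq_mul, Prod.mk_add_mk,
        Prod.mk_sub_mk] at g1 g2
      refine (hκ l).2.2.2.1 ?_
      linear_combination (1 + κ') * g2 + (a q + κ' * a p) * g1
    · have g0 : y + t • f = (-1, a p + a q) + (t - 1 + κ') • f := by rw [← e2]; module
      have f0 : f = (D * (1 + κ), -D * (a q + κ * a p)) := by
        simp only [hf, he, Prod.mk_add_mk]
        refine Prod.ext ?_ ?_ <;> simp only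
        · linear_combination iD
        · linear_combination -a p * iD
      rw [g0, f0] at g
      have g1 := congrArg Prod.fst g
      have g2 := congrArg Prod.snd g
      simp only [hub2, Prod.smul_mk, smul_eq_mul, Prod.mk_add_mk] at g1 g2
      refine (hκ l).2.2.1 ?_
      linear_combination (1 + κ) * g2 + (a q + κ * a p) * g1
  let pe : K × K → Fin k → K × K := fun s i =>
    if s ∈ G then (if i = p then Y s else if i = q then Z s else 0) else 0
  refine ⟨{s // ∀ l, s ≠ hub2 a l}, inferInstance, fun s i => .inl (a i • s.1 + pe s.1 i),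
    (card_off (hub2_inj ha)).le, fun i j hij g hg => ?_, fun _ _ _ h => h.elim0⟩
  have hB : a i - a j ≠ 0 := sub_ne_zero.2 (ha.ne hij.ne)
  obtain ⟨v, rfl⟩ : ∃ v, g = (a i - a j) • v := ⟨(a i - a j)⁻¹ • g, (smul_inv_smul₀ hB g).symm⟩
  have inj : ∀ x y : K × K, (a i - a j) • x = (a i - a j) • y ↔ x = y := fun x y =>
    (smul_right_injective _ hB).eq_iff
  suffices h : ∃ s, (∀ l, s ≠ hub2 a l) ∧ s + (a i - a j)⁻¹ • (pe s i - pe s j) = v by
    obtain ⟨s, h1, h2⟩ := h
    refine ⟨⟨s, h1⟩, _, _, rfl, rfl, ?_⟩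
    rw [← h2, smul_add, smul_inv_smul₀ hB, sub_smul]
    abel
  by_cases hv : v ∈ G ∨ (i = p ∧ j = q ∧ (v = hub2 a i ∨ v = hub2 a j))
  swap
  · push Not at hv
    refine ⟨v, fun l e => ?_, by simp [pe, hv.1]⟩
    split_ifs at hg with h
    · rcases hg with hg | hg | hg
      · exact hg.1 l (by rw [e])
      · exact (hv.2 h.1 h.2).1 ((inj _ _).1 hg)
      · exact (hv.2 h.1 h.2).2 ((inj _ _).1 hg)
    · exact hg l (by rw [e])
  by_cases h : i = p ∧ j = q
  · obtain ⟨rfl, rfl⟩ := h
    rw [if_pos ⟨rfl, rfl⟩] at hg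
    obtain ⟨s, hs, hs'⟩ := hS v (by
      rcases hg with ⟨h1, h2, h3⟩ | hg | hg
      · rcases hv with hv | ⟨-, -, hv | hv⟩
        · exact Or.inl ⟨hv, fun e => h2 (by rw [e]), fun e => h3 (by rw [e])⟩
        · exact absurd (by rw [hv]) (h1 i)
        · exact absurd (by rw [hv]) (h1 j)
      · exact Or.inr (Or.inl ((inj _ _).1 hg))
      · exact Or.inr (Or.inr ((inj _ _).1 hg)))
    exact ⟨s, hc s hs, by simpa [pe, hs, hij.ne'] using hs'⟩
  have hw : v ∈ G := hv.resolve_right fun e => h ⟨e.1, e.2.1⟩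
  by_cases hip : i = p
  · subst hip
    have hjq : j ≠ q := fun e => h ⟨rfl, e⟩
    obtain ⟨s, hs, hs'⟩ := hY (a i - a j)⁻¹ (by
      intro e
      apply hij.ne (hap i j q ?_)
      field_simp at e
      linear_combination -e) v hw
    exact ⟨s, hc s hs, by simpa [pe, hs, hij.ne', hjq] using hs'⟩
  by_cases hjp : j = p
  · subst hjp
    have hiq : i ≠ q := (hij.trans hpq).ne
    obtain ⟨s, hs, hs'⟩ := hY (-(a i - a j)⁻¹) (by
      intro e
      apply hij.ne (hap i j q ?_)
      field_simp at e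
      linear_combination e) v hw
    exact ⟨s, hc s hs, by simpa [pe, hs, hip, hiq] using hs'⟩
  have hτ : ∀ c : K, (∀ l, a q + c * (a p - a q) ≠ a l) → 1 + (a i - a j)⁻¹ *
      ((if i = q then 1 else 0) - if j = q then 1 else 0) * (c * (a p - a q)) ≠ 0 := by
    intro c hc e
    have iB : (a i - a j)⁻¹ * (a i - a j) = 1 := inv_mul_cancel₀ hB
    by_cases hiq : i = q
    · rw [if_pos hiq, if_neg (hiq ▸ hij.ne')] at e
      refine hc j ?_
      rw [← hiq] at e ⊢
      linear_combination (a i - a j) * e - c * (a p - a i) * iB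
    by_cases hjq : j = q
    · rw [if_neg hiq, if_pos hjq] at e
      refine hc i ?_
      rw [← hjq] at e ⊢
      linear_combination -(a i - a j) * e - c * (a p - a j) * iB
    · rw [if_neg hiq, if_neg hjq] at e
      simp at e
  obtain ⟨s, hs, hs'⟩ := hZ ((a i - a j)⁻¹ *
    ((if i = q then 1 else 0) - if j = q then 1 else 0)) (hτ κ fun l => (hκ l).1)
    (hτ κ' fun l => (hκ l).2.1) v hw
  refine ⟨s, hc s hs, ?_⟩
  rw [← hs', mul_smul, sub_smul]
  simp only [pe, if_pos hs, if_neg hip, if_neg hjp, ite_smul, one_smul, zero_smul]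

end Pool.Agent.MP_c7a479_co.Ex

end

section

/-! The heavy layer over `K × K`: `|K| - 1` new symbols and no repairs. -/

namespace Pool.Agent.MP_c7a479_co.Ex

open Finset
open scoped Classical

/-- The rank of `l` after deleting `o`. -/
def rk (o l : ℕ) : ℕ := if o < l then l - 1 else l

theorem hyp_sub {K : Type} [Field K] {x y : K} (hx : x ≠ 0) (hy : y ≠ 0) (c : K) :
    ((x, c / x) : K × K) - (y, c / y) = (x - y) • ((1 : K), -c / (x * y)) := by
  refine Prod.ext (by simp) ?_
  simp only [Prod.mk_sub_mk, Prod.smul_mk, smul_eq_mul]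
  field_simp
  ring

theorem rk_exists {k i j m : ℕ} (hij : i < j) (hj : j < k + 2) (hm : m < k) :
    ∃ o, o < k + 2 ∧ o ≠ i ∧ o ≠ j ∧ rk o i ≠ rk o j ∧ rk o i < k + 2 ∧ rk o j < k + 2 ∧
      o + (i + j) = m + 2 + (rk o i + rk o j) := by
  by_cases h1 : m < i
  · refine ⟨m, ?_⟩
    rw [rk, rk, if_pos h1, if_pos (by omega)]
    omega
  by_cases h2 : m + 1 < j
  · refine ⟨m + 1, ?_⟩
    rw [rk, rk, if_neg (by omega), if_pos h2]
    omega
  · refine ⟨m + 2, ?_⟩
    rw [rk, rk, if_neg (by omega), if_neg (by omega)]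
    omega

/-- Projective representatives: hyperbolas, the gap left by a blank row being closed. -/
theorem rep2 {K : Type} [Field K] [Fintype K] {k : ℕ} (hq : k + 2 < Fintype.card K) :
    ∃ (X : Type) (_ : Fintype X) (rep : X → Fin (k + 2) → Option (K × K)),
      Fintype.card X = Fintype.card K + 2 ∧
      (∀ i j, i < j → ∀ v : K, ∃ r a b, ∃ s : K, s ≠ 0 ∧ rep r i = some a ∧
        rep r j = some b ∧ a - b = s • ((1 : K), v)) ∧
      ∀ i j, i ≠ j → ∃ r a, rep r i = some a ∧ rep r j = none := by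
  obtain ⟨γ, hγ⟩ := IsCyclic.exists_generator (α := Kˣ)
  have ho : orderOf γ = Fintype.card K - 1 := by
    rw [orderOf_eq_card_of_forall_mem_zpowers hγ, Nat.card_eq_fintype_card, Fintype.card_units]
  have hinj : ∀ a b : ℕ, a < k + 2 → b < k + 2 → (γ : K) ^ a = (γ : K) ^ b → a = b := by
    intro a b ha hb e
    refine pow_injOn_Iio_orderOf (x := γ) (by simp only [Set.mem_Iio]; omega)
      (by simp only [Set.mem_Iio]; omega) (Units.ext ?_)
    simpa using e
  have hne : ∀ a : ℕ, (γ : K) ^ a ≠ 0 := fun a => pow_ne_zero _ γ.ne_zero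
  have hf : Function.Injective fun m : Fin k => (γ : K) ^ ((m : ℕ) + 2) := fun a b e => by
    have := hinj _ _ (by omega) (by omega) e
    exact Fin.ext (by omega)
  refine ⟨{c : K // ∀ m : Fin k, c ≠ (γ : K) ^ ((m : ℕ) + 2)} ⊕ Fin (k + 2), inferInstance,
    Sum.elim (fun c l => some ((γ : K) ^ (l : ℕ), c.1 / (γ : K) ^ (l : ℕ)))
      fun o l => if l = o then none else
        some ((γ : K) ^ rk o l, (γ : K) ^ (o : ℕ) / (γ : K) ^ rk o l), ?_, ?_, ?_⟩
  · rw [Fintype.card_sum, card_off hf, Fintype.card_fin]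
    omega
  · intro i j hij v
    have hi := hne i
    have hj := hne j
    by_cases hc : ∀ m : Fin k, -v * ((γ : K) ^ (i : ℕ) * (γ : K) ^ (j : ℕ)) ≠ (γ : K) ^ ((m : ℕ) + 2)
    · refine ⟨.inl ⟨_, hc⟩, _, _, (γ : K) ^ (i : ℕ) - (γ : K) ^ (j : ℕ),
        sub_ne_zero.2 fun e => hij.ne (Fin.ext (hinj _ _ i.2 j.2 e)), rfl, rfl, ?_⟩
      rw [hyp_sub hi hj]
      congr 2
      field_simp
    · push Not at hc
      obtain ⟨m, hm⟩ := hc
      obtain ⟨o, h0, h1, h2, h3, h4, h5, h6⟩ := rk_exists (show (i : ℕ) < j from hij) j.2 m.2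
      refine ⟨.inr ⟨o, h0⟩, _, _, (γ : K) ^ rk o i - (γ : K) ^ rk o j,
        sub_ne_zero.2 fun e => h3 (hinj _ _ h4 h5 e),
        if_neg fun e => h1 (congrArg Fin.val e).symm,
        if_neg fun e => h2 (congrArg Fin.val e).symm, ?_⟩
      rw [hyp_sub (hne _) (hne _)]
      congr 2
      have e := congrArg (fun n => (γ : K) ^ n) h6
      simp only [pow_add (γ : K) o, pow_add (γ : K) ((m : ℕ) + 2), ← hm, pow_add (γ : K) (i : ℕ),
        pow_add (γ : K) (rk o i)] at e
      rw [div_eq_iff (mul_ne_zero (hne _) (hne _))]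
      apply mul_right_cancel₀ (mul_ne_zero hi hj)
      linear_combination -e
  · intro i j hij
    exact ⟨.inr j, _, if_neg hij, if_pos rfl⟩

/-- A heavy layer: `|K| - 1` new symbols, hub columns left out. -/
theorem cov_heavy2 {K : Type} [Field K] [Fintype K] {k : ℕ} (hq : k + 2 < Fintype.card K)
    {h : Fin (k + 2) → K} (hh : Function.Injective h) :
    Cov (k + 2) (K × K) (Fintype.card K - 1)
      (Fintype.card (K × K) - (k + 2) + 2 * (Fintype.card K - 1)) (Free2 h) := by
  obtain ⟨X, _, rep, hX, ha, hb⟩ := rep2 hq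
  have f : Kˣ ≃ Fin (Fintype.card K - 1) := Fintype.equivFinOfCardEq (Fintype.card_units K)
  refine ⟨(X × Kˣ) ⊕ {c : K // ∀ l, c ≠ h l}, inferInstance,
    Sum.elim (fun c i => (rep c.1 i).elim (.inr (f c.2)) fun a => .inl ((c.2 : K) • a))
      (fun c i => .inl (h i • ((0 : K), c.1))), ?_, ?_, ?_⟩
  · rw [Fintype.card_sum, card_off hh]
    simp only [Fintype.card_prod, Fintype.card_units, hX]
    obtain ⟨m, hm⟩ : ∃ m, Fintype.card K = m + 1 := ⟨Fintype.card K - 1, by omega⟩
    rw [hm, Nat.add_sub_cancel]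
    have h2 : (m + 1) * (m + 1) = m * m + 2 * m + 1 := by ring
    have h3 : (m + 1 + 2) * m = m * m + 3 * m := by ring
    omega
  · rintro i j hij ⟨g0, g1⟩ hg
    have hd : h i - h j ≠ 0 := sub_ne_zero.2 (hh.ne hij.ne)
    by_cases hg0 : g0 = 0
    · subst hg0
      have key : (h i - h j) • ((0 : K), g1 / (h i - h j)) = (0, g1) := by
        refine Prod.ext (by simp) ?_
        simp only [Prod.smul_mk, smul_eq_mul]
        field_simp
      exact ⟨.inr ⟨g1 / (h i - h j), fun l e => hg l (by rw [← key, e]; rfl)⟩,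
        _, _, rfl, rfl, by rw [← sub_smul, key]⟩
    · obtain ⟨r, a, b, s, hs, h1, h2, h3⟩ := ha i j hij (g1 / g0)
      refine ⟨.inl (r, Units.mk0 (g0 / s) (div_ne_zero hg0 hs)), (g0 / s) • a, (g0 / s) • b,
        by simp [h1], by simp [h2], ?_⟩
      rw [← smul_sub, h3, smul_smul, div_mul_cancel₀ _ hs]
      refine Prod.ext (by simp) ?_
      simp only [Prod.smul_mk, smul_eq_mul]
      field_simp
  · intro i j hij t
    obtain ⟨r, a, h1, h2⟩ := hb i j hij
    exact ⟨.inl (r, f.symm t), (f.symm t : K) • a, by simp [h1], by simp [h2]⟩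

end Pool.Agent.MP_c7a479_co.Ex

end

section

/-! Orders `q ^ 2 t + (q - 1) a + q b`. -/

namespace Pool.Agent.MP_c7a479_co.Ex

open Finset
open scoped Classical

theorem far_field {K : Type} [Field K] [Fintype K] {k : ℕ} (hk : k + 1 ≤ Fintype.card K) :
    ∃ a : Fin (k + 2) → Option K, ∀ i j, i ≠ j → Far (a i) (a j) := by
  obtain ⟨a⟩ : Nonempty (Fin (k + 2) ↪ Option K) :=
    Function.Embedding.nonempty_of_card_le (by simpa using hk)
  refine ⟨a, fun i j hij => ?_⟩
  have h := a.injective.ne hij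
  rcases hi : a i with _ | x <;> rcases hj : a j with _ | y <;> rw [hi, hj] at h
  · exact h rfl
  · trivial
  · trivial
  · exact (sub_ne_zero.2 fun e => h (congrArg _ e)).isUnit

theorem td_field' {K : Type} [Field K] [Fintype K] {k : ℕ} (hk : k + 1 ≤ Fintype.card K) :
    Td (Fin (k + 2)) K := by
  obtain ⟨a, ha⟩ := far_field hk
  exact td_line a ha

theorem field_of_pow {p e : ℕ} (hp : p.Prime) (he : e ≠ 0) :
    ∃ (K : Type) (_ : Field K) (_ : Fintype K), CharP K p ∧ Fintype.card K = p ^ e := by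
  have := Fact.mk hp
  have : Fintype (GaloisField p e) := Fintype.ofFinite _
  exact ⟨GaloisField p e, inferInstance, inferInstance, inferInstance, by
    rw [← Nat.card_eq_fintype_card, GaloisField.card p e he]⟩

/-- MacNeish's theorem. -/
theorem td_mac {k n : ℕ} (hn : n ≠ 0)
    (h : ∀ p : ℕ, p.Prime → p ∣ n → k + 1 ≤ p ^ n.factorization p) : Td (Fin (k + 2)) (Fin n) := by
  induction n using Nat.recOnPosPrimePosCoprime with
  | prime_pow p e hp he =>
    obtain ⟨K, _, _, -, hK⟩ := field_of_pow hp he.ne'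
    have := h p hp (dvd_pow_self p he.ne')
    rw [hp.factorization_pow, Finsupp.single_eq_same] at this
    exact (td_field' (K := K) (by omega)).of_card (by simpa using hK)
  | zero => exact absurd rfl hn
  | one => exact td_rough' one_ne_zero fun p hp hd => absurd (Nat.dvd_one.1 hd) hp.ne_one
  | coprime a b ha hb hab iha ihb =>
    refine ((iha (by omega) fun p hp hd => ?_).prod (ihb (by omega) fun p hp hd => ?_)).of_card
      (by simp)
    · have := h p hp (hd.mul_right _)
      rwa [Nat.factorization_eq_of_coprime_left hab (Nat.mem_primeFactorsList (by omega) |>.2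
        ⟨hp, hd⟩)] at this
    · have := h p hp (hd.mul_left _)
      rwa [Nat.factorization_eq_of_coprime_right hab (Nat.mem_primeFactorsList (by omega) |>.2
        ⟨hp, hd⟩)] at this

/-- A hole of order `q - 1` in order `q ^ 2 + q - 1`. -/
theorem itd_heavy {K : Type} [Field K] [Fintype K] {k : ℕ} (hq : k + 2 < Fintype.card K) :
    Itd (Fin (k + 2)) (K × K) (Fin (Fintype.card K - 1)) := by
  obtain ⟨h⟩ : Nonempty (Fin (k + 2) ↪ K) :=
    Function.Embedding.nonempty_of_card_le (by simpa using hq.le)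
  obtain ⟨Y, _, x, x1, x2, x3⟩ := cov_heavy2 hq h.injective
  obtain ⟨Y', _, y, y1, y2, -⟩ := cov_hub2 (a := (h : Fin (k + 2) → K))
  have key : ∀ i j, i < j → ∀ g, ∃ c : Y ⊕ Y', ∃ a b,
      Sum.elim x (fun c l => (y c l).map id Fin.elim0) c i = .inl a ∧
      Sum.elim x (fun c l => (y c l).map id Fin.elim0) c j = .inl b ∧ a - b = g := by
    intro i j hij g
    by_cases hg : Free2 h i j g
    · obtain ⟨c, a, b, e1, e2, e3⟩ := x2 i j hij g hg
      exact ⟨.inl c, a, b, e1, e2, e3⟩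
    · obtain ⟨c, a, b, e1, e2, e3⟩ := y2 i j hij g hg
      exact ⟨.inr c, a, b, by simp [e1], by simp [e2], e3⟩
  refine Qdm.itd ⟨Y ⊕ Y', inferInstance, Sum.elim x fun c l => (y c l).map id Fin.elim0, ?_,
    fun i j hij g => ?_, fun i j hij r => ?_⟩
  · have : k + 2 ≤ Fintype.card (K × K) := by
      rw [Fintype.card_prod]
      exact hq.le.trans (Nat.le_mul_of_pos_right _ (by omega))
    rw [Fintype.card_sum, Fintype.card_fin]
    omega
  · rcases lt_or_gt_of_ne hij with e | e
    · exact key i j e g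
    · obtain ⟨c, a, b, h1, h2, h3⟩ := key j i e (-g)
      exact ⟨c, b, a, h2, h1, by rw [← neg_sub, h3, neg_neg]⟩
  · obtain ⟨c, a, e1, e2⟩ := x3 i j hij r
    exact ⟨.inl c, a, e1, e2⟩

/-- A hole of order `q` in order `q ^ 2 + q`. -/
theorem itd_jet_field {K : Type} [Field K] [Fintype K] {k p : ℕ} [CharP K p] (hp : p.Prime)
    (h2 : p ≠ 2) (hkp : k ≤ p) (hq : k + 1 ≤ Fintype.card K) : Itd (Fin (k + 2)) (K × K) K := by
  obtain ⟨a, ha⟩ := far_field hq
  refine itd_jet a ha (IsUnit.mk0 _ fun e => h2 ?_) fun m m' e => ?_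
  · have : ((2 : ℕ) : K) = 0 := by simpa using e
    exact (Nat.prime_dvd_prime_iff_eq hp Nat.prime_two).1 ((CharP.cast_eq_zero_iff K p 2).1 this)
  · simp only [Nat.cast_add, add_left_inj] at e
    have := (CharP.natCast_eq_natCast K p).1 e
    rw [Nat.ModEq, Nat.mod_eq_of_lt (by omega), Nat.mod_eq_of_lt (by omega)] at this
    exact Fin.ext this

theorem sum_ite_two {t a b c d : ℕ} (h : a + b ≤ t) :
    ∑ τ : Fin t, (if (τ : ℕ) < a then c else if (τ : ℕ) < a + b then d else 0) = c * a + d * b := by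
  have e : ∀ τ : Fin t, (if (τ : ℕ) < a then c else if (τ : ℕ) < a + b then d else 0) +
      (if (τ : ℕ) < a then d else 0) =
      (if (τ : ℕ) < a then c else 0) + (if (τ : ℕ) < a + b then d else 0) := fun τ => by
    split_ifs <;> omega
  have := sum_congr rfl fun τ (_ : τ ∈ univ) => e τ
  rw [sum_add_distrib, sum_add_distrib, sum_ite_lt (by omega), sum_ite_lt (by omega),
    sum_ite_lt h, mul_add] at this
  omega

/-- Wilson's construction with `m = q ^ 2` and weights `0`, `q - 1`, `q`. -/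
theorem itd_rec {k p e t a b : ℕ} (hp : p.Prime) (he : e ≠ 0) (hk : k + 1 ≤ p ^ e)
    (ha : a ≠ 0 → k + 3 ≤ p ^ e) (hb : b ≠ 0 → p ≠ 2 ∧ k ≤ p) (hab : a + b ≤ t)
    (hT : Td (Fin (k + 3)) (Fin t)) :
    Itd (Fin (k + 2)) (Fin ((p ^ e) ^ 2 * t)) (Fin ((p ^ e - 1) * a + p ^ e * b)) := by
  obtain ⟨K, _, _, _, hK⟩ := field_of_pow hp he
  refine (wilson_gen (M := K × K) 0 hT.option
    (fun τ => if (τ : ℕ) < a then p ^ e - 1 else if (τ : ℕ) < a + b then p ^ e else 0)
    fun τ => ?_).of_card (by simp [hK]; ring) (by simp [sum_ite_two hab])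
  by_cases h1 : (τ : ℕ) < a
  · rw [if_pos h1, ← hK]
    exact itd_heavy (by have := ha (by omega); omega)
  rw [if_neg h1]
  by_cases h2 : (τ : ℕ) < a + b
  · rw [if_pos h2]
    exact (itd_jet_field hp (hb (by omega)).1 (hb (by omega)).2 (by omega)).of_card rfl
      (by simpa using hK)
  · rw [if_neg h2]
    exact ((td_field' (K := K) (by omega)).prod (td_field' (K := K) (by omega))).itd

theorem square_plus {k p e t a b : ℕ} (hp : p.Prime) (he : e ≠ 0) (hk : k + 1 ≤ p ^ e)
    (ha : a ≠ 0 → k + 3 ≤ p ^ e) (hb : b ≠ 0 → p ≠ 2 ∧ k ≤ p) (h0 : 0 < a + b) (hab : a + b ≤ t)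
    (ht : ∀ r : ℕ, r.Prime → r ∣ t → k + 2 ≤ r ^ t.factorization r)
    (hu : ∀ r : ℕ, r.Prime → r ∣ (p ^ e - 1) * a + p ^ e * b →
      k + 1 ≤ r ^ ((p ^ e - 1) * a + p ^ e * b).factorization r) :
    HasVarSet 2 ((p ^ e) ^ 2 * t + ((p ^ e - 1) * a + p ^ e * b)) k := by
  have h2 : 2 ≤ p ^ e := hp.two_le.trans (Nat.le_self_pow he p)
  have hu0 : (p ^ e - 1) * a + p ^ e * b ≠ 0 := by
    intro h
    have h3 := Nat.add_eq_zero_iff.1 h
    rw [Nat.mul_eq_zero, Nat.mul_eq_zero] at h3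
    omega
  exact (((itd_rec hp he hk ha hb hab (td_mac (k := k + 1) (by omega) ht)).fill
    (td_mac hu0 hu)).of_card (by simp)).hasVarSet

end Pool.Agent.MP_c7a479_co.Ex

end
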