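import Mathlib
import Pool.Agent.Mg.Fc7a479a.Gf3cef4

set_option linter.all false

section

/-! An explicit supersolution of the system of the linear sieve with `β = 52 / 25`. -/

namespace Pool.Agent.MP_c7a479_co.Ex

open Finset

noncomputable section

/-- Majorant of the lower error, shifted by one. -/
def gm (t : ℝ) : ℝ := if t ≤ 77 / 25 then 1 else Real.exp (-(8 / 5) * (t - 77 / 25))

/-- The tail integral of `gm`. -/
def Im (t : ℝ) : ℝ :=
  if t ≤ 77 / 25 then 77 / 25 - t + 5 / 8 else Real.exp (-(8 / 5) * (t - 77 / 25)) * (5 / 8)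

/-- Majorant of the upper error, up to a constant. -/
def ap (s : ℝ) : ℝ :=
  if s ≤ 77 / 25 then (741 / 200 - s) / s else Real.exp (-(8 / 5) * (s - 77 / 25)) * (125 / 616)

/-- The tail integral of `ap`. -/
def Ip (s : ℝ) : ℝ :=
  if s ≤ 77 / 25 then 741 / 200 * Real.log (77 / 25 / s) - (77 / 25 - s) + 625 / 4928
  else Real.exp (-(8 / 5) * (s - 77 / 25)) * (625 / 4928)

/-- `g` is nonnegative and decreasing and `I` majorises its tail integral on `[s, ∞)`. -/
structure Tail (s : ℝ) (g I : ℝ → ℝ) : Prop where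
  g0 : ∀ t, s ≤ t → 0 ≤ g t
  I0 : ∀ t, s ≤ t → 0 ≤ I t
  anti : ∀ t' t, s ≤ t' → t' ≤ t → g t ≤ g t'
  conv : ∀ t' t, s ≤ t' → t' ≤ t → g t * (t - t') ≤ I t' - I t

theorem exp_conv (a t' t : ℝ) : Real.exp (-(8 / 5) * (t - a)) * (t - t') ≤
    Real.exp (-(8 / 5) * (t' - a)) * (5 / 8) - Real.exp (-(8 / 5) * (t - a)) * (5 / 8) := by
  have e : Real.exp (-(8 / 5) * (t' - a)) =
      Real.exp (-(8 / 5) * (t - a)) * Real.exp (8 / 5 * (t - t')) := by
    rw [← Real.exp_add]
    congr 1
    ring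
  have := mul_le_mul_of_nonneg_left (Real.add_one_le_exp (8 / 5 * (t - t')))
    (Real.exp_pos (-(8 / 5) * (t - a))).le
  rw [e]
  linarith

theorem exp_anti {a t' t : ℝ} (h : t' ≤ t) :
    Real.exp (-(8 / 5) * (t - a)) ≤ Real.exp (-(8 / 5) * (t' - a)) :=
  Real.exp_le_exp.2 (by linarith)

theorem exp_le_one' {a t : ℝ} (h : a ≤ t) : Real.exp (-(8 / 5) * (t - a)) ≤ 1 :=
  Real.exp_le_one_iff.2 (by linarith)

theorem tail_m (s : ℝ) : Tail s gm Im := by
  refine ⟨fun t _ => ?_, fun t _ => ?_, fun t' t _ h => ?_, fun t' t _ h => ?_⟩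
  · unfold gm
    split_ifs <;> positivity
  · unfold Im
    split_ifs
    · linarith
    · positivity
  · unfold gm
    split_ifs with h1 h2 h2
    · exact le_rfl
    · linarith
    · exact exp_le_one' (by linarith)
    · exact exp_anti h
  · unfold gm Im
    split_ifs with h1 h2 h2
    · linarith
    · linarith
    · have a := exp_conv (77 / 25) (77 / 25) t
      have b := exp_le_one' (a := 77 / 25) (t := t) (by linarith)
      rw [sub_self, mul_zero, Real.exp_zero] at a
      nlinarith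
    · exact exp_conv _ _ _

theorem ap_low {t' t : ℝ} (h0 : 0 < t') (h : t' ≤ t) :
    (741 / 200 - t) / t ≤ (741 / 200 - t') / t' := by
  rw [div_le_div_iff₀ (by linarith) h0]
  nlinarith

theorem log_conv {t' t : ℝ} (h0 : 0 < t') (h : t' ≤ t) : (741 / 200 - t) / t * (t - t') ≤
    741 / 200 * Real.log (77 / 25 / t') - (77 / 25 - t') -
      (741 / 200 * Real.log (77 / 25 / t) - (77 / 25 - t)) := by
  have ht : 0 < t := by linarith
  have a := Real.log_le_sub_one_of_pos (div_pos h0 ht)
  rw [Real.log_div h0.ne' ht.ne'] at a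
  rw [Real.log_div (by norm_num) h0.ne', Real.log_div (by norm_num) ht.ne']
  have e : (741 / 200 - t) / t * (t - t') = 741 / 200 * (1 - t' / t) - (t - t') := by
    field_simp
  rw [e]
  linarith

theorem tail_p {s : ℝ} (hs : 1 < s) : Tail s (fun t => ap (t - 1)) fun t => Ip (t - 1) := by
  have key : ∀ t : ℝ, 0 < t → t ≤ 77 / 25 → 125 / 616 ≤ (741 / 200 - t) / t := fun t h0 h =>
    le_trans (by norm_num) (ap_low h0 h)
  refine ⟨fun t ht => ?_, fun t ht => ?_, fun t' t ht h => ?_, fun t' t ht h => ?_⟩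
  · unfold ap
    split_ifs with h
    · exact le_trans (by norm_num) (key _ (by linarith) h)
    · positivity
  · unfold Ip
    split_ifs with h
    · have a := log_conv (t' := t - 1) (t := 77 / 25) (by linarith) h
      rw [div_self (by norm_num : (77 / 25 : ℝ) ≠ 0), Real.log_one] at a
      nlinarith
    · positivity
  · unfold ap
    split_ifs with h1 h2 h2
    · exact ap_low (by linarith) (by linarith)
    · linarith
    · have := exp_le_one' (a := 77 / 25) (t := t - 1) (by linarith)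
      have := key (t' - 1) (by linarith) h2
      linarith
    · have := exp_anti (a := 77 / 25) (show t' - 1 ≤ t - 1 by linarith)
      linarith
  · unfold ap Ip
    split_ifs with h1 h2 h2
    · have := log_conv (t' := t' - 1) (t := t - 1) (by linarith) (by linarith)
      rw [show t - 1 - (t' - 1) = t - t' by ring] at this
      linarith
    · linarith
    · have a := exp_conv (77 / 25) (77 / 25) (t - 1)
      have b := exp_le_one' (a := 77 / 25) (t := t - 1) (by linarith)
      have c := log_conv (t' := t' - 1) (t := 77 / 25) (by linarith) h2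
      rw [sub_self, mul_zero, Real.exp_zero] at a
      rw [div_self (by norm_num : (77 / 25 : ℝ) ≠ 0), Real.log_one] at c
      nlinarith
    · have := exp_conv (77 / 25) (t' - 1) (t - 1)
      rw [show t - 1 - (t' - 1) = t - t' by ring] at this
      linarith

theorem super_up {s : ℝ} (hs : 0 < s) :
    1 / 10000 * gm s + 10001 / 10000 * Im s / s ≤ 1001 / 1000 * ap s := by
  unfold gm Im ap
  split_ifs with h
  · have a : 125 / 616 ≤ (741 / 200 - s) / s := le_trans (by norm_num) (ap_low hs h)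
    rw [show 77 / 25 - s + 5 / 8 = 741 / 200 - s by ring, mul_div_assoc]
    linarith
  · have a := Real.exp_pos (-(8 / 5) * (s - 77 / 25))
    have b : 10001 / 10000 * (Real.exp (-(8 / 5) * (s - 77 / 25)) * (5 / 8)) / s ≤
        10001 / 10000 * (Real.exp (-(8 / 5) * (s - 77 / 25)) * (5 / 8)) / (77 / 25) :=
      div_le_div_of_nonneg_left (by positivity) (by norm_num) (by linarith)
    linarith

theorem exp_num : Real.exp (16 / 5) ≤ 2454 / 100 := by
  refine le_of_pow_le_pow_left₀ (n := 5) (by norm_num) (by norm_num) ?_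
  rw [← Real.exp_nat_mul, show ((5 : ℕ) : ℝ) * (16 / 5) = (16 : ℕ) * 1 by norm_num,
    Real.exp_nat_mul]
  exact (pow_le_pow_left₀ (Real.exp_pos 1).le Real.exp_one_lt_d9.le 16).trans (by norm_num)

theorem neg_log_le {x : ℝ} (h0 : 0 ≤ x) (h : x ≤ 1 / 2) :
    -Real.log (1 - x) ≤ x + x ^ 2 / 2 + x ^ 3 / 3 + x ^ 4 / 4 + x ^ 5 / 2 := by
  have a := (abs_le.1 (Real.abs_log_sub_add_sum_range_le (x := x)
    (by rw [abs_of_nonneg h0]; linarith) 8)).1
  rw [abs_of_nonneg h0] at a
  have b : x ^ (8 + 1) / (1 - x) ≤ x ^ (8 + 1) / (1 / 2) :=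
    div_le_div_of_nonneg_left (by positivity) (by norm_num) (by linarith)
  simp only [sum_range_succ, sum_range_zero] at a
  norm_num at a b
  have p : ∀ n : ℕ, x ^ (n + 1) ≤ x ^ n / 2 := fun n => by
    rw [pow_succ]
    nlinarith [pow_nonneg h0 n]
  have p5 := p 5
  have p6 := p 6
  have p7 := p 7
  have p8 := p 8
  have := pow_nonneg h0 5
  norm_num at p5 p6 p7 p8
  linarith

theorem exp_ge8 {v : ℝ} (h0 : 0 ≤ v) : 1 + v + v ^ 2 / 2 + v ^ 3 / 6 + v ^ 4 / 24 + v ^ 5 / 120 +
    v ^ 6 / 720 + v ^ 7 / 5040 ≤ Real.exp v := by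
  have := Real.sum_le_exp_of_nonneg h0 8
  simp only [sum_range_succ, sum_range_zero, Nat.factorial] at this
  norm_num at this
  linarith

theorem super_mid {v g : ℝ} (h0 : 0 ≤ v) (h2 : v ≤ 2)
    (hg : g = Real.log (77 / 25 / (77 / 25 - v))) :
    1001 / 1000 * (3 / 10000 * (102 / 25 - v) + 10001 / 10000 * (741 / 200 * g - v + 625 / 4928)) ≤
      (102 / 25 - v) * Real.exp (8 / 5 * v) / (2454 / 100) := by
  have e := mul_le_mul_of_nonneg_left (exp_ge8 (v := 8 / 5 * v) (by positivity))
    (show 0 ≤ 102 / 25 - v by linarith)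
  by_cases h : v ≤ 77 / 50
  · obtain ⟨x, rfl⟩ : ∃ x, v = 77 / 25 * x := ⟨25 / 77 * v, by ring⟩
    have x0 : 0 ≤ x := by linarith
    have x1 : 0 ≤ 1 / 2 - x := by linarith
    have a := neg_log_le x0 (by linarith)
    have b : g = -Real.log (1 - x) := by
      rw [hg, ← Real.log_inv]
      congr 1
      have : 1 - x ≠ 0 := by linarith
      rw [show 77 / 25 - 77 / 25 * x = 77 / 25 * (1 - x) by ring]
      field_simp
    have c : ∀ i j : ℕ, 0 ≤ x ^ i * (1 / 2 - x) ^ j := fun i j => by positivity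
    linarith [c 0 8, c 1 7, c 2 6, c 3 5, c 4 4, c 5 3, c 6 2, c 7 1, c 8 0]
  · obtain ⟨x, rfl⟩ : ∃ x, v = 77 / 50 + 77 / 50 * x := ⟨50 / 77 * v - 1, by ring⟩
    have x0 : 0 ≤ x := by linarith
    have x1 : 0 ≤ 3 / 10 - x := by linarith
    have a := neg_log_le x0 (by linarith)
    have b : g = Real.log 2 - Real.log (1 - x) := by
      have : 1 - x ≠ 0 := by linarith
      rw [hg, ← Real.log_div (by norm_num) this]
      congr 1
      rw [show 77 / 25 - (77 / 50 + 77 / 50 * x) = 77 / 50 * (1 - x) by ring]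
      field_simp
      norm_num
    have c : ∀ i j : ℕ, 0 ≤ x ^ i * (3 / 10 - x) ^ j := fun i j => by positivity
    linarith [c 0 8, c 1 7, c 2 6, c 3 5, c 4 4, c 5 3, c 6 2, c 7 1, c 8 0, Real.log_two_lt_d9]

theorem super_lo {s : ℝ} (hs : 52 / 25 ≤ s) :
    1001 / 1000 * (1 / 10000 * ap (s - 1) + 10001 / 10000 * Ip (s - 1) / s) ≤
      Real.exp (-(8 / 5) * (s - 52 / 25)) := by
  have hs0 : 0 < s := by linarith
  have hE := exp_num
  have hE0 := Real.exp_pos (16 / 5)
  unfold ap Ip
  split_ifs with h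
  · have a := super_mid (v := 102 / 25 - s) (by linarith) (by linarith) rfl
    rw [show 77 / 25 - (102 / 25 - s) = s - 1 by ring, show 102 / 25 - (102 / 25 - s) = s by ring]
      at a
    have b : (741 / 200 - (s - 1)) / (s - 1) ≤ 3 :=
      (ap_low (t' := 27 / 25) (by norm_num) (by linarith)).trans (by norm_num)
    have e : Real.exp (-(8 / 5) * (s - 52 / 25)) =
        Real.exp (8 / 5 * (102 / 25 - s)) / Real.exp (16 / 5) := by
      rw [← Real.exp_sub]
      congr 1
      ring
    have c : Real.exp (8 / 5 * (102 / 25 - s)) / (2454 / 100) ≤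
        Real.exp (8 / 5 * (102 / 25 - s)) / Real.exp (16 / 5) :=
      div_le_div_of_nonneg_left (Real.exp_pos _).le hE0 hE
    rw [e]
    refine le_trans ?_ c
    refine le_of_mul_le_mul_left ?_ hs0
    rw [mul_div_assoc] at a
    refine le_trans ?_ a
    have d := mul_le_mul_of_nonneg_left b hs0.le
    have f : ∀ u : ℝ, s * (u / s) = u := fun u => by field_simp
    have := f (10001 / 10000 * (741 / 200 * Real.log (77 / 25 / (s - 1)) - (77 / 25 - (s - 1)) +
      625 / 4928))
    linarith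
  · have e : Real.exp (-(8 / 5) * (s - 1 - 77 / 25)) =
        Real.exp (-(8 / 5) * (s - 52 / 25)) * Real.exp (16 / 5) := by
      rw [← Real.exp_add]
      congr 1
      ring
    have a := Real.exp_pos (-(8 / 5) * (s - 52 / 25))
    have b : 10001 / 10000 * (Real.exp (-(8 / 5) * (s - 1 - 77 / 25)) * (625 / 4928)) / s ≤
        10001 / 10000 * (Real.exp (-(8 / 5) * (s - 1 - 77 / 25)) * (625 / 4928)) / (102 / 25) :=
      div_le_div_of_nonneg_left (by positivity) (by norm_num) (by linarith)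
    have c := mul_le_mul_of_nonneg_left hE a.le
    rw [e] at b ⊢
    linarith

end

end Pool.Agent.MP_c7a479_co.Ex

end

section

/-! One level of the recursion, in odd and in even characteristic. -/

namespace Pool.Agent.MP_c7a479_co.Ex

open Finset
open scoped Classical

/-- `a` heavy layers and `b` single new symbols, with private layers along a Sidon set. -/
theorem itd_layers3 {K : Type} [Field K] [Fintype K] {k₀ k t a b S : ℕ} (hk₀ : k = k₀ + 2)
    {h : Fin k → K}
    (hh : Function.Injective h) (hap : ∀ i j l, h i + h j = 2 * h l → i = j) 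
    (hq : 8 * k + 1 < Fintype.card K) (ht : t ≠ 0) (r : Fin k → ℕ)
    (hu : ∀ i j, i ≠ j → IsUnit ((r i : ZMod t) - r j)) (hr : ∀ i j, r i + r j < S)
    (hsid : ∀ i j p q, i < j → p < q → r i + r j = r p + r q → i = p ∧ j = q)
    (hab : b * S + a ≤ t) :
    Itd (Fin k) (Fin (Fintype.card K ^ 2 * t)) (Fin ((Fintype.card K - 1) * a + b)) := by
  have : NeZero t := ⟨ht⟩
  have hk : 1 ≤ k := by omega
  have hheavy : Cov k (K × K) (Fintype.card K - 1)
      (Fintype.card (K × K) - k + 2 * (Fintype.card K - 1)) (Free2 h) := by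
    subst hk₀
    exact cov_heavy2 (by omega) hh
  have hS0 : 0 < S := (Nat.zero_le _).trans_lt (hr ⟨0, hk⟩ ⟨0, hk⟩)
  have hV : k ≤ Fintype.card (K × K) := by
    simp only [Fintype.card_prod]
    exact le_trans (by omega) (Nat.le_mul_of_pos_right _ (by positivity))
  let u : ℕ → ℕ := fun v => if b * S ≤ v ∧ v < b * S + a then Fintype.card K - 1 else 0
  let u' : ℕ → ℕ := fun v => if S ∣ v ∧ v < b * S then 1 else 0
  have main := asm (V := K × K) (R := ZMod t) (fun i : Fin k => (r i : ZMod t))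
    (fun i => (r i : ZMod t) ^ 2) (fun i j => ((r i + r j : ℕ) : ZMod t)) hu
    (fun i j => by push_cast; ring)
    (fun ρ => u ρ.val) (fun ρ => u' ρ.val)
    (fun ρ => Fintype.card (K × K) - k + 2 * u ρ.val) (fun ρ => k + 2 * u' ρ.val)
    (fun ρ i j g => if ρ.val < b * S ∧ ρ.val % S = r i + r j then Spec2 h i j g else Free2 h i j g)
    (fun ρ i j g => if S ∣ ρ.val ∧ ρ.val < b * S then Base2 h i j g else ¬ Free2 h i j g)
    (fun ρ => by
      by_cases h1 : ρ.val < b * S
      · have e : u ρ.val = 0 := if_neg (by omega)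
        rw [e]
        by_cases h2 : ∃ p q : Fin k, p < q ∧ ρ.val % S = r p + r q
        · obtain ⟨p, q, hpq, h2⟩ := h2
          refine (cov_priv2 (by omega) hh hap hpq).mono fun i j hij g hg => ?_
          by_cases h3 : i = p ∧ j = q
          · rw [if_pos h3]
            rwa [if_pos ⟨h1, by rw [h2, h3.1, h3.2]⟩] at hg
          · rw [if_neg h3]
            rwa [if_neg fun e => h3 (hsid _ _ _ _ hij hpq (e.2.symm.trans h2))] at hg
        · refine (cov_free2 hh).mono fun i j hij g hg => ?_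
          rwa [if_neg fun e => h2 ⟨i, j, hij, e.2⟩] at hg
      · by_cases h2 : ρ.val < b * S + a
        · have e : u ρ.val = Fintype.card K - 1 := if_pos ⟨by omega, h2⟩
          rw [e]
          exact (hheavy).mono fun i j _ g hg => by rwa [if_neg fun e => h1 e.1] at hg
        · have e : u ρ.val = 0 := if_neg fun e => h2 e.2
          rw [e]
          exact (cov_free2 hh).mono fun i j _ g hg => by rwa [if_neg fun e => h1 e.1] at hg)
    (fun ρ => by
      by_cases h1 : S ∣ ρ.val ∧ ρ.val < b * S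
      · have e : u' ρ.val = 1 := if_pos h1
        rw [e]
        exact cov_base2.mono fun i j _ g hg => by rwa [if_pos h1] at hg
      · have e : u' ρ.val = 0 := if_neg h1
        rw [e]
        exact cov_hub2.mono fun i j _ g hg => by rwa [if_neg h1] at hg)
    (fun ρ => by omega)
    (fun i j _ ρ g => by
      have hb : r i + r j < S := hr i j
      by_cases h1 : S ∣ ρ.val ∧ ρ.val < b * S
      · obtain ⟨⟨c, hc⟩, h2⟩ := id h1
        have h3 : c + 1 ≤ b := by
          rw [hc, mul_comm] at h2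
          exact Nat.lt_of_mul_lt_mul_right h2
        have h4 : S * c + S ≤ b * S := by nlinarith
        have h5 : (ρ + ((r i + r j : ℕ) : ZMod t)).val = S * c + (r i + r j) := by
          rw [← ZMod.natCast_zmod_val ρ, ← Nat.cast_add, ZMod.val_natCast_of_lt (by omega), hc]
        rw [if_pos h1, if_pos ⟨by omega, by rw [h5, Nat.mul_add_mod, Nat.mod_eq_of_lt hb]⟩]
        exact spec_or_base2 h i j g
      · rw [if_neg h1, if_neg]
        · exact em _
        rintro ⟨h2, h3⟩
        have h4 := Nat.div_add_mod (ρ + ((r i + r j : ℕ) : ZMod t)).val S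
        set c := (ρ + ((r i + r j : ℕ) : ZMod t)).val / S
        have h5 : ρ = ((S * c : ℕ) : ZMod t) := by
          have := ZMod.natCast_zmod_val (ρ + ((r i + r j : ℕ) : ZMod t))
          rw [← h4, h3, Nat.cast_add (S * c)] at this
          exact (add_right_cancel this).symm
        have h6 : ρ.val = S * c := by rw [h5, ZMod.val_natCast_of_lt (by omega)]
        exact h1 ⟨⟨c, h6⟩, by omega⟩)
  refine main.itd.of_card (by simp only [Fintype.card_prod, ZMod.card, Fintype.card_fin]; ring) ?_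
  simp only [Fintype.card_sum, Fintype.card_sigma, Fintype.card_fin]
  rw [sum_val u, sum_val u']
  congr 1
  · rw [← sum_filter, sum_const, smul_eq_mul, mul_comm]
    congr 1
    rw [show filter (fun v => b * S ≤ v ∧ v < b * S + a) (range t) = Ico (b * S) (b * S + a) by
      ext v
      simp only [mem_filter, mem_range, mem_Ico]
      omega]
    simp
  · rw [← sum_filter, sum_const, smul_eq_mul, mul_one,
      show filter (fun v => S ∣ v ∧ v < b * S) (range t) = (range b).image (· * S) by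
        ext v
        simp only [mem_filter, mem_range, mem_image]
        constructor
        · rintro ⟨-, ⟨c, rfl⟩, h2⟩
          rw [mul_comm] at h2
          exact ⟨c, Nat.lt_of_mul_lt_mul_right h2, mul_comm _ _⟩
        · rintro ⟨c, h1, rfl⟩
          have := Nat.mul_lt_mul_of_pos_right h1 hS0
          exact ⟨by omega, dvd_mul_left _ _, this⟩,
      card_image_of_injective _ (mul_left_injective₀ hS0.ne'), card_range]

theorem sq_sidon {p i j a b : ℕ} (hp : p.Prime) (hi : i + j < p) (h1 : i + j = a + b)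
    (h2 : i ^ 2 % p + j ^ 2 % p = a ^ 2 % p + b ^ 2 % p) (h3 : p ≠ 2) : i = a ∨ i = b := by
  have := Fact.mk hp
  have e1 : (i : ZMod p) + j = a + b := by exact_mod_cast congrArg (Nat.cast : ℕ → ZMod p) h1
  have e2 : (i : ZMod p) ^ 2 + j ^ 2 = a ^ 2 + b ^ 2 := by
    have := congrArg (Nat.cast : ℕ → ZMod p) h2
    simpa only [Nat.cast_add, ZMod.natCast_mod, Nat.cast_pow] using this
  have e3 : (2 : ZMod p) ≠ 0 := fun e => h3 ((Nat.prime_dvd_prime_iff_eq hp Nat.prime_two).1
    ((ZMod.natCast_eq_zero_iff 2 p).1 (by simpa using e)))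
  have e4 : (2 : ZMod p) * (((i : ZMod p) - a) * (i - b)) = 0 := by
    linear_combination e2 + (i - j - a - b : ZMod p) * e1
  rcases mul_eq_zero.1 ((mul_eq_zero.1 e4).resolve_left e3) with e | e
  · rw [sub_eq_zero, ZMod.natCast_eq_natCast_iff', Nat.mod_eq_of_lt (by omega),
      Nat.mod_eq_of_lt (by omega)] at e
    exact Or.inl e
  · rw [sub_eq_zero, ZMod.natCast_eq_natCast_iff', Nat.mod_eq_of_lt (by omega),
      Nat.mod_eq_of_lt (by omega)] at e
    exact Or.inr e

theorem sidon {k t : ℕ} (hk : 1 ≤ k) (hp : ∀ p : ℕ, p.Prime → p ∣ t → 20 * k < p)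
    (hc : #t.primeFactors ≤ 5) (ht : t ≠ 0) : ∃ r : Fin k → ℕ,
    (∀ i j, i ≠ j → IsUnit ((r i : ZMod t) - r j)) ∧ (∀ i j, r i + r j < 400 * k ^ 2) ∧
    ∀ i j p q, i < j → p < q → r i + r j = r p + r q → i = p ∧ j = q := by
  obtain ⟨π, hπ, π1, π2⟩ := Nat.exists_prime_lt_and_le_two_mul (4 * k) (by omega)
  let ρ : ℕ → ℕ → ℕ := fun M i => i + M * (i ^ 2 % π)
  let T := (range (2 * k) ×ˢ range (2 * k)) ×ˢ t.primeFactors
  let E : ℕ → (ℕ × ℕ) × ℕ → Prop := fun M x =>
    x.1.1 < x.1.2 ∧ (x.2 : ℤ) ∣ (ρ M x.1.2 : ℤ) - ρ M x.1.1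
  have h1 : ∑ M ∈ Ico (4 * k) (24 * k), #{x ∈ T | E M x} ≤ ∑ _M ∈ Ico (4 * k) (24 * k), k := by
    simp only [card_filter]
    rw [sum_comm]
    refine (sum_le_card_nsmul _ _ 1 fun x hx => ?_).trans ?_
    · rw [← card_filter]
      refine card_le_one.2 fun M hM M' hM' => ?_
      obtain ⟨⟨i, j⟩, p⟩ := x
      simp only [T, E, ρ, mem_product, mem_range, mem_filter, mem_Ico, Nat.mem_primeFactors]
        at hx hM hM'
      have k1 := hp p hx.2.1 hx.2.2.1
      have k2 := dvd_sub hM.2.2 hM'.2.2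
      push_cast at k2 hM
      rw [show ∀ x y : ℤ, (j : ℤ) + M * x - (i + M * y) - (j + M' * x - (i + M' * y)) =
        (M - M') * (x - y) from fun x y => by ring] at k2
      rcases (Nat.prime_iff_prime_int.1 hx.2.1).dvd_or_dvd k2 with e | e
      · have := Int.eq_zero_of_abs_lt_dvd e (abs_lt.2 (by omega))
        omega
      · have k3 := dvd_sub hM.2.2 (e.mul_left M)
        rw [show ∀ x y : ℤ, (j : ℤ) + M * x - (i + M * y) - M * (x - y) = j - i from
          fun x y => by ring] at k3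
        have := Int.eq_zero_of_abs_lt_dvd k3 (abs_lt.2 (by omega))
        omega
    · simp only [T, card_product, card_range, smul_eq_mul, mul_one, sum_const, Nat.card_Ico]
      rw [show 24 * k - 4 * k = 20 * k by omega]
      nlinarith
  obtain ⟨M, hM, h2⟩ := exists_le_of_sum_le (nonempty_Ico.2 (by omega)) h1
  rw [mem_Ico] at hM
  have h3 : k ≤ #(range (2 * k) \ ({x ∈ T | E M x}.image fun x => x.1.2)) := by
    have a := le_card_sdiff ({x ∈ T | E M x}.image fun x => x.1.2) (range (2 * k))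
    have b := card_image_le (s := {x ∈ T | E M x}) (f := fun x => x.1.2)
    rw [card_range] at a
    omega
  let g := orderEmbOfCardLe _ h3
  have g1 : ∀ i, g i < 2 * k ∧ g i ∉ {x ∈ T | E M x}.image fun x => x.1.2 := fun i => by
    have := mem_sdiff.1 (orderEmbOfCardLe_mem _ h3 i)
    exact ⟨mem_range.1 this.1, this.2⟩
  have un : ∀ i j, i < j → IsUnit ((ρ M (g j) : ZMod t) - ρ M (g i)) := fun i j hij => by
    have e : ((ρ M (g j) : ZMod t) - ρ M (g i)) = (((ρ M (g j) : ℤ) - ρ M (g i) : ℤ) : ZMod t) := by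
      simp only [Int.cast_sub, Int.cast_natCast]
    rw [e, ZMod.coe_int_isUnit_iff_isCoprime]
    refine Int.isCoprime_iff_gcd_eq_one.2 (Nat.coprime_of_dvd fun p hp' k1 k2 => (g1 j).2 ?_)
    refine mem_image.2 ⟨((g i, g j), p), mem_filter.2 ⟨?_, g.strictMono hij,
      Int.natCast_dvd.2 k2⟩, rfl⟩
    simp only [T, mem_product, mem_range, Nat.mem_primeFactors]
    exact ⟨⟨(g1 i).1, (g1 j).1⟩, hp', by simpa using k1, ht⟩
  refine ⟨fun i => ρ M (g i), fun i j hij => ?_, fun i j => ?_, fun i j p q hij hpq e => ?_⟩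
  · rcases lt_or_gt_of_ne hij with e | e
    · exact neg_sub (ρ M (g j) : ZMod t) _ ▸ (un i j e).neg
    · exact un j i e
  · have b : ∀ i, ρ M (g i) < 200 * k ^ 2 := fun i => by
      have a1 := (g1 i).1
      have a2 : M * (g i ^ 2 % π) ≤ 24 * k * (8 * k) :=
        Nat.mul_le_mul hM.2.le ((Nat.mod_lt _ hπ.pos).le.trans (by omega))
      simp only [ρ]
      nlinarith
    have := b i
    have := b j
    beta_reduce
    omega
  · have e' : g i + g j + M * (g i ^ 2 % π + g j ^ 2 % π) =
        g p + g q + M * (g p ^ 2 % π + g q ^ 2 % π) := by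
      simp only [ρ] at e
      rw [mul_add, mul_add]
      omega
    have a1 := (g1 i).1
    have a2 := (g1 j).1
    have a3 := (g1 p).1
    have a4 := (g1 q).1
    have e1 : g i + g j = g p + g q := by
      have := congrArg (· % M) e'
      simp only [Nat.add_mul_mod_self_left] at this
      rwa [Nat.mod_eq_of_lt (by omega), Nat.mod_eq_of_lt (by omega)] at this
    rw [e1] at e'
    have b1 := g.strictMono hij
    have b2 := g.strictMono hpq
    rcases sq_sidon hπ (by omega) e1
      (Nat.eq_of_mul_eq_mul_left (by omega) (Nat.add_left_cancel e')) (by omega) with e2 | e2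
    · exact ⟨g.injective e2, g.injective (by omega)⟩
    · omega

theorem lev_even {k y : ℕ} (hy : 20 * (k + 2) ≤ y) : ∃ q : ℕ, y < q ∧ q ≤ 2 * y ∧
    (∃ e, 1 ≤ e ∧ q = 2 ^ e) ∧ ∀ t U : ℕ, t ≠ 0 → (∀ p : ℕ, p.Prime → p ∣ t → 20 * (k + 2) < p) →
    #t.primeFactors ≤ 5 → U % (q - 1) * (400 * (k + 2) ^ 2) + U / (q - 1) ≤ t →
    Td (Fin (k + 2)) (Fin U) → Td (Fin (k + 2)) (Fin (q ^ 2 * t + U)) := by
  obtain ⟨n, h1, h2⟩ : ∃ n, 2 ^ n ≤ y ∧ y < 2 ^ (n + 1) :=
    ⟨_, Nat.pow_log_le_self 2 (by omega), Nat.lt_pow_succ_log_self one_lt_two _⟩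
  obtain ⟨K, _, _, _, hK⟩ := field_of_pow Nat.prime_two (e := n + 1) (by omega)
  obtain ⟨a⟩ : Nonempty (Fin (k + 2) ↪ K) :=
    Function.Embedding.nonempty_of_card_le (by rw [hK, Fintype.card_fin]; omega)
  refine ⟨2 ^ (n + 1), h2, by rw [pow_succ]; omega, ⟨n + 1, by omega, rfl⟩,
    fun t U ht hp hc hU hT => ?_⟩
  obtain ⟨r, r1, r2, r3⟩ := sidon (k := k + 2) (by omega) hp hc ht
  rw [← hK] at hU ⊢
  have hI := itd_layers3 rfl a.injective (fun i j l h => by
    rw [two_mul, CharTwo.add_self_eq_zero, CharTwo.add_eq_zero] at h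
    exact a.injective h) (by omega) ht r r1 r2 r3 hU
  rw [Nat.div_add_mod] at hI
  exact (hI.fill hT).of_card (by simp)

theorem lev_odd {k q t U : ℕ} (hq : q.Prime) (hk : k + 3 ≤ q) (ht : t ≠ 0)
    (hp : ∀ p : ℕ, p.Prime → p ∣ t → k + 2 ≤ p) (h1 : q ^ 2 ≤ U) (h2 : U ≤ (q - 1) * t)
    (hU : Td (Fin (k + 2)) (Fin U)) : Td (Fin (k + 2)) (Fin (q ^ 2 * t + U)) := by
  obtain ⟨s, rfl⟩ : ∃ s, q = s + 1 := ⟨q - 1, by omega⟩
  rw [Nat.add_sub_cancel] at h2
  have s0 : 0 < s := by omega
  have e1 := Nat.div_add_mod U s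
  have e2 := Nat.mod_lt U s0
  have e3 : s ≤ U / s := (Nat.le_div_iff_mul_le s0).2 (by nlinarith)
  have e4 : U / s ≤ t := Nat.div_le_of_le_mul h2
  obtain ⟨a, ha⟩ : ∃ a, U / s = a + U % s := ⟨U / s - U % s, by omega⟩
  have hI := itd_rec (k := k) (e := 1) (a := a) (b := U % s) hq one_ne_zero
    (by rw [pow_one]; omega) (fun _ => by rwa [pow_one]) (fun _ => ⟨by omega, by omega⟩)
    (by omega) (td_rough' (k := k + 1) ht hp)
  rw [pow_one, Nat.add_sub_cancel, show s * a + (s + 1) * (U % s) = U by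
    rw [ha] at e1; linarith] at hI
  exact (hI.fill hU).of_card (by simp)

end Pool.Agent.MP_c7a479_co.Ex

end
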