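import Pool.Agent.Mg.Fc7a479.Gd25afc
import Pool.Agent.Mg.Fc7a479a.Gdd01be
import Pool.Agent.MP_c903c4_nt.Four

set_option linter.all false

section

/-! The combinatorial sieve of Rosser and Iwaniec and its expansion in centred local factors. -/

namespace Pool.Agent.MP_c7a479_co.Ex

open Finset
open scoped Classical

noncomputable section

/-- The weight `1 / (p - 1)`. -/
def h1 (p : ℕ) : ℝ := 1 / ((p : ℝ) - 1)

/-- The multiplicative extension of `h1`. -/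
def H1 (R : Finset ℕ) : ℝ := ∏ p ∈ R, h1 p

/-- The centred local factor. -/
def ps (p : ℕ) (s : ℤ) : ℝ := if (p : ℤ) ∣ s then -1 else h1 p

/-- Products of local factors. -/
def Ps (Q : Finset ℕ) (s : ℤ) : ℝ := ∏ p ∈ Q, ps p s

/-- The indicator of divisibility. -/
def dv (s : ℤ) (p : ℕ) : ℝ := if (p : ℤ) ∣ s then 1 else 0

/-- The elements of `P` below `z`. -/
def Pz (P : Finset ℕ) (z : ℕ) : Finset ℕ := P.filter fun p => p < z

/-- The product to be approximated. -/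
def VV (P : Finset ℕ) (x : ℕ → ℝ) (z : ℕ) : ℝ := ∏ p ∈ Pz P z, (1 - x p)

/-- Upper (`true`) and lower (`false`) sieve with logarithmic level `L`. -/
def sv (β : ℝ) (P : Finset ℕ) (x : ℕ → ℝ) : ℕ → Bool → ℝ → ℝ
  | 0, _, _ => 1
  | z + 1, b, L => sv β P x z b L -
      if z ∈ P ∧ (b = true → (β + 1) * Real.log z < L) then
        x z * sv β P x z (!b) (L - Real.log z) else 0

theorem h1_pos {p : ℕ} (hp : 2 ≤ p) : 0 < h1 p := by
  have : (2 : ℝ) ≤ p := by exact_mod_cast hp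
  exact div_pos one_pos (by linarith)

theorem H1_nonneg {R : Finset ℕ} (h : ∀ p ∈ R, 2 ≤ p) : 0 ≤ H1 R :=
  prod_nonneg fun p hp => (h1_pos (h p hp)).le

theorem h1_le_hh {p : ℕ} (hp : 3 ≤ p) : 2 * h1 p ≤ hh p := by
  have : (3 : ℝ) ≤ p := by exact_mod_cast hp
  rw [h1, hh, om, if_neg (by omega), mul_one_div]
  exact div_le_div_of_nonneg_left (by norm_num) (by linarith) (by linarith)

theorem dv_eq {p : ℕ} (hp : 2 ≤ p) (s : ℤ) : dv s p = 1 / p - (1 - 1 / p) * ps p s := by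
  have : (2 : ℝ) ≤ p := by exact_mod_cast hp
  have h : (p : ℝ) - 1 ≠ 0 := by linarith
  unfold dv ps h1
  split_ifs
  · ring
  · field_simp
    ring

theorem Pz_zero (P : Finset ℕ) : Pz P 0 = ∅ := by simp [Pz]

theorem mem_Pz {P : Finset ℕ} {z p : ℕ} : p ∈ Pz P z ↔ p ∈ P ∧ p < z := mem_filter

theorem not_mem_Pz (P : Finset ℕ) (z : ℕ) : z ∉ Pz P z := by simp [Pz]

theorem Pz_succ {P : Finset ℕ} {z : ℕ} (h : z ∈ P) : Pz P (z + 1) = insert z (Pz P z) := by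
  ext p
  simp only [mem_Pz, mem_insert]
  constructor
  · rintro ⟨h1, h2⟩
    rcases Nat.lt_succ_iff_lt_or_eq.1 h2 with e | e
    · exact Or.inr ⟨h1, e⟩
    · exact Or.inl e
  · rintro (rfl | ⟨h1, h2⟩)
    · exact ⟨h, by omega⟩
    · exact ⟨h1, by omega⟩

theorem Pz_succ' {P : Finset ℕ} {z : ℕ} (h : z ∉ P) : Pz P (z + 1) = Pz P z := by
  ext p
  simp only [mem_Pz]
  refine ⟨fun ⟨h1, h2⟩ => ⟨h1, ?_⟩, fun ⟨h1, h2⟩ => ⟨h1, by omega⟩⟩
  rcases Nat.lt_succ_iff_lt_or_eq.1 h2 with e | e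
  · exact e
  · exact absurd (e ▸ h1) h

theorem VV_succ (P : Finset ℕ) (x : ℕ → ℝ) (z : ℕ) :
    VV P x (z + 1) = VV P x z - if z ∈ P then x z * VV P x z else 0 := by
  unfold VV
  split_ifs with h
  · rw [Pz_succ h, prod_insert (not_mem_Pz P z)]
    ring
  · rw [Pz_succ' h, sub_zero]

theorem VV_nonneg (P : Finset ℕ) {x : ℕ → ℝ} (hx : ∀ p, x p ≤ 1) (z : ℕ) : 0 ≤ VV P x z :=
  prod_nonneg fun p _ => sub_nonneg.2 (hx p)

theorem sv_bounds (β : ℝ) (P : Finset ℕ) {x : ℕ → ℝ} (h0 : ∀ p, 0 ≤ x p) (hx : ∀ p, x p ≤ 1)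
    (z : ℕ) : ∀ L, sv β P x z false L ≤ VV P x z ∧ VV P x z ≤ sv β P x z true L := by
  induction z with
  | zero => intro L; simp [sv, VV, Pz_zero]
  | succ z ih =>
    intro L
    have a1 := ih L
    have a2 := ih (L - Real.log z)
    have a3 := mul_le_mul_of_nonneg_left a2.1 (h0 z)
    have a4 := mul_le_mul_of_nonneg_left a2.2 (h0 z)
    have a5 := mul_nonneg (h0 z) (VV_nonneg P hx z)
    simp only [sv, VV_succ, Bool.false_eq_true, false_imp_iff, and_true, Bool.not_false,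
      Bool.not_true, true_imp_iff]
    by_cases h : z ∈ P
    · simp only [h, if_true, true_and]
      refine ⟨by linarith [a1.1], ?_⟩
      split_ifs <;> linarith [a1.2]
    · simpa [h] using a1

theorem LL_insert {R : Finset ℕ} {p : ℕ} (h : p ∉ R) : LL (insert p R) = Real.log p + LL R := by
  unfold LL
  rw [sum_insert h]

theorem sv_exp {β : ℝ} (hβ : 1 ≤ β) {P : Finset ℕ} (hP : ∀ p ∈ P, 2 ≤ p) (z : ℕ) :
    ∀ b L, 0 ≤ L → (b = false → ∀ p ∈ Pz P z, Real.log p ≤ L) → ∃ f : Finset ℕ → ℝ,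
      (∀ s : ℤ, sv β P (dv s) z b L = ∑ Q ∈ (Pz P z).powerset, f Q * Ps Q s) ∧
      f ∅ = sv β P (fun p => 1 / p) z b L ∧
      (∀ Q, |f Q| ≤ ∏ p ∈ Pz P z, (1 + 1 / (p : ℝ))) ∧ ∀ Q, L < LL Q → f Q = 0 := by
  induction z with
  | zero =>
    intro b L hL _
    refine ⟨fun Q => if Q = ∅ then 1 else 0, fun s => by simp [sv, Pz_zero, Ps], by simp [sv],
      fun Q => ?_, fun Q hQ => if_neg ?_⟩
    · rw [Pz_zero, prod_empty]
      beta_reduce
      split_ifs <;> simp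
    · rintro rfl
      simp only [LL, sum_empty] at hQ
      linarith
  | succ z ih =>
    intro b L hL hb
    obtain ⟨f, f1, f2, f3, f4⟩ := ih b L hL fun e p hp =>
      hb e p (mem_Pz.2 ⟨(mem_Pz.1 hp).1, (mem_Pz.1 hp).2.trans (Nat.lt_succ_self z)⟩)
    have hz0 : 0 ≤ Real.log z := Real.log_natCast_nonneg z
    have hM : 0 ≤ ∏ p ∈ Pz P z, (1 + 1 / (p : ℝ)) := (abs_nonneg _).trans (f3 ∅)
    have hi : (0 : ℝ) ≤ 1 / z := by positivity
    by_cases hz : z ∈ P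
    swap
    · exact ⟨f, fun s => by simp [sv, hz, Pz_succ' hz, f1], by simp [sv, hz, f2],
        by rwa [Pz_succ' hz], f4⟩
    have hn := not_mem_Pz P z
    have hsub : ∀ Q ∈ (Pz P z).powerset, z ∉ Q := fun Q hQ h => hn (mem_powerset.1 hQ h)
    rw [Pz_succ hz, prod_insert hn]
    by_cases hc : b = true → (β + 1) * Real.log z < L
    swap
    · refine ⟨fun Q => if z ∈ Q then 0 else f Q, fun s => ?_, by simp [sv, hc, f2], fun Q => ?_,
        fun Q hQ => by simp [f4 Q hQ]⟩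
      · rw [sum_powerset_insert hn]
        simp only [sv, hc, and_false, if_false, sub_zero, f1, mem_insert_self, if_true, zero_mul,
          sum_const_zero, add_zero]
        exact sum_congr rfl fun Q hQ => by rw [if_neg (hsub Q hQ)]
      · have := f3 Q
        beta_reduce
        split_ifs
        · rw [abs_zero]
          positivity
        · nlinarith
    obtain ⟨g, g1, g2, g3, g4⟩ := ih (!b) (L - Real.log z) (by
      cases b
      · exact sub_nonneg.2 (hb rfl z (mem_Pz.2 ⟨hz, Nat.lt_succ_self z⟩))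
      · nlinarith [hc rfl]) fun e p hp => by
      have h1 := hc (by simpa using e)
      have h2 : Real.log p ≤ Real.log z := Real.log_le_log
        (by have := hP p (mem_Pz.1 hp).1; positivity) (by exact_mod_cast (mem_Pz.1 hp).2.le)
      nlinarith
    have h2 : (2 : ℝ) ≤ z := by exact_mod_cast hP z hz
    have hi1 : (1 : ℝ) / z ≤ 1 := by rw [div_le_one (by linarith)]; linarith
    refine ⟨fun Q => if z ∈ Q then (1 - 1 / z) * g (Q.erase z) else f Q - 1 / z * g Q,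
      fun s => ?_, by simp only [sv, if_pos (And.intro hz hc), notMem_empty, if_false, f2, g2],
      fun Q => ?_, fun Q hQ => ?_⟩
    · rw [sum_powerset_insert hn]
      simp only [sv, if_pos (And.intro hz hc), f1, g1, mem_insert_self, if_true, dv_eq (hP z hz),
        mul_sum, ← sum_sub_distrib, ← sum_add_distrib]
      refine sum_congr rfl fun Q hQ => ?_
      rw [if_neg (hsub Q hQ), erase_insert (hsub Q hQ)]
      simp only [Ps, prod_insert (hsub Q hQ)]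
      ring
    · beta_reduce
      split_ifs
      · rw [abs_mul, abs_of_nonneg (by linarith)]
        nlinarith [g3 (Q.erase z), abs_nonneg (g (Q.erase z))]
      · refine (abs_sub _ _).trans ?_
        rw [abs_mul, abs_of_nonneg hi]
        nlinarith [f3 Q, g3 Q]
    · beta_reduce
      split_ifs with h
      · rw [g4, mul_zero]
        have := LL_insert (notMem_erase z Q)
        rw [insert_erase h] at this
        linarith
      · rw [f4 Q hQ, g4 Q (by linarith), mul_zero, sub_zero]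

end

end Pool.Agent.MP_c7a479_co.Ex

end

section

/-! The mean values of the upper and lower sieve. -/

namespace Pool.Agent.MP_c7a479_co.Ex

open Finset
open scoped Classical

noncomputable section

/-- The density `1 / p`. -/
def iv (p : ℕ) : ℝ := 1 / p

/-- The one sided condition of dimension one with constant `10001 / 10000`. -/
def Om (P : Finset ℕ) : Prop :=
  ∀ p ∈ P, ∀ (z : ℕ) (l : ℝ), p < z → (∀ r ∈ Pz P z, Real.log r ≤ l) →
    VV P iv p * Real.log p ≤ 10001 / 10000 * l * VV P iv z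

theorem iv_nonneg (p : ℕ) : 0 ≤ iv p := by unfold iv; positivity

theorem iv_le_one (p : ℕ) : iv p ≤ 1 := by
  unfold iv
  rcases Nat.eq_zero_or_pos p with rfl | h
  · simp
  · rw [div_le_one (by exact_mod_cast h)]
    exact_mod_cast h

theorem sum_Pz_succ (P : Finset ℕ) (z : ℕ) (F : ℕ → ℝ) :
    ∑ p ∈ Pz P (z + 1), F p = ∑ p ∈ Pz P z, F p + if z ∈ P then F z else 0 := by
  split_ifs with h
  · rw [Pz_succ h, sum_insert (not_mem_Pz P z), add_comm]
  · rw [Pz_succ' h, add_zero]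

theorem Pz_mono {P : Finset ℕ} {z z' p : ℕ} (h : z ≤ z') (hp : p ∈ Pz P z) : p ∈ Pz P z' :=
  mem_Pz.2 ⟨(mem_Pz.1 hp).1, (mem_Pz.1 hp).2.trans_le h⟩

theorem log_le_of_mem {P : Finset ℕ} (hP : ∀ p ∈ P, 2 ≤ p) {z p : ℕ} (hp : p ∈ Pz P z) :
    0 < Real.log p ∧ Real.log p ≤ Real.log z := by
  have h : (2 : ℝ) ≤ p := by exact_mod_cast hP p (mem_Pz.1 hp).1
  exact ⟨Real.log_pos (by linarith),
    Real.log_le_log (by linarith) (by exact_mod_cast (mem_Pz.1 hp).2.le)⟩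

theorem abel_aux {P : Finset ℕ} (hP : ∀ p ∈ P, 2 ≤ p) {s L c : ℝ} {g I : ℝ → ℝ} (hL : 0 < L)
    (hc : 0 ≤ c) (hT : Tail s g I) (z : ℕ) :
    (∀ p ∈ Pz P z, VV P iv p * Real.log p ≤ c) → ∀ τ, 0 < τ → s ≤ L / τ →
    (∀ p ∈ Pz P z, Real.log p ≤ τ) → VV P iv z * τ ≤ c →
    ∑ p ∈ Pz P z, iv p * VV P iv p * g (L / Real.log p) + VV P iv z * g (L / τ) ≤
      c * (g (L / τ) / τ + I (L / τ) / L) := by
  induction z with
  | zero =>
    intro _ τ h0 hs _ h
    have a := hT.g0 _ hs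
    have b := mul_nonneg hc (div_nonneg (hT.I0 _ hs) hL.le)
    have d := mul_le_mul_of_nonneg_right h (div_nonneg a h0.le)
    rw [mul_assoc, mul_div_cancel₀ _ h0.ne'] at d
    rw [Pz_zero, sum_empty]
    linarith
  | succ z ih =>
    intro h1 τ h0 hs h2 h3
    by_cases hz : z ∈ P
    swap
    · rw [VV_succ, if_neg hz, sub_zero] at h3 ⊢
      rw [Pz_succ' hz] at h1 h2 ⊢
      exact ih h1 τ h0 hs h2 h3
    have hm : z ∈ Pz P (z + 1) := mem_Pz.2 ⟨hz, Nat.lt_succ_self z⟩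
    have l0 := (log_le_of_mem hP hm).1
    have l1 : L / τ ≤ L / Real.log z := div_le_div_of_nonneg_left hL.le l0 (h2 z hm)
    have a := ih (fun p hp => h1 p (Pz_mono (Nat.le_succ z) hp)) (Real.log z) l0 (hs.trans l1)
      (fun p hp => (log_le_of_mem hP hp).2) (h1 z hm)
    have b := sub_nonneg.2 (hT.anti _ _ hs l1)
    have d := mul_le_mul_of_nonneg_right h3 (div_nonneg b h0.le)
    rw [mul_assoc, mul_div_cancel₀ _ h0.ne'] at d
    have e := mul_le_mul_of_nonneg_left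
      (div_le_div_of_nonneg_right (hT.conv _ _ hs l1) hL.le) hc
    have f : g (L / Real.log z) * (L / Real.log z - L / τ) / L =
        g (L / Real.log z) / Real.log z - g (L / Real.log z) / τ := by
      field_simp
    rw [f, sub_div] at e
    rw [sub_div] at d
    rw [sum_Pz_succ, if_pos hz]
    rw [VV_succ, if_pos hz] at d ⊢
    linarith

theorem abel {P : Finset ℕ} (hP : ∀ p ∈ P, 2 ≤ p) (hO : Om P) {l L : ℝ} {g I : ℝ → ℝ}
    (hl : 0 < l) (hL : 0 < L) (hT : Tail (L / l) g I) {z : ℕ}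
    (h : ∀ p ∈ Pz P z, Real.log p ≤ l) :
    ∑ p ∈ Pz P z, iv p * VV P iv p * g (L / Real.log p) ≤
      VV P iv z * (1 / 10000 * g (L / l) + 10001 / 10000 * I (L / l) / (L / l)) := by
  have hV := VV_nonneg P iv_le_one z
  have a := abel_aux hP hL (c := 10001 / 10000 * l * VV P iv z) (by positivity) hT z
    (fun p hp => hO p (mem_Pz.1 hp).1 z l (mem_Pz.1 hp).2 h) l hl le_rfl h
    (by nlinarith [mul_nonneg hV hl.le])
  have e : 10001 / 10000 * l * VV P iv z * (g (L / l) / l + I (L / l) / L) =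
      VV P iv z * (10001 / 10000 * g (L / l) + 10001 / 10000 * I (L / l) / (L / l)) := by
    field_simp
  rw [e] at a
  linarith

theorem err_lo (β : ℝ) (P : Finset ℕ) (x : ℕ → ℝ) (L : ℝ) (z : ℕ) :
    VV P x z - sv β P x z false L =
      ∑ p ∈ Pz P z, x p * (sv β P x p true (L - Real.log p) - VV P x p) := by
  induction z with
  | zero => simp [sv, VV, Pz_zero]
  | succ z ih =>
    rw [sum_Pz_succ, ← ih, VV_succ]
    simp only [sv, Bool.false_eq_true, false_imp_iff, and_true, Bool.not_false]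
    split_ifs <;> ring

theorem err_up (β : ℝ) (P : Finset ℕ) (x : ℕ → ℝ) (L : ℝ) (z : ℕ) :
    sv β P x z true L - VV P x z = ∑ p ∈ Pz P z, x p * (if (β + 1) * Real.log p < L then
      VV P x p - sv β P x p false (L - Real.log p) else VV P x p) := by
  induction z with
  | zero => simp [sv, VV, Pz_zero]
  | succ z ih =>
    rw [sum_Pz_succ, ← ih, VV_succ]
    simp only [sv, true_imp_iff, Bool.not_true]
    by_cases h : z ∈ P
    · simp only [h, true_and, if_true]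
      split_ifs <;> ring
    · simp [h]

theorem sv_mean {P : Finset ℕ} (hP : ∀ p ∈ P, 2 ≤ p) (hO : Om P) (z : ℕ) :
    ∀ l L : ℝ, 0 < l → (∀ p ∈ Pz P z, Real.log p ≤ l) →
      (52 / 25 ≤ L / l → VV P iv z - sv (52 / 25) P iv z false L ≤
        VV P iv z * Real.exp (-(8 / 5) * (L / l - 52 / 25))) ∧
      (27 / 25 ≤ L / l → sv (52 / 25) P iv z true L - VV P iv z ≤
        VV P iv z * (1001 / 1000 * ap (L / l))) := by
  induction z using Nat.strong_induction_on with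
  | _ z ih =>
  intro l L hl h
  have hV := VV_nonneg P iv_le_one z
  have key : ∀ p ∈ Pz P z, 0 < L → L / l ≤ L / Real.log p ∧
      (L - Real.log p) / Real.log p = L / Real.log p - 1 := fun p hp hL => by
    have := (log_le_of_mem hP hp).1
    exact ⟨div_le_div_of_nonneg_left hL.le this (h p hp), by field_simp⟩
  constructor
  · intro hs
    have hL : 0 < L := (div_pos_iff_of_pos_right hl).1 (by linarith)
    have a := abel hP hO hl hL (tail_p (by linarith)) h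
    have b := mul_le_mul_of_nonneg_left (super_lo hs) hV
    rw [err_lo]
    refine le_trans (sum_le_sum (g := fun p => 1001 / 1000 * (iv p * VV P iv p *
      ap (L / Real.log p - 1))) fun p hp => ?_) ?_
    · obtain ⟨k1, k2⟩ := key p hp hL
      have := mul_le_mul_of_nonneg_left ((ih p (mem_Pz.1 hp).2 (Real.log p) (L - Real.log p)
        (log_le_of_mem hP hp).1 fun r hr => (log_le_of_mem hP hr).2).2 (by rw [k2]; linarith))
        (iv_nonneg p)
      rw [k2] at this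
      linarith
    · rw [← mul_sum]
      linarith
  · intro hs
    have hL : 0 < L := (div_pos_iff_of_pos_right hl).1 (by linarith)
    have a := abel hP hO hl hL (tail_m _) h
    have b := mul_le_mul_of_nonneg_left (super_up (s := L / l) (by linarith)) hV
    rw [err_up]
    refine le_trans (sum_le_sum fun p hp => ?_) (a.trans b)
    obtain ⟨k1, k2⟩ := key p hp hL
    have l0 := (log_le_of_mem hP hp).1
    rw [mul_assoc]
    refine mul_le_mul_of_nonneg_left ?_ (iv_nonneg p)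
    unfold gm
    by_cases hc : (52 / 25 + 1) * Real.log p < L
    · have hc' : 77 / 25 < L / Real.log p := by
        rw [lt_div_iff₀ l0]
        linarith
      rw [if_pos hc, if_neg (not_le.2 hc')]
      have := (ih p (mem_Pz.1 hp).2 (Real.log p) (L - Real.log p) l0
        fun r hr => (log_le_of_mem hP hr).2).1 (by rw [k2]; linarith)
      rwa [k2, show L / Real.log p - 1 - 52 / 25 = L / Real.log p - 77 / 25 by ring] at this
    · rw [if_neg hc, if_pos (by rw [div_le_iff₀ l0]; linarith), mul_one]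

end

end Pool.Agent.MP_c7a479_co.Ex

end

section

/-! Mertens type bounds for sets of large primes. -/

namespace Pool.Agent.MP_c7a479_co.Ex

open Finset
open scoped Classical

noncomputable section

/-- The reciprocal of the product of `1 - 1 / p`. -/
def MP (S : Finset ℕ) : ℝ := ∏ p ∈ S, (1 + h1 p)

theorem prod_mul_MP {S : Finset ℕ} (hS : ∀ p ∈ S, 2 ≤ p) : (∏ p ∈ S, (1 - iv p)) * MP S = 1 := by
  rw [MP, ← prod_mul_distrib]
  refine prod_eq_one fun p hp => ?_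
  have : (2 : ℝ) ≤ p := by exact_mod_cast hS p hp
  have h : (p : ℝ) - 1 ≠ 0 := by linarith
  unfold iv h1
  field_simp
  ring

theorem one_le_MP {S : Finset ℕ} (hS : ∀ p ∈ S, 2 ≤ p) : 1 ≤ MP S :=
  le_trans (by simp) (prod_le_prod (f := fun _ => (1 : ℝ)) (fun _ _ => zero_le_one)
    fun p hp => by linarith [h1_pos (hS p hp)])

theorem MP_mono {S T : Finset ℕ} (h : S ⊆ T) (hT : ∀ p ∈ T, 2 ≤ p) : MP S ≤ MP T := by
  have a := one_le_MP (S := T \ S) fun p hp => hT p (mem_sdiff.1 hp).1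
  have b := one_le_MP (S := S) fun p hp => hT p (h hp)
  have e : MP T = MP (T \ S) * MP S := (prod_sdiff h).symm
  nlinarith

theorem prod_inv_le_MP {S : Finset ℕ} (hS : ∀ p ∈ S, 2 ≤ p) :
    ∏ p ∈ S, (1 + 1 / (p : ℝ)) ≤ MP S :=
  prod_le_prod (fun p _ => by positivity) fun p hp => by
    have : (2 : ℝ) ≤ p := by exact_mod_cast hS p hp
    have := one_div_le_one_div_of_le (show 0 < (p : ℝ) - 1 by linarith) (sub_le_self _ zero_le_one)
    unfold h1
    linarith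

theorem H1_eq {S : Finset ℕ} (hS : ∀ p ∈ S, 2 ≤ p) : H1 S = MP S / (∏ p ∈ S, p : ℕ) := by
  rw [H1, MP, Nat.cast_prod, ← prod_div_distrib]
  refine prod_congr rfl fun p hp => ?_
  have : (2 : ℝ) ≤ p := by exact_mod_cast hS p hp
  have h : (p : ℝ) - 1 ≠ 0 := by linarith
  unfold h1
  field_simp
  ring

theorem MP_le : ∃ C : ℝ, 0 < C ∧ ∀ (y l : ℝ) (S : Finset ℕ), 0 < y → y ≤ l →
    (∀ p ∈ S, p.Prime ∧ 3 ≤ p ∧ y < Real.log p ∧ Real.log p ≤ l) →
    MP S ≤ l / y * Real.exp (C / y) := by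
  obtain ⟨C, h0, hC⟩ := mert1
  refine ⟨C, h0, fun y l S hy hl hS => ?_⟩
  have a := EAbel_big hC hy hl
  have b : ∑ p ∈ S, 2 * h1 p ≤ ∑ p ∈ (PP l).filter (fun p : ℕ => ¬ Real.log p ≤ y), hh p :=
    (sum_le_sum fun p hp => h1_le_hh (hS p hp).2.1).trans (sum_le_sum_of_subset_of_nonneg
      (fun p hp => mem_filter.2 ⟨mem_PP.2 ⟨(hS p hp).1, (hS p hp).2.2.2⟩,
        not_le.2 (hS p hp).2.2.1⟩) fun p hp _ => (hh_pos (mem_PP.1 (mem_filter.1 hp).1).1).le)
  rw [← mul_sum] at b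
  calc MP S ≤ ∏ p ∈ S, Real.exp (h1 p) := prod_le_prod
        (fun p hp => by linarith [h1_pos (hS p hp).1.two_le])
        fun p _ => by linarith [Real.add_one_le_exp (h1 p)]
    _ = Real.exp (∑ p ∈ S, h1 p) := (Real.exp_sum _ _).symm
    _ ≤ Real.exp (Real.log (l / y) + C / y) := Real.exp_le_exp.2 (by
        rw [mul_div_assoc] at a
        linarith)
    _ = _ := by rw [Real.exp_add, Real.exp_log (div_pos (by linarith) hy)]

theorem exp_small {x : ℝ} (h : x ≤ 1 / 20000) : Real.exp x ≤ 10001 / 10000 := by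
  have a := Real.add_one_le_exp (-(1 / 20000))
  have b := Real.exp_le_exp.2 h
  have c : Real.exp (1 / 20000) * Real.exp (-(1 / 20000)) = 1 := by
    rw [← Real.exp_add, add_neg_cancel, Real.exp_zero]
  nlinarith [Real.exp_pos (1 / 20000 : ℝ)]

theorem om_large : ∃ y₀ : ℝ, 2 ≤ y₀ ∧
    (∀ P : Finset ℕ, (∀ p ∈ P, p.Prime ∧ y₀ < Real.log p) → Om P) ∧
    ∀ (y l : ℝ) (S : Finset ℕ), y₀ ≤ y → y ≤ l →
      (∀ p ∈ S, p.Prime ∧ y < Real.log p ∧ Real.log p ≤ l) → MP S ≤ 2 * (l / y) := by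
  obtain ⟨C, h0, hC⟩ := MP_le
  have h3 : ∀ p : ℕ, 2 < Real.log p → 3 ≤ p := fun p hp => by
    have := Real.log_le_self (Nat.cast_nonneg p)
    have : (2 : ℝ) < p := by linarith
    exact_mod_cast this
  refine ⟨20000 * (C + 1), by linarith, fun P hP p hp z l hz hl => ?_, fun y l S hy hl hS => ?_⟩
  · have l0 := (hP p hp).2
    have l1 : 0 < Real.log p := by linarith
    have p0 : (0 : ℝ) < p := by exact_mod_cast (hP p hp).1.pos
    have l2 := hl p (mem_Pz.2 ⟨hp, hz⟩)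
    set S := (Pz P z).filter fun r => p < r with hS
    have a := hC (Real.log p) l S l1 l2 fun r hr => by
      have h1 := mem_filter.1 hr
      have h2 := hP r (mem_Pz.1 h1.1).1
      exact ⟨h2.1, h3 r (by linarith), Real.log_lt_log p0 (by exact_mod_cast h1.2), hl r h1.1⟩
    have hn : p ∉ S := by simp [hS]
    have b := prod_mul_MP (S := insert p S) fun r hr => by
      rcases mem_insert.1 hr with rfl | hr
      · exact (hP r hp).1.two_le
      · exact (hP r (mem_Pz.1 (mem_filter.1 hr).1).1).1.two_le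
    have c : VV P iv z = VV P iv p * ∏ r ∈ insert p S, (1 - iv r) := by
      unfold VV
      rw [← prod_filter_mul_prod_filter_not (Pz P z) fun r => r < p]
      congr 2
      · ext r
        simp only [mem_filter, mem_Pz]
        exact ⟨fun h => ⟨h.1.1, h.2⟩, fun h => ⟨⟨h.1, by omega⟩, h.2⟩⟩
      · ext r
        simp only [hS, mem_filter, mem_Pz, mem_insert]
        refine ⟨fun h => ?_, ?_⟩
        · rcases (not_lt.1 h.2).eq_or_lt with e | e
          · exact Or.inl e.symm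
          · exact Or.inr ⟨h.1, e⟩
        · rintro (rfl | h)
          · exact ⟨⟨hp, hz⟩, lt_irrefl _⟩
          · exact ⟨h.1, by omega⟩
    have d : VV P iv p = VV P iv z * ((1 + h1 p) * MP S) := by
      rw [c, mul_assoc, ← show MP (insert p S) = (1 + h1 p) * MP S from prod_insert hn, b, mul_one]
    have e : 1 + h1 p ≤ Real.exp (1 / Real.log p) := by
      have := one_div_le_one_div_of_le l1 (Real.log_le_sub_one_of_pos p0)
      unfold h1
      linarith [Real.add_one_le_exp (1 / Real.log p)]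
    have f : Real.exp (1 / Real.log p) * Real.exp (C / Real.log p) ≤ 10001 / 10000 := by
      rw [← Real.exp_add, ← add_div]
      refine exp_small ?_
      rw [div_le_iff₀ l1]
      linarith
    have g : (1 + h1 p) * MP S ≤ l / Real.log p * (10001 / 10000) :=
      calc _ ≤ Real.exp (1 / Real.log p) * (l / Real.log p * Real.exp (C / Real.log p)) :=
            mul_le_mul e a (prod_nonneg fun r hr => by
              linarith [h1_pos (hP r (mem_Pz.1 (mem_filter.1 hr).1).1).1.two_le]) (Real.exp_pos _).le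
        _ = l / Real.log p * (Real.exp (1 / Real.log p) * Real.exp (C / Real.log p)) := by ring
        _ ≤ _ := mul_le_mul_of_nonneg_left f (div_nonneg (by linarith) l1.le)
    have k := mul_le_mul_of_nonneg_right
      (mul_le_mul_of_nonneg_left g (VV_nonneg P iv_le_one z)) l1.le
    rw [← d] at k
    refine k.trans (le_of_eq ?_)
    field_simp
  · have y0 : 0 < y := by linarith
    have a := hC y l S y0 hl fun p hp => ⟨(hS p hp).1, h3 p (by linarith [(hS p hp).2.1]),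
      (hS p hp).2⟩
    have b : Real.exp (C / y) ≤ 10001 / 10000 := exp_small (by rw [div_le_iff₀ y0]; linarith)
    have c : 0 ≤ l / y := div_nonneg (by linarith) y0.le
    nlinarith

end

end Pool.Agent.MP_c7a479_co.Ex

end

section

/-! A lower bound sieve with controlled coefficients. -/

namespace Pool.Agent.MP_c7a479_co.Ex

open Finset
open scoped Classical

noncomputable section

theorem sv_pack {S : Finset ℕ} (hS : ∀ p ∈ S, 2 ≤ p) (hO : Om S) {l L : ℝ} (hl : 0 < l)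
    (h : ∀ p ∈ S, Real.log p ≤ l) (hs : 52 / 25 ≤ L / l) : ∃ a b : Finset ℕ → ℝ,
    (∀ s : ℤ, ∑ Q ∈ S.powerset, a Q * Ps Q s ≤ ∏ p ∈ S, (1 - dv s p) ∧
      ∏ p ∈ S, (1 - dv s p) ≤ ∑ Q ∈ S.powerset, b Q * Ps Q s) ∧
    ((∏ p ∈ S, (1 - iv p)) * (1 - Real.exp (-(8 / 5) * (L / l - 52 / 25))) ≤ a ∅ ∧
      a ∅ ≤ ∏ p ∈ S, (1 - iv p)) ∧
    (∏ p ∈ S, (1 - iv p) ≤ b ∅ ∧
      b ∅ ≤ (∏ p ∈ S, (1 - iv p)) * (1 + 1001 / 1000 * ap (L / l))) ∧
    (∀ Q, |a Q| ≤ MP S ∧ |b Q| ≤ MP S) ∧ ∀ Q, L < LL Q → a Q = 0 ∧ b Q = 0 := by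
  obtain ⟨z, hz⟩ : ∃ z, Pz S z = S :=
    ⟨S.sup id + 1, filter_true_of_mem fun p hp => Nat.lt_succ_of_le (le_sup (f := id) hp)⟩
  have hL : l ≤ L := by
    rw [le_div_iff₀ hl] at hs
    linarith
  obtain ⟨a, a1, a2, a3, a4⟩ := sv_exp (β := 52 / 25) (by norm_num) hS z false L (by linarith)
    fun _ p hp => (h p (mem_Pz.1 hp).1).trans hL
  obtain ⟨b, b1, b2, b3, b4⟩ := sv_exp (β := 52 / 25) (by norm_num) hS z true L (by linarith)
    fun e => absurd e (by simp)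
  obtain ⟨m1, m2⟩ := sv_mean hS hO z l L hl fun p hp => h p (mem_Pz.1 hp).1
  have m3 := sv_bounds (52 / 25) S iv_nonneg iv_le_one z L
  have m4 : ∀ s : ℤ, _ := fun s => sv_bounds (52 / 25) S (x := dv s)
    (fun p => by unfold dv; split_ifs <;> norm_num) (fun p => by unfold dv; split_ifs <;> norm_num)
    z L
  have m5 := m1 hs
  have m6 := m2 (by linarith)
  have a5 : a ∅ = sv (52 / 25) S iv z false L := a2
  have b5 : b ∅ = sv (52 / 25) S iv z true L := b2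
  simp only [VV, hz, a1, b1, ← a5, ← b5] at a3 b3 m3 m4 m5 m6
  exact ⟨a, b, m4, ⟨by linarith, m3.1⟩, ⟨m3.2, by linarith⟩,
    fun Q => ⟨(a3 Q).trans (prod_inv_le_MP hS), (b3 Q).trans (prod_inv_le_MP hS)⟩,
    fun Q hQ => ⟨a4 Q hQ, b4 Q hQ⟩⟩

theorem sum_split (P : Finset ℕ) (c : ℕ → Prop) [DecidablePred c] (a b : Finset ℕ → ℝ) (s : ℤ) :
    ∑ Q ∈ P.powerset, a (Q.filter c) * b (Q.filter fun p => ¬ c p) * Ps Q s =
      (∑ Q ∈ (P.filter c).powerset, a Q * Ps Q s) *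
        ∑ Q ∈ (P.filter fun p => ¬ c p).powerset, b Q * Ps Q s := by
  rw [sum_mul_sum, ← sum_product']
  refine sum_nbij' (fun Q => (Q.filter c, Q.filter fun p => ¬ c p)) (fun R => R.1 ∪ R.2)
    ?_ ?_ ?_ ?_ ?_
  · intro Q hQ
    exact mem_product.2 ⟨mem_powerset.2 (filter_subset_filter _ (mem_powerset.1 hQ)),
      mem_powerset.2 (filter_subset_filter _ (mem_powerset.1 hQ))⟩
  · intro R hR
    obtain ⟨h1, h2⟩ := mem_product.1 hR
    exact mem_powerset.2 (union_subset ((mem_powerset.1 h1).trans (filter_subset _ _))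
      ((mem_powerset.1 h2).trans (filter_subset _ _)))
  · intro Q _
    exact filter_union_filter_not_eq _ _
  · intro R hR
    obtain ⟨h1, h2⟩ := mem_product.1 hR
    have k1 : ∀ p ∈ R.1, c p := fun p hp => (mem_filter.1 (mem_powerset.1 h1 hp)).2
    have k2 : ∀ p ∈ R.2, ¬ c p := fun p hp => (mem_filter.1 (mem_powerset.1 h2 hp)).2
    refine Prod.ext ?_ ?_
    · simp only [filter_union, filter_true_of_mem k1, filter_false_of_mem k2, union_empty]
    · simp only [filter_union, filter_true_of_mem k2,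
        filter_false_of_mem fun p hp => not_not.2 (k1 p hp), empty_union]
  · intro Q _
    simp only [Ps]
    rw [← prod_filter_mul_prod_filter_not Q c]
    ring

theorem prod_dv (P : Finset ℕ) (s : ℤ) :
    ∏ p ∈ P, (1 - dv s p) = if ∀ p ∈ P, ¬ (p : ℤ) ∣ s then 1 else 0 := by
  split_ifs with h
  · exact prod_eq_one fun p hp => by rw [dv, if_neg (h p hp), sub_zero]
  · push Not at h
    obtain ⟨p, hp, hd⟩ := h
    exact prod_eq_zero hp (by rw [dv, if_pos hd, sub_self])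

/-- The data of a lower bound sieve for `P` with mean about `v` and logarithmic level `L`. -/
structure Sv (P : Finset ℕ) (w : ℕ) (l L v : ℝ) (f : Finset ℕ → ℝ) : Prop where
  prime : ∀ p ∈ P, p.Prime
  le : ∀ s : ℤ, ∑ Q ∈ P.powerset, f Q * Ps Q s ≤ if ∀ p ∈ P, ¬ (p : ℤ) ∣ s then 1 else 0
  mean : v / 3000 ≤ f ∅
  small : ∀ Q ⊆ P, ∏ p ∈ Q, p ≤ w → |f Q| * H1 Q ≤ 2000 * v / (∏ p ∈ Q, p : ℕ)
  large : ∀ Q ⊆ P, |f Q| * H1 Q ≤ 60 * l ^ 2 / (∏ p ∈ Q, p : ℕ)
  supp : ∀ Q ⊆ P, L < LL Q → f Q = 0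

theorem exp_tiny {x : ℝ} (h : 27 ≤ x) : Real.exp (-x) ≤ 1 / 100000 := by
  have a : (2 : ℝ) ^ 27 ≤ Real.exp 1 ^ 27 :=
    pow_le_pow_left₀ (by norm_num) (by linarith [Real.add_one_le_exp 1]) 27
  rw [← Real.exp_nat_mul] at a
  have b : Real.exp ((27 : ℕ) * 1) ≤ Real.exp x := Real.exp_le_exp.2 (by push_cast; linarith)
  rw [Real.exp_neg, ← one_div]
  exact one_div_le_one_div_of_le (by norm_num) (by linarith)

theorem sieve_pack : ∃ y₀ : ℝ, 2 ≤ y₀ ∧ ∀ (y l L : ℝ) (w : ℕ) (P : Finset ℕ), y₀ ≤ y →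
    y ≤ Real.log w → Real.log w ≤ 10 * y → Real.log w ≤ l → 20 * Real.log w ≤ L →
    (∀ p ∈ P, p.Prime ∧ y < Real.log p ∧ Real.log p ≤ l) →
    ∃ v f, y / (2 * l) ≤ v ∧ v ≤ 1 ∧ Sv P w l (L + 417 / 200 * l) v f := by
  obtain ⟨y₀, hy₀, hO, hM⟩ := om_large
  refine ⟨y₀, hy₀, fun y l L w P h1 h2 h3 h4 h5 hP => ?_⟩
  have w0 : 0 < Real.log w := by linarith
  have w1 : (0 : ℝ) < w := by
    rcases Nat.eq_zero_or_pos w with rfl | h
    · simp at w0
    · exact_mod_cast h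
  have l0 : 0 < l := by linarith
  have y0 : 0 < y := by linarith
  set P1 := P.filter fun p => p ≤ w with hP1
  set P2 := P.filter fun p => ¬ p ≤ w with hP2
  have t : ∀ p ∈ P, 2 ≤ p := fun p hp => (hP p hp).1.two_le
  have t1 : ∀ p ∈ P1, 2 ≤ p := fun p hp => t p (mem_filter.1 hp).1
  have t2 : ∀ p ∈ P2, 2 ≤ p := fun p hp => t p (mem_filter.1 hp).1
  have u1 : ∀ p ∈ P1, Real.log p ≤ Real.log w := fun p hp => Real.log_le_log
    (by have := t1 p hp; positivity) (by exact_mod_cast (mem_filter.1 hp).2)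
  have o : ∀ S ⊆ P, Om S := fun S hS => hO S fun p hp =>
    ⟨(hP p (hS hp)).1, by linarith [(hP p (hS hp)).2.1]⟩
  have s1 : 20 ≤ L / Real.log w := by rwa [le_div_iff₀ w0]
  have s2 : 417 / 200 * l / l = 417 / 200 := by field_simp
  obtain ⟨a, b, ab, a1, b1, ab2, ab3⟩ := sv_pack t1 (o _ (filter_subset _ _)) w0 u1
    (L := L) (by linarith)
  obtain ⟨c, d, cd, c1, d1, cd2, cd3⟩ := sv_pack t2 (o _ (filter_subset _ _)) l0
    (fun p hp => (hP p (mem_filter.1 hp).1).2.2) (L := 417 / 200 * l) (by rw [s2]; norm_num)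
  have M1 : MP P1 ≤ 20 := (hM y _ P1 h1 h2 fun p hp =>
    ⟨(hP p (mem_filter.1 hp).1).1, (hP p (mem_filter.1 hp).1).2.1, u1 p hp⟩).trans (by
      have : Real.log w / y ≤ 10 := by rwa [div_le_iff₀ y0]
      linarith)
  have M0 : MP P ≤ 2 * (l / y) := hM y l P h1 (by linarith) hP
  have M3 : 2 * (l / y) ≤ l := by
    rw [← mul_div_assoc, div_le_iff₀ y0]
    nlinarith
  have M2 : MP P2 ≤ 2 * (l / y) := (MP_mono (filter_subset _ _) t).trans M0
  have e1 := prod_mul_MP t1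
  have e2 := prod_mul_MP t2
  have n1 : 0 ≤ ∏ p ∈ P1, (1 - iv p) := prod_nonneg fun p _ => sub_nonneg.2 (iv_le_one p)
  have n2 : 0 ≤ ∏ p ∈ P2, (1 - iv p) := prod_nonneg fun p _ => sub_nonneg.2 (iv_le_one p)
  have g1 := one_le_MP t1
  have g2 := one_le_MP t2
  set V1 := ∏ p ∈ P1, (1 - iv p)
  set V2 := ∏ p ∈ P2, (1 - iv p)
  have v1 : 1 / 20 ≤ V1 := by linarith [mul_le_mul_of_nonneg_left M1 n1]
  have v2 : V1 ≤ 1 := by linarith [mul_le_mul_of_nonneg_left g1 n1]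
  have x1 := exp_tiny (x := 8 / 5 * (L / Real.log w - 52 / 25)) (by linarith)
  have x2 := exp_tiny (x := 8 / 5 * (L / Real.log w - 77 / 25)) (by linarith)
  have x3 : Real.exp (-(8 / 5) * (417 / 200 - 52 / 25)) ≤ 125 / 126 := by
    rw [neg_mul, Real.exp_neg, ← one_div]
    refine (one_div_le_one_div_of_le (by norm_num) (Real.add_one_le_exp _)).trans (by norm_num)
  rw [← neg_mul] at x1 x2
  rw [ap, if_neg (by linarith)] at b1
  rw [s2] at c1
  rw [s2, ap, if_pos (by norm_num)] at d1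
  have q1 : b ∅ - a ∅ ≤ 2 / 100000 := by
    linarith [a1.1, b1.2, mul_le_mul v2 x1 (Real.exp_pos _).le zero_le_one,
      mul_le_mul v2 x2 (Real.exp_pos _).le zero_le_one]
  have q2 : V2 / 126 ≤ c ∅ := by linarith [c1.1, mul_le_mul_of_nonneg_left x3 n2]
  have q3 : d ∅ ≤ 2 * V2 := by linarith [d1.2]
  have bd : ∀ (R T : Finset ℕ) (m n : ℝ), |c T| ≤ m → |d T| ≤ n →
      |b R * c T - (b R - a R) * d T| ≤ 20 * m + 40 * n := fun R T m n k1 k2 => by
    refine (abs_sub _ _).trans ?_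
    rw [abs_mul, abs_mul]
    have k3 := (ab2 R).1.trans M1
    have k4 := (ab2 R).2.trans M1
    have k5 := abs_sub (b R) (a R)
    exact add_le_add (mul_le_mul k4 k1 (abs_nonneg _) (by norm_num))
      (mul_le_mul (by linarith) k2 (abs_nonneg _) (by norm_num))
  refine ⟨V2, fun Q => b (Q.filter fun p => p ≤ w) * c (Q.filter fun p => ¬ p ≤ w) -
    (b (Q.filter fun p => p ≤ w) - a (Q.filter fun p => p ≤ w)) * d (Q.filter fun p => ¬ p ≤ w),
    ?_, by linarith [mul_le_mul_of_nonneg_left g2 n2], fun p hp => (hP p hp).1, fun s => ?_, ?_, fun Q hQ h => ?_, fun Q hQ => ?_,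
    fun Q hQ h => ?_⟩
  · have := mul_le_mul_of_nonneg_left M2 n2
    rw [e2, ← mul_div_assoc, ← mul_div_assoc, le_div_iff₀ y0] at this
    rw [div_le_iff₀ (by linarith)]
    linarith
  · simp only [sub_mul, sum_sub_distrib, sum_split P (fun p => p ≤ w)]
    rw [← prod_dv, ← prod_filter_mul_prod_filter_not P fun p => p ≤ w]
    obtain ⟨k1, k2⟩ := ab s
    obtain ⟨k3, k4⟩ := cd s
    have k5 : 0 ≤ ∏ p ∈ P1, (1 - dv s p) := by rw [prod_dv]; split_ifs <;> norm_num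
    have k6 : 0 ≤ ∏ p ∈ P2, (1 - dv s p) := by rw [prod_dv]; split_ifs <;> norm_num
    linarith [mul_nonneg (sub_nonneg.2 k2) (sub_nonneg.2 k4),
      mul_nonneg (sub_nonneg.2 k1) (k6.trans k4), mul_nonneg (k5.trans k2) (sub_nonneg.2 k3)]
  · simp only [filter_empty]
    linarith [mul_le_mul (v1.trans b1.1) q2 (by positivity) (by linarith [b1.1]),
      mul_le_mul q1 q3 (n2.trans d1.1) (by norm_num)]
  · have k : ∀ p ∈ Q, p ≤ w := fun p hp =>
      (single_le_prod' (f := fun p => p) (fun r hr => by have := t r (hQ hr); omega) hp).trans h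
    rw [filter_false_of_mem fun p hp => not_not.2 (k p hp), H1_eq fun p hp => t p (hQ hp),
      ← mul_div_assoc]
    refine div_le_div_of_nonneg_right ?_ (Nat.cast_nonneg _)
    have k1 := bd (Q.filter fun p => p ≤ w) ∅ V2 (2 * V2)
      (abs_le.2 ⟨by linarith, c1.2⟩) (abs_le.2 ⟨by linarith [d1.1], q3⟩)
    have k2 := (MP_mono (show Q ⊆ P1 from fun p hp => mem_filter.2 ⟨hQ hp, k p hp⟩) t1).trans M1
    have k3 := one_le_MP fun p hp => t p (hQ hp)
    exact (mul_le_mul k1 k2 (by linarith) (by linarith)).trans (by linarith)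
  · rw [H1_eq fun p hp => t p (hQ hp), ← mul_div_assoc]
    refine div_le_div_of_nonneg_right ?_ (Nat.cast_nonneg _)
    have k1 := bd (Q.filter fun p => p ≤ w) (Q.filter fun p => ¬ p ≤ w) l l
      ((cd2 _).1.trans (M2.trans M3)) ((cd2 _).2.trans (M2.trans M3))
    have k2 := (MP_mono hQ t).trans (M0.trans M3)
    have k3 := one_le_MP fun p hp => t p (hQ hp)
    exact (mul_le_mul k1 k2 (by linarith) (by linarith)).trans (le_of_eq (by ring))
  · have k : LL Q = LL (Q.filter fun p => p ≤ w) + LL (Q.filter fun p => ¬ p ≤ w) :=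
      (sum_filter_add_sum_filter_not _ _ _).symm
    by_cases k1 : L < LL (Q.filter fun p => p ≤ w)
    · simp [(ab3 _ k1).1, (ab3 _ k1).2]
    · have := cd3 (Q.filter fun p => ¬ p ≤ w) (by linarith)
      simp only [this.1, this.2, mul_zero, sub_zero]

end

end Pool.Agent.MP_c7a479_co.Ex

end

section

/-! Fourier expansion of the local factors and the large sieve for bilinear sums. -/

namespace Pool.Agent.MP_c7a479_co.Ex

open Finset
open scoped Classical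
open Pool.Agent.MP_2a1f0e_nt (ex ex_add norm_ex ex_int)
open Pool.Agent.MP_c903c4_nt (Red Four_memRed)

noncomputable section

variable {ι ι' : Type}

/-- An exponential sum over a family of integers. -/
def EE (I : Finset ι) (φ : ι → ℤ) (x : ℝ) : ℂ := ∑ i ∈ I, ex (φ i * x)

/-- The mean square over reduced fractions with denominator `d`. -/
def SS (I : Finset ι) (φ : ι → ℤ) (d : ℕ) : ℝ := ∑ a ∈ Red d, ‖EE I φ ((a : ℝ) / d)‖ ^ 2

/-- A family in an interval of length `T` with multiplicities at most `μ`. -/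
def Fam (I : Finset ι) (φ : ι → ℤ) (T : ℕ) (μ : ℝ) : Prop :=
  1 ≤ T ∧ (∃ x : ℤ, ∀ i ∈ I, x ≤ φ i ∧ φ i < x + T) ∧ ∀ u, (#{i ∈ I | φ i = u} : ℝ) ≤ μ

theorem SS_nonneg (I : Finset ι) (φ : ι → ℤ) (d : ℕ) : 0 ≤ SS I φ d := by
  unfold SS
  positivity

theorem Fam.mu {I : Finset ι} {φ : ι → ℤ} {T : ℕ} {μ : ℝ} (h : Fam I φ T μ) : 0 ≤ μ :=
  (Nat.cast_nonneg _).trans (h.2.2 0)

theorem Fam.ls {I : Finset ι} {φ : ι → ℤ} {T : ℕ} {μ : ℝ} (h : Fam I φ T μ) (D : ℕ) :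
    ∑ d ∈ Icc 1 D, SS I φ d ≤ 48 * (μ * #I) * (T + (D : ℝ) ^ 2) := by
  have hμ := h.mu
  obtain ⟨hT, ⟨y, hy⟩, hm⟩ := h
  set A : ℝ := ∑ d ∈ Icc 1 D, SS I φ d with hA
  have hA0 : 0 ≤ A := sum_nonneg fun d _ => SS_nonneg _ _ _
  have hB : Icc 1 D ⊆ Pool.Agent.MP_c903c4_nt.Cop 1 0 D := fun q hq => by
    rw [mem_Icc] at hq
    exact Pool.Agent.MP_c903c4_nt.Four_memCop.2 ⟨⟨hq.1, hq.2⟩, Nat.coprime_one_right q⟩
  set cf : ℕ → ℕ → ℂ := fun q r =>
    (starRingEnd ℂ) (EE I φ ((r : ℝ) / q)) * ex (((y - 1 : ℤ) : ℝ) * ((r : ℝ) / q)) with hcf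
  set G : ℕ → ℂ := fun t => ∑ q ∈ Icc 1 D, ∑ r ∈ Red q,
    cf q r * ex ((r : ℝ) * ((1 : ℕ) * t) / q) with hG
  have hls : ∑ t ∈ Ioc 0 (0 + T), ‖G t‖ ^ 2 ≤ 24 * (2 * T + (D : ℝ) ^ 2) * A := by
    have := Pool.Agent.MP_c903c4_nt.ls 1 D 0 T hT (Icc 1 D) hB cf
    simpa only [hcf, hG, hA, SS, norm_mul, norm_ex, mul_one, RCLike.norm_conj] using this
  set τ : ι → ℕ := fun i => (φ i - y + 1).toNat with hτ
  have h0 : ∀ i ∈ I, φ i = y - 1 + τ i ∧ τ i ∈ Ioc 0 (0 + T) := fun i hi => by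
    have := hy i hi
    simp only [hτ, mem_Ioc]
    omega
  have hid : (A : ℂ) = ∑ i ∈ I, G (τ i) := by
    simp only [hG]
    rw [sum_comm, hA, Complex.ofReal_sum]
    refine sum_congr rfl fun q _ => ?_
    rw [sum_comm, SS, Complex.ofReal_sum]
    refine sum_congr rfl fun r _ => ?_
    rw [← Complex.normSq_eq_norm_sq, ← Complex.mul_conj]
    nth_rewrite 1 [EE]
    rw [sum_mul]
    refine sum_congr rfl fun i hi => ?_
    have e : ex ((φ i : ℝ) * ((r : ℝ) / q)) =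
        ex (((y - 1 : ℤ) : ℝ) * ((r : ℝ) / q)) * ex ((r : ℝ) * ((1 : ℕ) * τ i) / q) := by
      rw [← ex_add, (h0 i hi).1]
      congr 1
      push_cast
      ring
    rw [e, hcf]
    ring
  have h1 : A ≤ ∑ i ∈ I, ‖G (τ i)‖ := by
    have : A = ‖(A : ℂ)‖ := by rw [Complex.norm_real, Real.norm_of_nonneg hA0]
    rw [this, hid]
    exact norm_sum_le _ _
  have h2 : ∑ i ∈ I, ‖G (τ i)‖ ^ 2 ≤ μ * ∑ t ∈ Ioc 0 (0 + T), ‖G t‖ ^ 2 := by
    rw [← sum_fiberwise_of_maps_to fun i hi => (h0 i hi).2, mul_sum]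
    refine sum_le_sum fun t _ => ?_
    rw [sum_congr rfl (g := fun _ => ‖G t‖ ^ 2) fun i hi => by rw [(mem_filter.1 hi).2],
      sum_const, nsmul_eq_mul]
    refine mul_le_mul_of_nonneg_right (le_trans ?_ (hm (y - 1 + t))) (by positivity)
    exact Nat.cast_le.2 (card_le_card fun i hi => mem_filter.2 ⟨(mem_filter.1 hi).1, by
      rw [(h0 i (mem_filter.1 hi).1).1, (mem_filter.1 hi).2]⟩)
  have h3 : A ^ 2 ≤ #I * (μ * (24 * (2 * T + (D : ℝ) ^ 2) * A)) :=
    (pow_le_pow_left₀ hA0 h1 2).trans (sq_sum_le_card_mul_sum_sq.trans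
      (mul_le_mul_of_nonneg_left (h2.trans (mul_le_mul_of_nonneg_left hls hμ)) (by positivity)))
  rcases hA0.eq_or_lt with h | h
  · rw [← h]
    positivity
  · have h4 : A ≤ #I * (μ * (24 * (2 * T + (D : ℝ) ^ 2))) := by
      refine le_of_mul_le_mul_right ?_ h
      calc A * A = A ^ 2 := by ring
        _ ≤ _ := h3
        _ = _ := by ring
    have h5 : 0 ≤ μ * #I * (D : ℝ) ^ 2 := by positivity
    linarith

theorem sum_div_prod (Q : Finset ℕ) (hQ : ∀ p ∈ Q, p.Prime) (F : ℕ → ℂ) :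
    ∑ d ∈ (∏ p ∈ Q, p).divisors, F d = ∑ R ∈ Q.powerset, F (∏ p ∈ R, p) := by
  have h0 : ∏ p ∈ Q, p ≠ 0 := prod_ne_zero_iff.2 fun p hp => (hQ p hp).ne_zero
  have hs : Squarefree (∏ p ∈ Q, p) := Finset.squarefree_prod_of_pairwise_isCoprime
    (fun p hp q hq h => Nat.coprime_iff_isRelPrime.1
      ((Nat.coprime_primes (hQ p hp) (hQ q hq)).2 h)) fun p hp => (hQ p hp).squarefree
  symm
  refine sum_nbij' (fun R => ∏ p ∈ R, p) (fun d => d.primeFactors) (fun R hR => ?_)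
    (fun d hd => ?_) (fun R hR => ?_) (fun d hd => ?_) fun _ _ => rfl
  · exact Nat.mem_divisors.2 ⟨prod_dvd_prod_of_subset _ _ _ (mem_powerset.1 hR), h0⟩
  · rw [mem_powerset, ← Nat.primeFactors_prod hQ]
    exact Nat.primeFactors_mono (Nat.dvd_of_mem_divisors hd) h0
  · exact Nat.primeFactors_prod fun p hp => hQ p (mem_powerset.1 hR hp)
  · exact Nat.prod_primeFactors_of_squarefree (hs.squarefree_of_dvd (Nat.dvd_of_mem_divisors hd))

theorem ram_prod (s : ℤ) (Q : Finset ℕ) : (∀ p ∈ Q, p.Prime) →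
    ∑ a ∈ Red (∏ p ∈ Q, p), ex (s * ((a : ℝ) / (∏ p ∈ Q, p : ℕ))) =
      ∏ p ∈ Q, (((p : ℝ) * dv s p - 1 : ℝ) : ℂ) := by
  induction Q using Finset.strongInduction with
  | H Q ih =>
  intro hQ
  have h0 : 0 < ∏ p ∈ Q, p := prod_pos fun p hp => (hQ p hp).pos
  have e1 := Pool.Agent.MP_c903c4_nt.Four_red h0 fun x => ex (s * x)
  have e2 := Pool.Agent.MP_2a1f0e_nt.gs_div _ h0 s
  unfold Pool.Agent.MP_2a1f0e_nt.gs at e2
  have e3 : ∑ k ∈ range (∏ p ∈ Q, p), ex (s * ((k : ℝ) / (∏ p ∈ Q, p : ℕ))) =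
      ∏ p ∈ Q, (1 + (((p : ℝ) * dv s p - 1 : ℝ) : ℂ)) := by
    rw [sum_congr rfl (g := fun k : ℕ => ex (k * ((s : ℝ) / (∏ p ∈ Q, p : ℕ)))) fun k _ => by
      congr 1; ring, e2]
    split_ifs with h
    · rw [Nat.cast_prod]
      refine prod_congr rfl fun p hp => ?_
      rw [dv, if_pos ((Int.natCast_dvd_natCast.2 (dvd_prod_of_mem _ hp)).trans h)]
      simp
    · have : ∃ p ∈ Q, ¬ (p : ℤ) ∣ s := by
        by_contra hc
        push Not at hc
        refine h ?_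
        rw [Nat.cast_prod]
        exact Finset.prod_dvd_of_coprime (fun p hp q hq e => Nat.isCoprime_iff_coprime.2
          ((Nat.coprime_primes (hQ p hp) (hQ q hq)).2 e)) hc
      obtain ⟨p, hp, hd⟩ := this
      exact (prod_eq_zero hp (by simp [dv, hd])).symm
  rw [e3, prod_one_add, sum_div_prod Q hQ, ← add_sum_erase _ _ (mem_powerset_self Q),
    ← add_sum_erase _ _ (mem_powerset_self Q)] at e1
  rw [sum_congr rfl fun R hR => (ih R (ssubset_of_ne_of_subset (mem_erase.1 hR).1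
    (mem_powerset.1 (mem_erase.1 hR).2)) fun p hp =>
      hQ p (mem_powerset.1 (mem_erase.1 hR).2 hp)).symm] at e1
  exact (add_right_cancel e1).symm

theorem ps_ram (s : ℤ) {Q : Finset ℕ} (hQ : ∀ p ∈ Q, p.Prime) :
    ((Ps Q s : ℝ) : ℂ) = (((-1) ^ #Q * H1 Q : ℝ) : ℂ) *
      ∑ a ∈ Red (∏ p ∈ Q, p), ex (s * ((a : ℝ) / (∏ p ∈ Q, p : ℕ))) := by
  rw [ram_prod s Q hQ, ← Complex.ofReal_prod, ← Complex.ofReal_mul, H1, ← prod_const,
    ← prod_mul_distrib, ← prod_mul_distrib, Ps]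
  congr 1
  refine prod_congr rfl fun p hp => ?_
  have : (2 : ℝ) ≤ p := by exact_mod_cast (hQ p hp).two_le
  have h : (p : ℝ) - 1 ≠ 0 := by linarith
  unfold ps dv h1
  split_ifs
  · field_simp
  · ring

theorem red_perm {d : ℕ} (hd : 0 < d) {α : ℤ} (hα : IsCoprime α d) (I : Finset ι) (φ : ι → ℤ) :
    ∑ a ∈ Red d, ‖EE I φ (α * ((a : ℝ) / d))‖ ^ 2 = SS I φ d := by
  have hd' : (0 : ℤ) < d := by exact_mod_cast hd
  let f : ℕ → ℕ := fun a => (α * a % d).toNat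
  have hf : ∀ a, ((f a : ℕ) : ℤ) = α * a % d := fun a =>
    Int.toNat_of_nonneg (Int.emod_nonneg _ hd'.ne')
  have hm : ∀ a ∈ Red d, f a ∈ Red d := fun a ha => by
    refine Four_memRed.2 ⟨?_, ?_⟩
    · have := Int.emod_lt_of_pos (α * a) hd'
      rw [← hf] at this
      exact_mod_cast this
    · rw [← Nat.isCoprime_iff_coprime, hf, Int.emod_def, sub_eq_add_neg, ← mul_neg]
      exact (hα.mul_left (Nat.isCoprime_iff_coprime.2 (Four_memRed.1 ha).2)).add_mul_left_left _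
  have hi : Set.InjOn f (Red d) := fun a ha b hb e => by
    have e1 : α * a ≡ α * b [ZMOD d] := by
      unfold Int.ModEq
      rw [← hf, ← hf, e]
    have e2 : (d : ℤ) ∣ b - a := hα.symm.dvd_of_dvd_mul_left (by rw [mul_sub]; exact e1.dvd)
    have e3 : a ≡ b [MOD d] := (Nat.modEq_iff_dvd).2 e2
    exact Nat.ModEq.eq_of_lt_of_lt e3 (Four_memRed.1 ha).1 (Four_memRed.1 hb).1
  have him : (Red d).image f = Red d := eq_of_subset_of_card_le
    (image_subset_iff.2 hm) (card_image_of_injOn hi).ge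
  rw [SS]
  conv_rhs => rw [← him, sum_image hi]
  refine sum_congr rfl fun a _ => ?_
  congr 2
  refine sum_congr rfl fun i _ => ?_
  have e : (α : ℝ) * a = f a + d * (α * a / d : ℤ) := by
    have := Int.emod_add_mul_ediv (α * a) d
    rw [← hf] at this
    exact_mod_cast this.symm
  have hd0 : (d : ℝ) ≠ 0 := by positivity
  rw [← mul_one (ex (φ i * ((f a : ℝ) / d))), ← ex_int (φ i * (α * a / d)), ← ex_add]
  congr 1
  rw [← mul_div_assoc, e]
  push_cast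
  field_simp

theorem ps_bil {Q : Finset ℕ} (hQ : ∀ p ∈ Q, p.Prime) {α β : ℤ} (c : ℤ)
    (hα : ∀ p ∈ Q, ¬ (p : ℤ) ∣ α) (hβ : ∀ p ∈ Q, ¬ (p : ℤ) ∣ β) (I : Finset ι) (φ : ι → ℤ)
    (J : Finset ι') (ψ : ι' → ℤ) :
    |∑ i ∈ I, ∑ j ∈ J, Ps Q (c + α * φ i + β * ψ j)| ≤
      H1 Q * (√(SS I φ (∏ p ∈ Q, p)) * √(SS J ψ (∏ p ∈ Q, p))) := by
  have h0 : 0 < ∏ p ∈ Q, p := prod_pos fun p hp => (hQ p hp).pos
  have cop : ∀ γ : ℤ, (∀ p ∈ Q, ¬ (p : ℤ) ∣ γ) → IsCoprime γ ((∏ p ∈ Q, p : ℕ) : ℤ) := fun γ h => by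
    rw [Nat.cast_prod]
    exact IsCoprime.prod_right fun p hp =>
      ((Nat.prime_iff_prime_int.1 (hQ p hp)).irreducible.coprime_iff_not_dvd.2 (h p hp)).symm
  have hH := H1_nonneg fun p hp => (hQ p hp).two_le
  rw [← red_perm h0 (cop α hα), ← red_perm h0 (cop β hβ)]
  set d := ∏ p ∈ Q, p
  have e : ((∑ i ∈ I, ∑ j ∈ J, Ps Q (c + α * φ i + β * ψ j) : ℝ) : ℂ) =
      (((-1) ^ #Q * H1 Q : ℝ) : ℂ) * ∑ a ∈ Red d, ex (c * ((a : ℝ) / d)) *
        (EE I φ (α * ((a : ℝ) / d)) * EE J ψ (β * ((a : ℝ) / d))) := by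
    simp only [Complex.ofReal_sum, ps_ram _ hQ, ← mul_sum]
    congr 1
    simp only [EE, sum_mul_sum]
    simp only [mul_sum]
    symm
    rw [sum_comm]
    refine sum_congr rfl fun i _ => ?_
    rw [sum_comm]
    refine sum_congr rfl fun j _ => sum_congr rfl fun a _ => ?_
    rw [← ex_add, ← ex_add]
    congr 1
    simp only [d]
    push_cast
    ring
  rw [← Real.norm_eq_abs, ← Complex.norm_real, e, norm_mul, Complex.norm_real, Real.norm_eq_abs,
    abs_mul, abs_pow, abs_neg, abs_one, one_pow, one_mul, abs_of_nonneg hH]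
  refine mul_le_mul_of_nonneg_left ((norm_sum_le _ _).trans ?_) hH
  simp only [norm_mul, norm_ex, one_mul]
  exact Real.sum_mul_le_sqrt_mul_sqrt _ _ _

end

end Pool.Agent.MP_c7a479_co.Ex

end

section

/-! The remainder terms of the sieve on bilinear families. -/

namespace Pool.Agent.MP_c7a479_co.Ex

open Finset
open scoped Classical

noncomputable section

variable {ι ι' : Type}

/-- The bound for `r` dyadic blocks starting at `D`. -/
def RD (T T' D r : ℕ) : ℝ := 2 * (√T * √T') / D + 2 * r * (√T + √T') + 4 * (2 ^ r * D)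

/-- The remainder terms with modulus in `(a, b]`. -/
def Er (P : Finset ℕ) (f Φ : Finset ℕ → ℝ) (a b : ℕ) : ℝ :=
  ∑ Q ∈ P.powerset with a < ∏ p ∈ Q, p ∧ ∏ p ∈ Q, p ≤ b, |f Q| * |Φ Q|

theorem block_le {I : Finset ι} {φ : ι → ℤ} {T : ℕ} {μ : ℝ} (h : Fam I φ T μ) (D : ℕ) :
    √(∑ d ∈ Ioc D (2 * D), SS I φ d) ≤ √48 * √(μ * #I) * (√T + 2 * D) := by
  have a : ∑ d ∈ Ioc D (2 * D), SS I φ d ≤ ∑ d ∈ Icc 1 (2 * D), SS I φ d :=
    sum_le_sum_of_subset_of_nonneg (fun d hd => by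
      rw [mem_Ioc] at hd
      rw [mem_Icc]
      omega) fun d _ _ => SS_nonneg _ _ _
  have b := h.ls (2 * D)
  have hμ := h.mu
  refine Real.sqrt_le_iff.2 ⟨by positivity, (a.trans b).trans ?_⟩
  rw [mul_pow, mul_pow, Real.sq_sqrt (by norm_num), Real.sq_sqrt (by positivity)]
  refine mul_le_mul_of_nonneg_left ?_ (by positivity)
  have c := Real.sq_sqrt (Nat.cast_nonneg (α := ℝ) T)
  have d : 0 ≤ √T * (D : ℝ) := by positivity
  push_cast
  nlinarith

theorem dyadic {I : Finset ι} {φ : ι → ℤ} {T : ℕ} {μ : ℝ} (h : Fam I φ T μ)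
    {J : Finset ι'} {ψ : ι' → ℤ} {T' : ℕ} {μ' : ℝ} (h' : Fam J ψ T' μ') {D : ℕ} (hD : 1 ≤ D)
    (r : ℕ) : ∑ d ∈ Ioc D (2 ^ r * D), 1 / (d : ℝ) * (√(SS I φ d) * √(SS J ψ d)) ≤
      48 * (√(μ * #I) * √(μ' * #J)) * (2 * (√T * √T') * (1 / D - 1 / (2 ^ r * D)) +
        2 * r * (√T + √T') + 4 * (2 ^ r * D - D)) := by
  induction r with
  | zero => simp
  | succ r ih =>
    have e : 2 ^ (r + 1) * D = 2 * (2 ^ r * D) := by ring
    have h1 : D ≤ 2 ^ r * D := Nat.le_mul_of_pos_left _ (by positivity)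
    rw [e, ← sum_Ioc_consecutive _ h1 (by omega)]
    have a := block_le h (2 ^ r * D)
    have b := block_le h' (2 ^ r * D)
    have D0 : (0 : ℝ) < D := by exact_mod_cast hD
    have E0 : (0 : ℝ) < ((2 ^ r * D : ℕ) : ℝ) := by positivity
    have c : ∑ d ∈ Ioc (2 ^ r * D) (2 * (2 ^ r * D)), 1 / (d : ℝ) * (√(SS I φ d) * √(SS J ψ d)) ≤
        1 / ((2 ^ r * D : ℕ) : ℝ) * (√48 * √(μ * #I) * (√T + 2 * (2 ^ r * D : ℕ)) *
          (√48 * √(μ' * #J) * (√T' + 2 * (2 ^ r * D : ℕ)))) := by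
      refine le_trans (sum_le_sum fun d hd => mul_le_mul_of_nonneg_right
        (one_div_le_one_div_of_le E0 (by exact_mod_cast (mem_Ioc.1 hd).1.le)) (by positivity)) ?_
      rw [← mul_sum]
      refine mul_le_mul_of_nonneg_left (le_trans ?_ (mul_le_mul a b (Real.sqrt_nonneg _)
        ((Real.sqrt_nonneg _).trans a))) (by positivity)
      exact Real.sum_sqrt_mul_sqrt_le _ (fun d => SS_nonneg _ _ _) fun d => SS_nonneg _ _ _
    refine (add_le_add ih c).trans (le_of_eq ?_)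
    have s : √(48 : ℝ) * √48 = 48 := Real.mul_self_sqrt (by norm_num)
    push_cast
    generalize √(48 : ℝ) = t at s ⊢
    rw [← s]
    field_simp
    ring

theorem Er_bil {P : Finset ℕ} (hP : ∀ p ∈ P, p.Prime) {f : Finset ℕ → ℝ} {ω : ℝ} (hω : 0 ≤ ω)
    {D r : ℕ} (hD : 1 ≤ D)
    (hf : ∀ Q ⊆ P, ∏ p ∈ Q, p ≤ 2 ^ r * D → |f Q| * H1 Q ≤ ω / (∏ p ∈ Q, p : ℕ))
    {α β : ℤ} (c : ℤ) (hα : ∀ p ∈ P, ¬ (p : ℤ) ∣ α) (hβ : ∀ p ∈ P, ¬ (p : ℤ) ∣ β)
    {I : Finset ι} {φ : ι → ℤ} {T : ℕ} {μ : ℝ} (h : Fam I φ T μ)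
    {J : Finset ι'} {ψ : ι' → ℤ} {T' : ℕ} {μ' : ℝ} (h' : Fam J ψ T' μ') :
    Er P f (fun Q => ∑ i ∈ I, ∑ j ∈ J, Ps Q (c + α * φ i + β * ψ j)) D (2 ^ r * D) ≤
      48 * (√(μ * #I) * √(μ' * #J)) * (ω * RD T T' D r) := by
  set g : ℕ → ℝ := fun d => 1 / (d : ℝ) * (√(SS I φ d) * √(SS J ψ d)) with hg
  set S := P.powerset.filter fun Q => D < ∏ p ∈ Q, p ∧ ∏ p ∈ Q, p ≤ 2 ^ r * D with hS
  have hsub : ∀ Q ∈ S, Q ⊆ P := fun Q hQ => mem_powerset.1 (mem_filter.1 hQ).1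
  have a : ∑ Q ∈ S, |f Q| * |∑ i ∈ I, ∑ j ∈ J, Ps Q (c + α * φ i + β * ψ j)| ≤
      ω * ∑ Q ∈ S, g (∏ p ∈ Q, p) := by
    rw [mul_sum]
    refine sum_le_sum fun Q hQ => ?_
    have k := hsub Q hQ
    refine (mul_le_mul_of_nonneg_left (ps_bil (fun p hp => hP p (k hp)) c (fun p hp => hα p (k hp))
      (fun p hp => hβ p (k hp)) I φ J ψ) (abs_nonneg _)).trans ?_
    simp only [hg]
    rw [← mul_assoc, ← mul_assoc ω, mul_one_div]
    exact mul_le_mul_of_nonneg_right (hf Q k (mem_filter.1 hQ).2.2) (by positivity)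
  have b : ∑ Q ∈ S, g (∏ p ∈ Q, p) ≤ ∑ d ∈ Ioc D (2 ^ r * D), g d := by
    rw [← sum_image (g := fun Q : Finset ℕ => ∏ p ∈ Q, p) fun Q hQ R hR e => by
      rw [← Nat.primeFactors_prod fun p hp => hP p (hsub Q hQ hp),
        ← Nat.primeFactors_prod fun p hp => hP p (hsub R hR hp)]
      exact congrArg _ e]
    refine sum_le_sum_of_subset_of_nonneg (image_subset_iff.2 fun Q hQ => ?_)
      fun d _ _ => by positivity
    exact mem_Ioc.2 (mem_filter.1 hQ).2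
  have d := mul_le_mul_of_nonneg_left (b.trans (dyadic h h' hD r)) hω
  refine (a.trans d).trans ?_
  rw [mul_left_comm]
  refine mul_le_mul_of_nonneg_left (mul_le_mul_of_nonneg_left ?_ hω) (by positivity)
  have e : 0 ≤ 2 * (√T * √T') * (1 / (2 ^ r * (D : ℝ))) := by positivity
  have : (0 : ℝ) ≤ D := by positivity
  rw [RD, mul_sub, mul_one_div]
  linarith

theorem Er_split (P : Finset ℕ) (f Φ : Finset ℕ → ℝ) (a b c : ℕ) :
    Er P f Φ a c ≤ Er P f Φ a b + Er P f Φ b c := by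
  simp only [Er, sum_filter, ← sum_add_distrib]
  refine sum_le_sum fun Q _ => ?_
  have : 0 ≤ |f Q| * |Φ Q| := by positivity
  split_ifs <;> first | linarith | omega

theorem Er_sum (P : Finset ℕ) (f : Finset ℕ → ℝ) (I : Finset ι) (Φ : ι → Finset ℕ → ℝ) (a b : ℕ) :
    Er P f (fun Q => ∑ i ∈ I, Φ i Q) a b ≤ ∑ i ∈ I, Er P f (Φ i) a b := by
  simp only [Er]
  rw [sum_comm]
  refine sum_le_sum fun Q _ => ?_
  rw [← mul_sum]
  exact mul_le_mul_of_nonneg_left (abs_sum_le_sum_abs _ _) (abs_nonneg _)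

theorem count_ge {P : Finset ℕ} {w a b : ℕ} {l L v : ℝ} {f : Finset ℕ → ℝ} (h : Sv P w l L v f)
    (ha : ∀ p ∈ P, a < p) (hb : Real.exp L ≤ b) (I : Finset ι) (s : ι → ℤ) :
    v / 3000 * #I - Er P f (fun Q => ∑ i ∈ I, Ps Q (s i)) a b ≤
      #{i ∈ I | ∀ p ∈ P, ¬ (p : ℤ) ∣ s i} := by
  have e1 : (#{i ∈ I | ∀ p ∈ P, ¬ (p : ℤ) ∣ s i} : ℝ) =
      ∑ i ∈ I, if ∀ p ∈ P, ¬ (p : ℤ) ∣ s i then (1 : ℝ) else 0 := by
    rw [sum_boole]
  have e2 := sum_le_sum fun i (_ : i ∈ I) => h.le (s i)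
  rw [sum_comm, ← add_sum_erase _ _ (empty_mem_powerset P)] at e2
  simp only [← mul_sum] at e2
  have e3 : ∑ i ∈ I, Ps ∅ (s i) = #I := by simp [Ps]
  have e4 : -Er P f (fun Q => ∑ i ∈ I, Ps Q (s i)) a b ≤
      ∑ Q ∈ P.powerset.erase ∅, f Q * ∑ i ∈ I, Ps Q (s i) := by
    rw [neg_le, ← sum_neg_distrib, Er, sum_filter]
    refine le_trans (sum_le_sum fun Q hQ => ?_) (sum_le_sum_of_subset_of_nonneg (erase_subset ∅ _)
      fun Q _ _ => by positivity)
    have k := mem_powerset.1 (mem_erase.1 hQ).2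
    have k0 : ∀ p ∈ Q, 0 < p := fun p hp => (h.prime p (k hp)).pos
    split_ifs with hc
    · rw [← abs_mul]
      exact neg_le_abs _
    · obtain ⟨p, hp⟩ := nonempty_iff_ne_empty.2 (mem_erase.1 hQ).1
      have k1 : a < ∏ p ∈ Q, p := (ha p (k hp)).trans_le (single_le_prod' (f := fun p => p) k0 hp)
      have k2 : (b : ℝ) < (∏ p ∈ Q, p : ℕ) := by exact_mod_cast not_le.1 fun e => hc ⟨k1, e⟩
      rw [h.supp Q k, zero_mul, neg_zero]
      rw [LL, ← Real.log_prod fun p hp => by exact_mod_cast (k0 p hp).ne', ← Nat.cast_prod,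
        Real.lt_log_iff_exp_lt ((Nat.cast_nonneg b).trans_lt k2)]
      exact hb.trans_lt k2
  have e5 := mul_le_mul_of_nonneg_right h.mean (Nat.cast_nonneg (α := ℝ) #I)
  rw [e3] at e2
  rw [e1]
  linarith

end

end Pool.Agent.MP_c7a479_co.Ex

end

section

/-! Three applications of the bilinear sieve. -/

namespace Pool.Agent.MP_c7a479_co.Ex

open Finset
open scoped Classical

noncomputable section

variable {ι ι' : Type}

/-- The indicator of the integers without prime factor in `P`. -/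
def ro (P : Finset ℕ) (s : ℤ) : ℝ := if ∀ p ∈ P, ¬ (p : ℤ) ∣ s then 1 else 0

theorem ro_nonneg (P : Finset ℕ) (s : ℤ) : 0 ≤ ro P s := by
  unfold ro
  split_ifs <;> norm_num

/-- A sieve whose moduli lie in three consecutive dyadic ranges. -/
structure Ctx (P : Finset ℕ) (f : Finset ℕ → ℝ) (l v : ℝ) (w a b c : ℕ) : Prop where
  sv : ∃ L, Sv P (2 ^ a * w) l L v f ∧ Real.exp L ≤ ((2 ^ c * (2 ^ b * (2 ^ a * w)) : ℕ) : ℝ)
  w1 : 1 ≤ w
  lt : ∀ p ∈ P, w < p
  v0 : 0 ≤ v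

variable {P : Finset ℕ} {f : Finset ℕ → ℝ} {l v : ℝ} {w a b c : ℕ}

theorem Ctx.cnt (h : Ctx P f l v w a b c) (I : Finset ι) (J : Finset ι') (s : ι → ι' → ℤ) :
    v / 3000 * (#I * #J) - Er P f (fun Q => ∑ i ∈ I, ∑ j ∈ J, Ps Q (s i j)) w
      (2 ^ c * (2 ^ b * (2 ^ a * w))) ≤ ∑ i ∈ I, ∑ j ∈ J, ro P (s i j) := by
  obtain ⟨L, h1, h2⟩ := h.sv
  have := count_ge h1 h.lt h2 (I ×ˢ J) fun x => s x.1 x.2
  rw [← sum_boole] at this
  simpa only [sum_product, card_product, Nat.cast_mul, ro] using this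

theorem Ctx.low (h : Ctx P f l v w a b c) (r : ℕ) {α β : ℤ} (γ : ℤ)
    (hα : ∀ p ∈ P, ¬ (p : ℤ) ∣ α) (hβ : ∀ p ∈ P, ¬ (p : ℤ) ∣ β)
    {I : Finset ι} {φ : ι → ℤ} {T : ℕ} {μ : ℝ} (h1 : Fam I φ T μ)
    {J : Finset ι'} {ψ : ι' → ℤ} {T' : ℕ} {μ' : ℝ} (h2 : Fam J ψ T' μ') :
    Er P f (fun Q => ∑ i ∈ I, ∑ j ∈ J, Ps Q (γ + α * φ i + β * ψ j)) w (2 ^ r * (2 ^ a * w)) ≤
      48 * (√(μ * #I) * √(μ' * #J)) *
        (2000 * v * RD T T' w a + 60 * l ^ 2 * RD T T' (2 ^ a * w) r) := by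
  obtain ⟨L, k, -⟩ := h.sv
  have := h.v0
  have := h.w1
  rw [mul_add]
  exact (Er_split _ _ _ _ (2 ^ a * w) _).trans (add_le_add
    (Er_bil k.prime (by positivity) h.w1 k.small γ hα hβ h1 h2)
    (Er_bil k.prime (by positivity) (Nat.succ_le_of_lt (by positivity))
      (fun Q hQ _ => k.large Q hQ) γ hα hβ h1 h2))

theorem Ctx.two (h : Ctx P f l v w a b c) {α β : ℤ} (γ : ℤ)
    (hα : ∀ p ∈ P, ¬ (p : ℤ) ∣ α) (hβ : ∀ p ∈ P, ¬ (p : ℤ) ∣ β)
    {I : Finset ι} {φ : ι → ℤ} {T : ℕ} {μ : ℝ} (h1 : Fam I φ T μ)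
    {J : Finset ι'} {ψ : ι' → ℤ} {T' : ℕ} {μ' : ℝ} (h2 : Fam J ψ T' μ') :
    v / 3000 * (#I * #J) - 48 * (√(μ * #I) * √(μ' * #J)) *
        (2000 * v * RD T T' w a + 60 * l ^ 2 * RD T T' (2 ^ a * w) (c + b)) ≤
      ∑ i ∈ I, ∑ j ∈ J, ro P (γ + α * φ i + β * ψ j) := by
  have k := h.low (c + b) γ hα hβ h1 h2
  rw [pow_add, mul_assoc (2 ^ c)] at k
  linarith [h.cnt I J fun i j => γ + α * φ i + β * ψ j]

theorem fam_sub {A : Finset ℤ} {x : ℤ} {T : ℕ} (hT : 1 ≤ T) (h : ∀ u ∈ A, x ≤ u ∧ u < x + T) :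
    Fam A (fun u => u) T 1 :=
  ⟨hT, ⟨x, h⟩, fun u => by
    have : #{i ∈ A | i = u} ≤ 1 := card_le_one.2 fun i hi j hj =>
      (mem_filter.1 hi).2.trans (mem_filter.1 hj).2.symm
    exact_mod_cast this⟩

theorem fam_Ico {h : ℕ} (hh : 1 ≤ h) : Fam (Ico (0 : ℤ) h) (fun u => u) h 1 :=
  fam_sub (x := 0) hh fun u hu => by simpa using hu

theorem pair_le (F : ℤ → ℝ) (hF : ∀ x, 0 ≤ F x) (ξ : ℤ) (h : ℕ) :
    ∑ u ∈ Ico (0 : ℤ) h, ∑ u' ∈ Ico (0 : ℤ) h, F (ξ + u + u') ≤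
      h * ∑ x ∈ Ico ξ (ξ + 2 * h), F x := by
  refine (sum_le_card_nsmul _ _ (∑ x ∈ Ico ξ (ξ + 2 * h), F x) fun u hu => ?_).trans (by simp)
  rw [← sum_image (g := fun u' => ξ + u + u') fun _ _ _ _ e => add_left_cancel e]
  refine sum_le_sum_of_subset_of_nonneg (image_subset_iff.2 fun u' hu' => ?_) fun x _ _ => hF x
  simp only [mem_Ico] at hu hu' ⊢
  omega

theorem Ctx.step0 (h : Ctx P f l v w a b c) {W : ℤ} (γ X : ℤ) (hW : ∀ p ∈ P, ¬ (p : ℤ) ∣ W)
    {T : ℕ} (hT : 1 ≤ T)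
    (hn : 48 * (2000 * v * RD T T w a + 60 * l ^ 2 * RD T T (2 ^ a * w) (c + b)) ≤ v / 6000 * T) :
    v / 6000 * T ≤ ∑ x ∈ Ico X (X + 2 * T), ro P (γ + W * x) := by
  have k := h.two (γ + W * X) hW hW (fam_Ico hT) (fam_Ico hT)
  have k2 := pair_le (fun x => ro P (γ + W * x)) (fun x => ro_nonneg _ _) X T
  have T0 : (0 : ℝ) < T := by exact_mod_cast hT
  simp only [mul_add W, ← add_assoc] at k2
  simp only [Int.card_Ico, sub_zero, Int.toNat_natCast, one_mul,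
    Real.mul_self_sqrt T0.le] at k
  refine le_of_mul_le_mul_left ?_ T0
  linarith [mul_le_mul_of_nonneg_left hn T0.le]

theorem Ctx.step1 (h : Ctx P f l v w a b c) {W : ℤ} (γ : ℤ) (hW : ∀ p ∈ P, ¬ (p : ℤ) ∣ W)
    {J H T : ℕ} (hH : 1 ≤ H) (hT : 1 ≤ T) (n : ℕ → ℕ) (hn : ∀ j, n j ≤ 9 * H) (ξ : ℕ → ℤ) (x : ℤ)
    (h1 : ∀ j < J, x ≤ ξ j ∧ ξ j + H ≤ x + T) (h2 : ∀ j j', j < j' → ξ j' + H ≤ ξ j)
    (hs : 144 * (2000 * v * RD T H w a + 60 * l ^ 2 * RD T H (2 ^ a * w) (c + b)) ≤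
      v / 6000 * (√(∑ j ∈ range J, (n j : ℝ)) * √H)) :
    v / 6000 * (∑ j ∈ range J, (n j : ℝ)) * H ≤
      ∑ j ∈ range J, n j * ∑ x ∈ Ico (ξ j) (ξ j + 2 * H), ro P (γ + W * x) := by
  have H0 : (0 : ℝ) < H := by exact_mod_cast hH
  set I := (range J).sigma fun j => range (n j) ×ˢ Ico (0 : ℤ) H with hI
  have hF : Fam I (fun i => ξ i.1 + i.2.2) T (9 * H) := by
    refine ⟨hT, ⟨x, fun i hi => ?_⟩, fun u => ?_⟩
    · simp only [hI, mem_sigma, mem_range, mem_product, mem_Ico] at hi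
      have := h1 _ hi.1
      beta_reduce
      omega
    · have : #{i ∈ I | ξ i.1 + i.2.2 = u} ≤ #(range (9 * H)) := by
        refine card_le_card_of_injOn (fun i => i.2.1) (fun i hi => ?_) ?_
        · simp only [hI, coe_filter, mem_sigma, mem_range, mem_product, Set.mem_ofPred_eq] at hi
          exact mem_coe.2 (mem_range.2 (hi.1.2.1.trans_le (hn _)))
        · rintro ⟨j, m, t⟩ hi ⟨j', m', t'⟩ hi' e
          simp only [hI, coe_filter, mem_sigma, mem_range, mem_product, mem_Ico,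
            Set.mem_ofPred_eq] at hi hi' e
          have hj : j = j' := by
            rcases lt_trichotomy j j' with g | g | g
            · have := h2 _ _ g
              omega
            · exact g
            · have := h2 _ _ g
              omega
          subst hj e
          obtain rfl : t = t' := by omega
          rfl
      rw [card_range] at this
      exact_mod_cast this
  have k := h.two γ hW hW hF (fam_Ico hH)
  have hc : (#I : ℝ) = (∑ j ∈ range J, (n j : ℝ)) * H := by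
    simp [hI, sum_mul]
  have k2 : ∑ i ∈ I, ∑ u ∈ Ico (0 : ℤ) H, ro P (γ + W * (ξ i.1 + i.2.2) + W * u) ≤
      H * ∑ j ∈ range J, n j * ∑ x ∈ Ico (ξ j) (ξ j + 2 * H), ro P (γ + W * x) := by
    rw [hI, sum_sigma, mul_sum]
    refine sum_le_sum fun j _ => ?_
    have := pair_le (fun x => ro P (γ + W * x)) (fun x => ro_nonneg _ _) (ξ j) H
    simp only [mul_add W _ (_ : ℤ), ← add_assoc] at this
    simp only [sum_product, sum_const, card_range, nsmul_eq_mul, mul_add W, ← add_assoc]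
    rw [mul_left_comm]
    exact mul_le_mul_of_nonneg_left this (Nat.cast_nonneg _)
  have N0 : 0 ≤ ∑ j ∈ range J, (n j : ℝ) := by positivity
  rw [hc] at k
  generalize ∑ j ∈ range J, (n j : ℝ) = N at *
  have e : √(9 * H * (N * H)) = 3 * H * √N := by
    rw [show 9 * H * (N * H) = (3 * H) ^ 2 * N by ring, Real.sqrt_mul (by positivity),
      Real.sqrt_sq (by positivity)]
  simp only [Int.card_Ico, sub_zero, Int.toNat_natCast, one_mul, e] at k
  refine le_of_mul_le_mul_left ?_ H0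
  have k3 := mul_le_mul_of_nonneg_left hs (show 0 ≤ H * (√N * √H) by positivity)
  have e2 : H * (√N * √H) * (v / 6000 * (√N * √H)) = v / 6000 * (N * H * H) := by
    have e3 := Real.mul_self_sqrt N0
    have e4 := Real.mul_self_sqrt H0.le
    calc _ = v / 6000 * ((√N * √N) * (√H * √H) * H) := by ring
      _ = _ := by rw [e3, e4]
  rw [e2] at k3
  linarith

theorem Ctx.step2 (h : Ctx P f l v w a b c) {α W : ℤ} (γ : ℤ) (hα : ∀ p ∈ P, ¬ (p : ℤ) ∣ α)
    (hW : ∀ p ∈ P, ¬ (p : ℤ) ∣ W) {A : Finset ℤ} {T T' Y : ℕ} (hA : Fam A (fun u => u) T 1)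
    (K : Finset ℕ) (hK : ∀ q ∈ K, ∀ p ∈ P, ¬ (p : ℤ) ∣ W * q ^ 2) (B : ℕ → Finset ℤ) (e : ℕ → ℤ)
    (hB : ∀ q ∈ K, Fam (B q) (fun u => u) T' 1)
    (hY : Fam (K.sigma B) (fun i => e i.1 + (i.1 : ℤ) ^ 2 * i.2) Y 4)
    (hs : 48 * (√(#K) * (2000 * v * RD T T' w a + 60 * l ^ 2 * RD T T' (2 ^ a * w) b) +
      2 * (60 * l ^ 2 * RD T Y (2 ^ b * (2 ^ a * w)) c)) < v / 3000 * (√(#A) * √(#(K.sigma B))))
    (h0 : 0 < √(#A) * √(#(K.sigma B))) :
    ∃ x ∈ A, ∃ q ∈ K, ∃ y ∈ B q, ∀ p ∈ P, ¬ (p : ℤ) ∣ γ + α * x + W * (e q + q ^ 2 * y) := by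
  by_contra hc
  push Not at hc
  have k0 : ∑ x ∈ A, ∑ i ∈ K.sigma B, ro P (γ + α * x + W * (e i.1 + (i.1 : ℤ) ^ 2 * i.2)) = 0 :=
    sum_eq_zero fun x hx => sum_eq_zero fun i hi => if_neg (by
      push Not
      exact hc x hx _ (mem_sigma.1 hi).1 _ (mem_sigma.1 hi).2)
  have k1 := h.cnt A (K.sigma B) fun x i => γ + α * x + W * (e i.1 + (i.1 : ℤ) ^ 2 * i.2)
  obtain ⟨L, k, -⟩ := h.sv
  have := h.w1
  have v0 := h.v0
  have k2 := Er_bil (D := 2 ^ b * (2 ^ a * w)) (r := c) k.prime (ω := 60 * l ^ 2) (by positivity)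
    (Nat.succ_le_of_lt (by positivity)) (fun Q hQ _ => k.large Q hQ) γ hα hW hA hY
  have k3 := Er_sum P f K (fun q Q => ∑ x ∈ A, ∑ y ∈ B q,
    Ps Q (γ + W * e q + α * x + W * q ^ 2 * y)) w (2 ^ b * (2 ^ a * w))
  have k4 := sum_le_sum fun q hq => h.low b (γ + W * e q) hα (hK q hq) hA (hB q hq)
  have k5 : (fun Q => ∑ q ∈ K, ∑ x ∈ A, ∑ y ∈ B q, Ps Q (γ + W * e q + α * x + W * q ^ 2 * y)) =
      fun Q => ∑ x ∈ A, ∑ i ∈ K.sigma B, Ps Q (γ + α * x + W * (e i.1 + (i.1 : ℤ) ^ 2 * i.2)) := by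
    funext Q
    rw [sum_comm]
    refine sum_congr rfl fun x _ => ?_
    rw [sum_sigma]
    exact sum_congr rfl fun q _ => sum_congr rfl fun y _ => by congr 1; ring
  have k6 := Er_split P f (fun Q => ∑ x ∈ A, ∑ i ∈ K.sigma B,
    Ps Q (γ + α * x + W * (e i.1 + (i.1 : ℤ) ^ 2 * i.2))) w (2 ^ b * (2 ^ a * w))
    (2 ^ c * (2 ^ b * (2 ^ a * w)))
  have k7 : ∑ q ∈ K, √(#(B q) : ℝ) ≤ √(#K) * √(#(K.sigma B)) := by
    have := Real.sum_sqrt_mul_sqrt_le K (f := fun _ => (1 : ℝ)) (g := fun q => (#(B q) : ℝ))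
      (fun _ => zero_le_one) fun _ => Nat.cast_nonneg _
    simpa using this
  have E0 : 0 ≤ 2000 * v * RD T T' w a + 60 * l ^ 2 * RD T T' (2 ^ a * w) b := by
    unfold RD
    positivity
  rw [k5] at k3
  simp only [one_mul, ← sum_mul, ← mul_sum] at k4
  have k8 := mul_le_mul_of_nonneg_right (mul_le_mul_of_nonneg_left k7
    (show 0 ≤ 48 * √(#A : ℝ) by positivity)) E0
  have e4 : √(4 * (#(K.sigma B) : ℝ)) = 2 * √(#(K.sigma B)) := by
    rw [Real.sqrt_mul (by norm_num), show (4 : ℝ) = 2 ^ 2 by norm_num, Real.sqrt_sq (by norm_num)]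
  rw [one_mul, e4] at k2
  have k9 := mul_lt_mul_of_pos_left hs h0
  have e5 : √(#A) * √(#(K.sigma B)) * (v / 3000 * (√(#A) * √(#(K.sigma B)))) =
      v / 3000 * (#A * #(K.sigma B)) := by
    have e3 := Real.mul_self_sqrt (Nat.cast_nonneg (α := ℝ) #A)
    have e4 := Real.mul_self_sqrt (Nat.cast_nonneg (α := ℝ) #(K.sigma B))
    calc _ = v / 3000 * ((√(#A) * √(#A)) * (√(#(K.sigma B)) * √(#(K.sigma B)))) := by ring
      _ = _ := by rw [e3, e4]
  rw [e5] at k9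
  rw [k0] at k1
  linarith

end

end Pool.Agent.MP_c7a479_co.Ex

end
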