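import Pool.Agent.Mg.Fc7a479a.Gc1fd39
import Pool.Agent.Mg.Fc7a479a.Gdd01be

set_option linter.all false

section

/-! The numerical conditions for the three applications of the sieve. -/

namespace Pool.Agent.MP_c7a479_co.Ex

open Finset

noncomputable section

/-- Sizes of the parameters. -/
structure Num (l v : ℝ) (w a b c y h K : ℕ) : Prop where
  v1 : v ≤ 1
  vl : 1 ≤ v * l
  l0 : 0 < l
  wv : 10 ^ 14 ≤ w * v
  w2 : 10 ^ 14 * l ^ 4 ≤ 2 ^ a * w
  d0 : (y : ℝ) ≤ 2 ^ b * (2 ^ a * w)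
  d1 : 2 ^ b * (2 ^ a * w) ≤ 2 * (y : ℝ)
  ky : K ≤ y
  mk1 : 2 * 10 ^ 14 * l ^ 4 * (a + b + c + 1) ≤ √K
  mk2 : 2 * 10 ^ 14 * l ^ 4 * (a + b + c + 1) * y ≤ √K * √h
  mk3 : 2 * 10 ^ 14 * l ^ 4 * (a + b + c + 1) * (2 ^ c * (2 ^ b * (2 ^ a * w))) ≤ √K * h

theorem EA_le {l v η ρ X : ℝ} {w a r T T' : ℕ} (h1 : v / w ≤ η)
    (h2 : l ^ 2 / (2 ^ a * w) ≤ η) (h3 : v * a ≤ ρ) (h4 : l ^ 2 * r ≤ ρ)
    (h5 : v * (2 ^ a * w) ≤ X) (h6 : l ^ 2 * (2 ^ r * (2 ^ a * w)) ≤ X) :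
    2000 * v * RD T T' w a + 60 * l ^ 2 * RD T T' (2 ^ a * w) r ≤
      2060 * (2 * η * (√T * √T') + 2 * ρ * (√T + √T') + 4 * X) := by
  have A : 0 ≤ √T * √T' := by positivity
  have B : 0 ≤ √T + √T' := by positivity
  have e : 2000 * v * RD T T' w a + 60 * l ^ 2 * RD T T' (2 ^ a * w) r =
      4000 * (v / w * (√T * √T')) + 4000 * (v * a * (√T + √T')) + 8000 * (v * (2 ^ a * w)) +
      (120 * (l ^ 2 / (2 ^ a * w) * (√T * √T')) + 120 * (l ^ 2 * r * (√T + √T')) +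
        240 * (l ^ 2 * (2 ^ r * (2 ^ a * w)))) := by
    unfold RD
    push_cast
    ring
  rw [e]
  linarith [mul_le_mul_of_nonneg_right h1 A, mul_le_mul_of_nonneg_right h2 A,
    mul_le_mul_of_nonneg_right h3 B, mul_le_mul_of_nonneg_right h4 B]

theorem sqrt_cast {n : ℕ} {x : ℝ} (hx : 0 ≤ x) (h : (n : ℝ) = x ^ 2) : √n = x := by
  rw [h, Real.sqrt_sq hx]

theorem Num.main {l v : ℝ} {w a b c y h K : ℕ} (H : Num l v w a b c y h K) :
    (1 ≤ K ∧ 1 ≤ h ∧ 0 < v) ∧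
    48 * (2000 * v * RD (4 * y * h) (4 * y * h) w a +
      60 * l ^ 2 * RD (4 * y * h) (4 * y * h) (2 ^ a * w) (c + b)) ≤ v / 6000 * (4 * y * h : ℕ) ∧
    144 * (2000 * v * RD (36 * y * h) h w a + 60 * l ^ 2 * RD (36 * y * h) h (2 ^ a * w) (c + b)) ≤
      v / 6000 * (v / 39 * (√y * √h) * √h) ∧
    48 * (√K * (2000 * v * RD (9 * h) (4 * h) w a + 60 * l ^ 2 * RD (9 * h) (4 * h) (2 ^ a * w) b) +
      2 * (60 * l ^ 2 * RD (9 * h) (9 * y ^ 2 * h) (2 ^ b * (2 ^ a * w)) c)) <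
      v / 3000 * (v / 3000 * √K * h) := by
  obtain ⟨v1, vl, l0, wv, w2, d0, d1, ky, m1, m2, m3⟩ := H
  have v0 : 0 < v := pos_of_mul_pos_left (lt_of_lt_of_le one_pos vl) l0.le
  have l1 : 1 ≤ l := vl.trans (mul_le_of_le_one_left l0.le v1)
  have l2 : 1 ≤ l ^ 2 := one_le_pow₀ l1
  have w0 : (0 : ℝ) < w := pos_of_mul_pos_left (lt_of_lt_of_le (by norm_num) wv) v0.le
  have a0 : (0 : ℝ) ≤ a := by positivity
  have b0 : (0 : ℝ) ≤ b := by positivity
  have c0 : (0 : ℝ) ≤ c := by positivity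
  have hy := Real.sq_sqrt (Nat.cast_nonneg (α := ℝ) y)
  have hh := Real.sq_sqrt (Nat.cast_nonneg (α := ℝ) h)
  have hK := Real.sq_sqrt (Nat.cast_nonneg (α := ℝ) K)
  have kg : √K ≤ √y := Real.sqrt_le_sqrt (by exact_mod_cast ky)
  have s0 := Real.sqrt_nonneg (h : ℝ)
  have e1 : √((4 * y * h : ℕ) : ℝ) = 2 * √y * √h :=
    sqrt_cast (by positivity) (by push_cast; rw [mul_pow, mul_pow, hy, hh]; ring)
  have e2 : √((36 * y * h : ℕ) : ℝ) = 6 * √y * √h :=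
    sqrt_cast (by positivity) (by push_cast; rw [mul_pow, mul_pow, hy, hh]; ring)
  have e3 : √((9 * h : ℕ) : ℝ) = 3 * √h :=
    sqrt_cast (by positivity) (by push_cast; rw [mul_pow, hh]; ring)
  have e4 : √((4 * h : ℕ) : ℝ) = 2 * √h :=
    sqrt_cast (by positivity) (by push_cast; rw [mul_pow, hh]; ring)
  have e5 : √((9 * y ^ 2 * h : ℕ) : ℝ) = 3 * y * √h :=
    sqrt_cast (by positivity) (by push_cast; rw [mul_pow, mul_pow, hh]; ring)
  obtain ⟨ρ, hρ⟩ : ∃ ρ, ρ = l ^ 2 * (a + b + c + 1) := ⟨_, rfl⟩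
  obtain ⟨η, hη⟩ : ∃ η, η = v ^ 2 / 10 ^ 14 := ⟨_, rfl⟩
  obtain ⟨M, hM⟩ : ∃ M, M = 2 * 10 ^ 14 * l ^ 4 * (a + b + c + 1) := ⟨_, rfl⟩
  rw [← hM] at m1 m2 m3
  have η0 : 0 < η := by rw [hη]; positivity
  have vl2 : 1 ≤ (v * l) ^ 2 := one_le_pow₀ vl
  have ρl : l ^ 2 ≤ ρ := hρ ▸ le_mul_of_one_le_right (by positivity) (by linarith only [a0, b0, c0])
  have ρ0 : 0 ≤ ρ := by linarith only [ρl, l2]
  have ρM : 2 * ρ ≤ η * M := by
    have : η * M = 2 * ρ * (v * l) ^ 2 := by rw [hη, hM, hρ]; ring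
    rw [this]
    exact le_mul_of_one_le_right (by positivity) vl2
  have M2 : 2 ≤ M := by
    have : 1 ≤ l ^ 4 * (a + b + c + 1) := one_le_mul_of_one_le_of_one_le (one_le_pow₀ l1)
      (by linarith only [a0, b0, c0])
    rw [hM]
    linarith only [this]
  have p2 : ∀ n : ℕ, (1 : ℝ) ≤ 2 ^ n := fun n => one_le_pow₀ (by norm_num)
  have t1 : v / w ≤ η := by
    rw [div_le_iff₀ w0, hη]
    linarith only [mul_le_mul_of_nonneg_left wv v0.le]
  have t2 : l ^ 2 / (2 ^ a * w) ≤ η := by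
    rw [div_le_iff₀ (by positivity)]
    have : η * (10 ^ 14 * l ^ 4) = l ^ 2 * (v * l) ^ 2 := by rw [hη]; ring
    linarith only [mul_le_mul_of_nonneg_left w2 η0.le, this,
      le_mul_of_one_le_right (sq_nonneg l) vl2]
  have vρ : v ≤ ρ := v1.trans (l2.trans ρl)
  have t3 : v * a ≤ ρ := hρ ▸ mul_le_mul (v1.trans l2) (by linarith only [b0, c0]) a0 (sq_nonneg l)
  have t4 : l ^ 2 * ((c + b : ℕ) : ℝ) ≤ ρ :=
    hρ ▸ mul_le_mul_of_nonneg_left (by push_cast; linarith only [a0]) (sq_nonneg l)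
  have t5 : l ^ 2 * (b : ℝ) ≤ ρ :=
    hρ ▸ mul_le_mul_of_nonneg_left (by linarith only [a0, c0]) (sq_nonneg l)
  have t6 : l ^ 2 * (c : ℝ) ≤ ρ :=
    hρ ▸ mul_le_mul_of_nonneg_left (by linarith only [a0, b0]) (sq_nonneg l)
  have E1 := EA_le (T := 4 * y * h) (T' := 4 * y * h) (X := ρ * (2 ^ c * (2 ^ b * (2 ^ a * w))))
    t1 t2 t3 t4 (mul_le_mul vρ (le_mul_of_one_le_left (by positivity) (p2 b) |>.trans
      (le_mul_of_one_le_left (by positivity) (p2 c))) (by positivity) ρ0)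
    (by rw [pow_add, mul_assoc]; exact mul_le_mul_of_nonneg_right ρl (by positivity))
  have E2 := EA_le (T := 36 * y * h) (T' := h) (X := ρ * (2 ^ c * (2 ^ b * (2 ^ a * w))))
    t1 t2 t3 t4 (mul_le_mul vρ (le_mul_of_one_le_left (by positivity) (p2 b) |>.trans
      (le_mul_of_one_le_left (by positivity) (p2 c))) (by positivity) ρ0)
    (by rw [pow_add, mul_assoc]; exact mul_le_mul_of_nonneg_right ρl (by positivity))
  have E3 := EA_le (T := 9 * h) (T' := 4 * h) (X := ρ * (2 ^ b * (2 ^ a * w)))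
    t1 t2 t3 t5 (mul_le_mul vρ (le_mul_of_one_le_left (by positivity) (p2 b))
      (by positivity) ρ0) (mul_le_mul_of_nonneg_right ρl (by positivity))
  have E4 : l ^ 2 * RD (9 * h) (9 * y ^ 2 * h) (2 ^ b * (2 ^ a * w)) c ≤
      18 * (ρ * h) + 6 * (ρ * (√h + y * √h)) + 4 * (ρ * (2 ^ c * (2 ^ b * (2 ^ a * w)))) := by
    have e : l ^ 2 * RD (9 * h) (9 * y ^ 2 * h) (2 ^ b * (2 ^ a * w)) c =
        18 * (l ^ 2 * (√h ^ 2 * (y / (2 ^ b * (2 ^ a * w))))) + 6 * (l ^ 2 * c * (√h + y * √h)) +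
          4 * (l ^ 2 * (2 ^ c * (2 ^ b * (2 ^ a * w)))) := by
      rw [RD, e3, e5]
      push_cast
      ring
    have f : (y : ℝ) / (2 ^ b * (2 ^ a * w)) ≤ 1 := (div_le_one (by positivity)).2 d0
    rw [e, hh]
    have f1 : l ^ 2 * (h * (y / (2 ^ b * (2 ^ a * w)))) ≤ ρ * h :=
      mul_le_mul ρl (mul_le_of_le_one_right (by positivity) f) (by positivity) ρ0
    have f2 : l ^ 2 * c * (√h + y * √h) ≤ ρ * (√h + y * √h) :=
      mul_le_mul_of_nonneg_right t6 (by positivity)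
    have f3 : l ^ 2 * (2 ^ c * (2 ^ b * (2 ^ a * w))) ≤ ρ * (2 ^ c * (2 ^ b * (2 ^ a * w))) :=
      mul_le_mul_of_nonneg_right ρl (by positivity)
    linarith only [f1, f2, f3]
  rw [e1] at E1
  rw [e2] at E2
  rw [e3, e4] at E3
  push_cast
  generalize (2 : ℝ) ^ c * (2 ^ b * (2 ^ a * w)) = D at *
  generalize (2 : ℝ) ^ b * (2 ^ a * w) = D0 at *
  generalize √(y : ℝ) = g at *
  generalize √(h : ℝ) = s at *
  generalize √(K : ℝ) = k at *
  have k1 : 1 ≤ k := by linarith only [M2, m1]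
  have k0 : 0 < k := by linarith only [k1]
  have g1 : 1 ≤ g := k1.trans kg
  have gg : g ≤ g ^ 2 := le_self_pow₀ g1 two_ne_zero
  have gy : g ≤ y := hy ▸ gg
  have y0 : (0 : ℝ) < y := by linarith only [gy, g1]
  have M0 : 0 ≤ M := by linarith only [M2]
  have ks : M * k ≤ s := by
    refine le_of_mul_le_mul_right ?_ k0
    have : k ^ 2 ≤ y := by rw [hK]; exact_mod_cast ky
    linarith only [mul_le_mul_of_nonneg_left this M0, m2]
  have Ms : M ≤ s := (le_mul_of_one_le_right M0 k1).trans ks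
  have s1 : 1 ≤ s := by linarith only [Ms, M2]
  have F1 : 2 * ρ ≤ η * k := ρM.trans (mul_le_mul_of_nonneg_left m1 η0.le)
  have F2 : 2 * ρ * y ≤ η * (k * s) := (mul_le_mul_of_nonneg_right ρM y0.le).trans
    (by rw [mul_assoc]; exact mul_le_mul_of_nonneg_left m2 η0.le)
  have D0' : 0 ≤ D0 := y0.le.trans d0
  have F3 : 2 * ρ * D ≤ η * (k * s ^ 2) := by
    rcases le_total 0 D with d | d
    · exact (mul_le_mul_of_nonneg_right ρM d).trans
        (by rw [mul_assoc, hh]; exact mul_le_mul_of_nonneg_left m3 η0.le)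
    · exact (mul_nonpos_of_nonneg_of_nonpos (by positivity) d).trans (by positivity)
  have F4 : 2 * ρ ≤ η * s := ρM.trans (mul_le_mul_of_nonneg_left Ms η0.le)
  have F5 : 2 * ρ * D0 ≤ η * s ^ 2 := by
    have u1 : M * D0 ≤ M * (2 * y) := mul_le_mul_of_nonneg_left d1 M0
    have u2 : 2 * (k * s) ≤ M * (k * s) := mul_le_mul_of_nonneg_right M2 (by positivity)
    have u3 : M * k * s ≤ s * s := mul_le_mul_of_nonneg_right ks s0
    exact (mul_le_mul_of_nonneg_right ρM D0').trans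
      (by rw [mul_assoc]; exact mul_le_mul_of_nonneg_left (by linarith only [u1, u2, u3, m2]) η0.le)
  have G0 : 0 < η * s ^ 2 := by positivity
  have G1 : η * s ^ 2 * k ≤ η * s ^ 2 * g := mul_le_mul_of_nonneg_left kg G0.le
  have G2 : η * s ^ 2 * g ≤ η * s ^ 2 * g ^ 2 := mul_le_mul_of_nonneg_left gg G0.le
  have G3 : 2 * ρ * (g * s) ≤ η * s * (g * s) := mul_le_mul_of_nonneg_right F4 (by positivity)
  have G4 : 2 * ρ * s ≤ η * s * s := mul_le_mul_of_nonneg_right F4 s0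
  have G5 : η * s ^ 2 * 1 ≤ η * s ^ 2 * g := mul_le_mul_of_nonneg_left g1 G0.le
  have G6 : 0 < η * s ^ 2 * k := by positivity
  refine ⟨⟨?_, ?_, v0⟩, ?_, ?_, ?_⟩
  · have : (1 : ℝ) ≤ K := hK ▸ one_le_pow₀ k1
    exact_mod_cast this
  · have : (1 : ℝ) ≤ h := hh ▸ one_le_pow₀ s1
    exact_mod_cast this
  · have u : η * 10 ^ 14 * (s ^ 2 * g ^ 2) ≤ v * (s ^ 2 * g ^ 2) :=
      mul_le_mul_of_nonneg_right
        (by rw [hη]; linarith only [mul_le_of_le_one_right v0.le v1]) (by positivity)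
    rw [← hy, ← hh]
    linarith only [u, E1, F3, G0, G1, G2, G3, G5]
  · have u : v ^ 2 = η * 10 ^ 14 := by rw [hη]; ring
    have u2 : v / 6000 * (v / 39 * (g * s) * s) = v ^ 2 * (s ^ 2 * g) / 234000 := by ring
    rw [u2, u]
    linarith only [E2, F3, G0, G1, G3, G4, G5]
  · have u : v ^ 2 = η * 10 ^ 14 := by rw [hη]; ring
    have u2 : v / 3000 * (v / 3000 * k * h) = v ^ 2 * (s ^ 2 * k) / 9000000 := by rw [← hh]; ring
    have u3 := mul_le_mul_of_nonneg_left (E3.trans (show _ ≤ 2060 * 19 * (η * s ^ 2) by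
      linarith only [G4, F5]))
      k0.le
    have u4 : 2 * ρ * s ^ 2 ≤ η * k * s ^ 2 := mul_le_mul_of_nonneg_right F1 (by positivity)
    have u5 : 2 * ρ * y * s ≤ η * (k * s) * s := mul_le_mul_of_nonneg_right F2 s0
    have u6 : ρ * s * 1 ≤ ρ * s * y := mul_le_mul_of_nonneg_left (g1.trans gy) (by positivity)
    rw [u2, u]
    rw [← hh] at E4
    linarith only [u3, u4, u5, u6, E4, F3, G6]

end

end Pool.Agent.MP_c7a479_co.Ex

end

section

/-! The ternary problem after fixing the residue classes modulo the small primes. -/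

namespace Pool.Agent.MP_c7a479_co.Ex

open Finset
open scoped Classical

noncomputable section

theorem sum_blocks (F : ℤ → ℝ) (X H : ℤ) (hH : 0 ≤ H) (J : ℕ) :
    ∑ x ∈ Ico X (X + H * J), F x = ∑ j ∈ range J, ∑ x ∈ Ico (X + H * j) (X + H * j + H), F x := by
  induction J with
  | zero => simp
  | succ J ih =>
    have : 0 ≤ H * J := by positivity
    rw [sum_range_succ, ← ih, ← sum_union (Ico_disjoint_Ico_consecutive _ _ _),
      Ico_union_Ico_eq_Ico (by omega) (by omega)]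
    congr 2
    push_cast
    ring

theorem sum_ro (P : Finset ℕ) (S : Finset ℤ) (s : ℤ → ℤ) :
    ∑ x ∈ S, ro P (s x) = #{x ∈ S | ∀ p ∈ P, ¬ (p : ℤ) ∣ s x} := by
  rw [← sum_boole]
  rfl

theorem card_sq_dvd {y : ℕ} (hy : 2 ≤ y) {m : ℤ} (h0 : m ≠ 0) (hm : |m| ≤ (y : ℤ) ^ 8)
    (S : Finset ℕ) (hS : ∀ q ∈ S, q.Prime ∧ y < q ∧ (q : ℤ) ^ 2 ∣ m) : #S ≤ 4 := by
  have h1 : ∏ q ∈ S, (q : ℤ) ^ 2 ∣ m := Finset.prod_dvd_of_coprime (fun p hp q hq e =>
    (Nat.isCoprime_iff_coprime.2 ((Nat.coprime_primes (hS p hp).1 (hS q hq).1).2 e)).pow)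
    fun q hq => (hS q hq).2.2
  have h2 := Int.le_of_dvd (abs_pos.2 h0) ((dvd_abs _ _).2 h1)
  have h3 : ∏ _q ∈ S, (y : ℤ) ^ 2 ≤ ∏ q ∈ S, (q : ℤ) ^ 2 := prod_le_prod (fun _ _ => by positivity)
    fun q hq => pow_le_pow_left₀ (by positivity) (by exact_mod_cast (hS q hq).2.1.le) 2
  rw [prod_const, ← pow_mul] at h3
  have := (pow_le_pow_iff_right₀ (show (1 : ℤ) < y by exact_mod_cast hy)).1 (h3.trans (h2.trans hm))
  omega

theorem ceil_spec {q : ℤ} (hq : 0 < q) (m : ℤ) : m < q * (m / q + 1) ∧ q * (m / q + 1) ≤ m + q := by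
  have h1 := Int.emod_add_mul_ediv m q
  have h2 := Int.emod_nonneg m hq.ne'
  have h3 := Int.emod_lt_of_pos m hq
  rw [mul_add, mul_one]
  omega

theorem tern_core {P : Finset ℕ} {f : Finset ℕ → ℝ} {l v : ℝ} {w a b c y h : ℕ} {K : Finset ℕ}
    (C : Ctx P f l v w a b c) (H : Num l v w a b c y h #K) (hy : 2 ≤ y) (hP : ∀ p ∈ P, p ≤ y)
    (hK : ∀ q ∈ K, q.Prime ∧ y < q ∧ q ≤ 2 * y) {W α N X β ν : ℤ} (γ e : ℕ → ℤ)
    (hW : ∀ p ∈ P, ¬ (p : ℤ) ∣ W) (hα : ∀ p ∈ P, ¬ (p : ℤ) ∣ α) (α1 : (y : ℤ) ^ 2 ≤ α)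
    (α2 : α ≤ 4 * (y : ℤ) ^ 2) (he : ∀ q ∈ K, (q : ℤ) ^ 2 * γ q = β + W * e q)
    (h0 : ∀ q ∈ K, ∀ x, γ q + W * x ≠ 0)
    (hs : ∀ m, ν - α * (X + 8 * h * y) - 48 * y ^ 2 * h ≤ m → m ≤ ν - α * X →
      |β + W * m| ≤ (y : ℤ) ^ 8) :
    ∃ x : ℤ, ∃ q ∈ K, ∃ x' : ℤ, X ≤ x ∧ x < X + 8 * h * y ∧
      ν - 48 * y ^ 2 * h < α * x + (e q + q ^ 2 * x') ∧
      α * x + (e q + q ^ 2 * x') ≤ ν - 8 * y ^ 2 * h ∧ ∀ p ∈ P, ¬ (p : ℤ) ∣ 1 + W * x ∧
      ¬ (p : ℤ) ∣ γ q + W * x' ∧ ¬ (p : ℤ) ∣ N - W * (α * x + (e q + q ^ 2 * x')) := by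
  obtain ⟨⟨K1, h1, v0⟩, n0, n1, n2⟩ := H.main
  have hPp : ∀ p ∈ P, p.Prime := by
    obtain ⟨L, k, -⟩ := C.sv
    exact k.prime
  have hZ : (1 : ℤ) ≤ h := by exact_mod_cast h1
  have yZ : (2 : ℤ) ≤ y := by exact_mod_cast hy
  have q1 : ∀ q ∈ K, (y : ℤ) ^ 2 ≤ (q : ℤ) ^ 2 ∧ (q : ℤ) ^ 2 ≤ 4 * (y : ℤ) ^ 2 := fun q hq => by
    have k1 : (y : ℤ) ≤ q := by exact_mod_cast (hK q hq).2.1.le
    have k2 : (q : ℤ) ≤ 2 * y := by exact_mod_cast (hK q hq).2.2
    constructor <;> nlinarith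
  have q0 : ∀ q ∈ K, (0 : ℤ) < (q : ℤ) ^ 2 := fun q hq => lt_of_lt_of_le (by positivity) (q1 q hq).1
  set A : ℕ → Finset ℤ := fun j => {x ∈ Ico (X + 8 * h * j) (X + 8 * h * j + 8 * h) |
    ∀ p ∈ P, ¬ (p : ℤ) ∣ 1 + W * x} with hA
  set μ : ℕ → ℤ := fun j => ν - α * (X + 8 * h * j) - 48 * y ^ 2 * h with hμ
  set ξ : ℕ → ℕ → ℤ := fun q j => (μ j - e q) / (q : ℤ) ^ 2 + 1 with hξ
  set B : ℕ → ℕ → Finset ℤ := fun j q => {x ∈ Ico (ξ q j) (ξ q j + 2 * h) |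
    ∀ p ∈ P, ¬ (p : ℤ) ∣ γ q + W * x} with hB
  have x1 : ∀ q ∈ K, ∀ j, μ j - e q < q ^ 2 * ξ q j ∧ q ^ 2 * ξ q j ≤ μ j - e q + q ^ 2 :=
    fun q hq j => ceil_spec (q0 q hq) _
  have s0 := C.step0 1 X hW (T := 4 * y * h) (Nat.succ_le_of_lt (by positivity)) n0
  rw [show X + 2 * ((4 * y * h : ℕ) : ℤ) = X + 8 * h * y by push_cast; ring,
    sum_blocks _ _ _ (by positivity)] at s0
  simp only [sum_ro] at s0
  change _ ≤ ∑ j ∈ range y, (#(A j) : ℝ) at s0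
  have y0 : (0 : ℝ) < y := by positivity
  have hR : (0 : ℝ) < h := by positivity
  have s1 : ∀ q ∈ K, v / 6000 * (∑ j ∈ range y, (#(A j) : ℝ)) * h ≤
      ∑ j ∈ range y, (#(A j) : ℝ) * #(B j q) := fun q hq => by
    have := C.step1 (γ q) hW (J := y) (T := 36 * y * h) h1 (Nat.succ_le_of_lt (by positivity))
      (fun j => #(A j)) (fun j => (card_filter_le _ _).trans (by rw [Int.card_Ico]; omega))
      (ξ q) (ξ q 0 - 32 * h * y) (fun j hj => ?_) (fun j j' hj => ?_) (n1.trans ?_)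
    · simpa only [sum_ro] using this
    · have k1 := x1 q hq j
      have k2 := x1 q hq 0
      have k3 := q1 q hq
      have jy : (j : ℤ) ≤ y := by exact_mod_cast hj.le
      have k4 : μ 0 - μ j = α * (8 * h * j) := by simp only [hμ]; push_cast; ring
      have k5 : 0 ≤ α * (8 * h * j) := mul_nonneg (le_trans (by positivity) α1) (by positivity)
      have k6 : α * (8 * h * j) ≤ 4 * (q : ℤ) ^ 2 * (8 * h * y) :=
        mul_le_mul (by linarith) (by gcongr) (by positivity) (by positivity)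
      have k7 : ξ q 0 - 32 * h * y < ξ q j + 1 := lt_of_mul_lt_mul_left (by linarith) (q0 q hq).le
      have k8 : ξ q j < ξ q 0 + 1 := lt_of_mul_lt_mul_left (by linarith) (q0 q hq).le
      push_cast
      refine ⟨by omega, by nlinarith⟩
    · have k1 := x1 q hq j
      have k2 := x1 q hq j'
      have k3 := q1 q hq
      have jj : (j : ℤ) + 1 ≤ j' := by exact_mod_cast hj
      have k4 : μ j - μ j' = α * (8 * h) * (j' - j) := by simp only [hμ]; ring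
      have k5 : (y : ℤ) ^ 2 * (8 * h) * 1 ≤ α * (8 * h) * (j' - j) :=
        mul_le_mul (by gcongr) (by linarith) zero_le_one
          (mul_nonneg (le_trans (by positivity) α1) (by positivity))
      have k6 : (q : ℤ) ^ 2 * h ≤ 4 * y ^ 2 * h := by gcongr; exact k3.2
      have k7 : (q : ℤ) ^ 2 * 1 ≤ q ^ 2 * h := by gcongr
      exact (lt_of_mul_lt_mul_left (show (q : ℤ) ^ 2 * (ξ q j' + h) < q ^ 2 * ξ q j by linarith)
        (q0 q hq).le).le
    · refine mul_le_mul_of_nonneg_left (mul_le_mul_of_nonneg_right (Real.le_sqrt_of_sq_le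
        (le_trans ?_ s0)) (Real.sqrt_nonneg _)) (by positivity)
      rw [mul_pow, mul_pow, Real.sq_sqrt y0.le, Real.sq_sqrt hR.le]
      push_cast
      have := mul_le_mul_of_nonneg_right (mul_le_of_le_one_right v0.le H.v1) (mul_pos y0 hR).le
      have := mul_pos v0 (mul_pos y0 hR)
      linarith
  have s2 : ∑ _j ∈ range y, (v / 3000 * √(#K) * h) ^ 2 ≤
      ∑ j ∈ range y, (#(A j) : ℝ) * #(K.sigma (B j)) := by
    have k := sum_le_sum s1
    rw [sum_comm] at k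
    simp only [← mul_sum, sum_const, nsmul_eq_mul] at k
    simp only [card_sigma, Nat.cast_sum, sum_const, card_range, nsmul_eq_mul]
    refine le_trans ?_ k
    rw [mul_pow, mul_pow, Real.sq_sqrt (Nat.cast_nonneg _)]
    have := mul_le_mul_of_nonneg_left s0 (show 0 ≤ #K * (v / 6000 * h) by positivity)
    push_cast at this
    linarith
  obtain ⟨j, hj, s3⟩ := exists_le_of_sum_le (nonempty_range_iff.2 (by omega)) s2
  have s4 := Real.le_sqrt_of_sq_le s3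
  rw [Real.sqrt_mul (Nat.cast_nonneg _)] at s4
  have jy : (j : ℤ) + 1 ≤ y := by exact_mod_cast mem_range.1 hj
  have α0 : 0 ≤ α := le_trans (by positivity) α1
  have r1 : ∀ q ∈ K, ∀ x ∈ B j q, μ j < e q + q ^ 2 * x ∧ e q + q ^ 2 * x ≤ μ j + 8 * y ^ 2 * h :=
    fun q hq x hx => by
      have k1 := x1 q hq j
      have k2 := mem_Ico.1 (mem_filter.1 hx).1
      have k3 := mul_le_mul_of_nonneg_left k2.1 (q0 q hq).le
      have k4 := mul_le_mul_of_nonneg_left (show x ≤ ξ q j + 2 * h - 1 by omega) (q0 q hq).le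
      have k6 : (q : ℤ) ^ 2 * h ≤ 4 * y ^ 2 * h := by gcongr; exact (q1 q hq).2
      constructor <;> linarith
  have nd : ∀ p ∈ P, ∀ s t : ℤ, ¬ (p : ℤ) ∣ s → ¬ (p : ℤ) ∣ t → ¬ (p : ℤ) ∣ -s * t :=
    fun p hp s t k1 k2 k => by
      rw [neg_mul, dvd_neg] at k
      exact ((Nat.prime_iff_prime_int.1 (hPp p hp)).dvd_or_dvd k).elim k1 k2
  obtain ⟨x, hx, q, hq, x', hx', r2⟩ := C.step2 (α := -W * α) (W := -W) N
    (fun p hp => nd p hp _ _ (hW p hp) (hα p hp)) (fun p hp => by simpa using hW p hp)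
    (A := A j) (T := 9 * h) (T' := 4 * h) (Y := 9 * y ^ 2 * h)
    (fam_sub (x := X + 8 * h * j) (by omega) fun u hu => by
      have := mem_Ico.1 (mem_filter.1 hu).1
      push_cast
      omega) K
    (fun q hq p hp => nd p hp _ _ (hW p hp) fun k => by
      have k1 := (Nat.prime_iff_prime_int.1 (hPp p hp)).dvd_of_dvd_pow k
      have k2 := (Nat.prime_dvd_prime_iff_eq (hPp p hp) (hK q hq).1).1 (Int.natCast_dvd_natCast.1 k1)
      have := hP p hp
      have := (hK q hq).2.1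
      omega) (B j) e
    (fun q hq => fam_sub (x := ξ q j) (by omega) fun u hu => by
      have := mem_Ico.1 (mem_filter.1 hu).1
      push_cast
      omega)
    ⟨Nat.succ_le_of_lt (by positivity), ⟨μ j, fun i hi => by
      have k1 := r1 _ (mem_sigma.1 hi).1 _ (mem_sigma.1 hi).2
      have k2 : (0 : ℤ) < y ^ 2 * h := by positivity
      push_cast
      constructor <;> linarith⟩, fun u => by
      rcases ((K.sigma (B j)).filter fun i => e i.1 + (i.1 : ℤ) ^ 2 * i.2 = u).eq_empty_or_nonempty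
        with k | ⟨i₀, k⟩
      · rw [k]
        simp
      have em : ∀ i ∈ (K.sigma (B j)).filter fun i => e i.1 + (i.1 : ℤ) ^ 2 * i.2 = u,
          β + W * u = (i.1 : ℤ) ^ 2 * (γ i.1 + W * i.2) := fun i hi => by
        rw [← (mem_filter.1 hi).2, mul_add ((i.1 : ℤ) ^ 2), he _ (mem_sigma.1 (mem_filter.1 hi).1).1]
        ring
      have k0 := mem_sigma.1 (mem_filter.1 k).1
      have k1 := r1 _ k0.1 _ k0.2
      rw [(mem_filter.1 k).2] at k1
      have k2 : 0 ≤ α * (8 * h * j) := by positivity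
      have k3 : α * (8 * h * j) ≤ α * (8 * h * y) := by gcongr; linarith
      have k4 : (0 : ℤ) < y ^ 2 * h := by positivity
      have k5 := card_sq_dvd hy (m := β + W * u)
        (by rw [em _ k]; exact mul_ne_zero (q0 _ k0.1).ne' (h0 _ k0.1 _))
        (hs u (by simp only [hμ] at k1; linarith) (by simp only [hμ] at k1; linarith))
        (K.filter fun q : ℕ => (q : ℤ) ^ 2 ∣ β + W * u) fun q hq =>
          ⟨(hK q (mem_filter.1 hq).1).1, (hK q (mem_filter.1 hq).1).2.1, (mem_filter.1 hq).2⟩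
      have k6 := card_le_card_of_injOn (s := (K.sigma (B j)).filter fun i =>
        e i.1 + (i.1 : ℤ) ^ 2 * i.2 = u) (t := K.filter fun q : ℕ => (q : ℤ) ^ 2 ∣ β + W * u)
        (fun i => i.1) (fun i hi => mem_coe.2 (mem_filter.2
          ⟨(mem_sigma.1 (mem_filter.1 hi).1).1, _, em i hi⟩)) (by
        rintro ⟨q, x⟩ hi ⟨q', x'⟩ hi' (rfl : q = q')
        have := (mem_filter.1 hi).2.trans (mem_filter.1 hi').2.symm
        obtain rfl : x = x' :=
          mul_left_cancel₀ (q0 q (mem_sigma.1 (mem_filter.1 hi).1).1).ne' (add_left_cancel this)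
        rfl)
      exact_mod_cast k6.trans k5⟩
    (n2.trans_le (mul_le_mul_of_nonneg_left s4 (by positivity))) (lt_of_lt_of_le (by positivity) s4)
  have k1 := r1 q hq x' hx'
  have k2 := mem_Ico.1 (mem_filter.1 hx).1
  have k3 := mul_le_mul_of_nonneg_left k2.1 α0
  have k4 := mul_le_mul_of_nonneg_left k2.2.le α0
  have k5 : α * h ≤ 4 * y ^ 2 * h := by gcongr
  have k6 : (h : ℤ) * (j + 1) ≤ h * y := by gcongr
  have k7 : (0 : ℤ) ≤ h * j := by positivity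
  simp only [hμ] at k1
  refine ⟨x, q, hq, x', by linarith, by linarith, by linarith, by linarith, fun p hp =>
    ⟨(mem_filter.1 hx).2 p hp, (mem_filter.1 hx').2 p hp, ?_⟩⟩
  convert r2 p hp using 2
  ring

end

end Pool.Agent.MP_c7a479_co.Ex

end

section

/-! Fixing the residue classes modulo the small primes. -/

namespace Pool.Agent.MP_c7a479_co.Ex

open Finset
open scoped Classical

noncomputable section

theorem small_cls (w : ℕ) {m : ℤ} (hm : Even m) : ∃ β : ℤ,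
    ∀ p : ℕ, p.Prime → p ≤ w → ¬ (p : ℤ) ∣ β ∧ ¬ (p : ℤ) ∣ m - β := by
  have loc : ∀ p : ℕ, ∃ r : ℕ, p.Prime → ¬ (p : ℤ) ∣ r ∧ ¬ (p : ℤ) ∣ m - r := fun p => by
    have one : p.Prime → ¬ (p : ℤ) ∣ 1 := fun hp h =>
      hp.one_lt.ne' (Nat.dvd_one.1 (Int.natCast_dvd_natCast.1 h))
    by_cases h : (p : ℤ) ∣ m - 1
    · refine ⟨2, fun hp => ⟨fun k => ?_, fun k => one hp (by simpa using dvd_sub h k)⟩⟩
      obtain rfl := (Nat.prime_dvd_prime_iff_eq hp Nat.prime_two).1 (Int.natCast_dvd_natCast.1 k)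
      obtain ⟨s, rfl⟩ := hm
      omega
    · exact ⟨1, fun hp => ⟨one hp, h⟩⟩
  choose r hr using loc
  obtain ⟨β, hβ⟩ := Nat.chineseRemainderOfFinset r id ((range (w + 1)).filter Nat.Prime)
    (fun p hp => (mem_filter.1 hp).2.ne_zero) fun p hp q hq e =>
      (Nat.coprime_primes (mem_filter.1 hp).2 (mem_filter.1 hq).2).2 e
  refine ⟨β, fun p hp h => ?_⟩
  have k : (p : ℤ) ∣ r p - β := (hβ p (mem_filter.2 ⟨mem_range.2 (by omega), hp⟩)).dvd
  exact ⟨fun e => (hr p hp).1 (by simpa using dvd_add k e),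
    fun e => (hr p hp).2 (by simpa using dvd_sub e k)⟩

/-- Every `n` near a multiple of `α` is `α t + q ^ 2 t' + u` with rough `t`, `t'`, `u`. -/
def Tern (z y Z : ℕ) : Prop :=
  ∀ α n X : ℤ, (y : ℤ) ^ 2 ≤ α → α ≤ 4 * (y : ℤ) ^ 2 → Even (n - α) →
    (∀ p : ℕ, p.Prime → p ≠ 2 → p ≤ z → ¬ (p : ℤ) ∣ α) → 0 ≤ n - α * X → n - α * X ≤ (y : ℤ) ^ 7 →
    ∃ (t t' u : ℤ) (q : ℕ), q.Prime ∧ y < q ∧ q ≤ 2 * y ∧ X ≤ t ∧ t ≤ X + 9 * y * Z ∧
      n = α * t + q ^ 2 * t' + u ∧ 8 * y ^ 2 * Z ≤ u ∧ u ≤ 49 * y ^ 2 * Z ∧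
      ∀ p : ℕ, p.Prime → p ≤ z → ¬ (p : ℤ) ∣ t ∧ ¬ (p : ℤ) ∣ t' ∧ ¬ (p : ℤ) ∣ u

theorem tern_w {f : Finset ℕ → ℝ} {l v : ℝ} {w a b c y h z : ℕ} {K : Finset ℕ}
    (C : Ctx ((Ioc w z).filter Nat.Prime) f l v w a b c) (H : Num l v w a b c y h #K) (hy : 5 ≤ y)
    (hw : 2 ≤ w) (hwy : w ≤ y) (hz : z ≤ y) (hK : ∀ q ∈ K, q.Prime ∧ y < q ∧ q ≤ 2 * y)
    (hZ : primorial w * h ≤ y ^ 2) : Tern z y (primorial w * h) := by
  intro α n X α1 α2 hn hα n1 n2
  obtain ⟨β, hβ⟩ := small_cls w hn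
  have h1 : (1 : ℤ) ≤ h := by exact_mod_cast H.main.1.2.1
  have W1 : (1 : ℤ) ≤ primorial w := by exact_mod_cast primorial_pos w
  have hW : ∀ p : ℕ, p.Prime → ((p : ℤ) ∣ primorial w ↔ p ≤ w) := fun p hp => by
    rw [Int.natCast_dvd_natCast, hp.dvd_primorial_iff]
  have hZ' : (primorial w : ℤ) * h ≤ (y : ℤ) ^ 2 := by exact_mod_cast hZ
  push_cast
  generalize (primorial w : ℤ) = W at *
  have hc : ∀ q : ℕ, ∃ γ e : ℤ, q ∈ K → (q : ℤ) ^ 2 * γ = β + W * e := fun q => by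
    by_cases hq : q ∈ K
    · obtain ⟨s, t, e⟩ : IsCoprime ((q : ℤ) ^ 2) W := IsCoprime.pow_left
        ((Nat.prime_iff_prime_int.1 (hK q hq).1).irreducible.coprime_iff_not_dvd.2 fun e => by
          have := (hW q (hK q hq).1).1 e
          have := (hK q hq).2.1
          omega)
      exact ⟨s * β, -t * β, fun _ => by linear_combination β * e⟩
    · exact ⟨0, 0, fun e => absurd e hq⟩
  choose γ e he using hc
  have hγ : ∀ q ∈ K, ∀ x : ℤ, ∀ p : ℕ, p.Prime → p ≤ w → ¬ (p : ℤ) ∣ γ q + W * x :=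
    fun q hq x p hp hpw k => by
      have k1 := (hW p hp).2 hpw
      have k2 := ((dvd_add_left (k1.mul_right x)).1 k).mul_left ((q : ℤ) ^ 2)
      rw [he q hq] at k2
      exact (hβ p hp hpw).1 ((dvd_add_left (k1.mul_right _)).1 k2)
  have mP : ∀ p, p ∈ (Ioc w z).filter Nat.Prime ↔ (w < p ∧ p ≤ z) ∧ p.Prime := fun p => by
    rw [mem_filter, mem_Ioc]
  have W0 : 0 < W := by linarith
  obtain ⟨c1, c1'⟩ := ceil_spec W0 X
  obtain ⟨c2, c2'⟩ := ceil_spec W0 (n - α - β)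
  have y5 : (5 : ℤ) ≤ y := by exact_mod_cast hy
  have α0 : 0 ≤ α := le_trans (by positivity) α1
  have WZ : W ≤ W * h := le_mul_of_one_le_right W0.le h1
  obtain ⟨x, q, hq, x', k1, k2, k3, k4, k5⟩ := tern_core C H (by omega)
    (fun p hp => ((mP p).1 hp).1.2.trans hz) hK (W := W) (α := α) (N := n - α - β)
    (X := X / W + 1) (β := β) (ν := (n - α - β) / W) γ e
    (fun p hp k => by
      have := (hW p ((mP p).1 hp).2).1 k
      have := ((mP p).1 hp).1.1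
      omega)
    (fun p hp => hα p ((mP p).1 hp).2 (by have := ((mP p).1 hp).1.1; omega) ((mP p).1 hp).1.2)
    α1 α2 he (fun q hq x k => hγ q hq x 2 Nat.prime_two hw (k ▸ dvd_zero _)) fun m m1 m2 => by
      have a1 := mul_le_mul_of_nonneg_left m1 W0.le
      have a2 := mul_le_mul_of_nonneg_left m2 W0.le
      have a3 := mul_le_mul_of_nonneg_left c1.le α0
      have a4 := mul_le_mul_of_nonneg_left c1' α0
      have a5 : α * W ≤ 4 * y ^ 2 * y ^ 2 := mul_le_mul α2 (WZ.trans hZ') W0.le (by positivity)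
      have a6 : α * (W * h) * y ≤ 4 * y ^ 2 * y ^ 2 * y := by gcongr
      have a7 : (y : ℤ) ^ 2 * (W * h) ≤ y ^ 2 * y ^ 2 := by gcongr
      have p : ∀ i : ℕ, 5 * (y : ℤ) ^ i ≤ y ^ (i + 1) := fun i => by
        rw [pow_succ, mul_comm]
        gcongr
      have p2 : 5 * (y : ℤ) ^ 2 ≤ y ^ 3 := p 2
      have p3 : 5 * (y : ℤ) ^ 3 ≤ y ^ 4 := p 3
      have p4 : 5 * (y : ℤ) ^ 4 ≤ y ^ 5 := p 4
      have p5 : 5 * (y : ℤ) ^ 5 ≤ y ^ 6 := p 5
      have p6 : 5 * (y : ℤ) ^ 6 ≤ y ^ 7 := p 6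
      have p7 : 5 * (y : ℤ) ^ 7 ≤ y ^ 8 := p 7
      have p0 : (0 : ℤ) ≤ y ^ 2 := by positivity
      rw [abs_le]
      constructor <;> linarith
  have a1 := mul_le_mul_of_nonneg_left k1 W0.le
  have a2 := mul_le_mul_of_nonneg_left (Int.add_one_le_of_lt k2) W0.le
  have a3 := mul_le_mul_of_nonneg_left (Int.add_one_le_of_lt k3) W0.le
  have a4 := mul_le_mul_of_nonneg_left k4 W0.le
  have a5 : 1 * (W * h) ≤ y * (W * h) := by gcongr; linarith
  have a6 : 1 * (W * h) ≤ y ^ 2 * (W * h) := by gcongr; nlinarith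
  refine ⟨1 + W * x, γ q + W * x', n - α - β - W * (α * x + (e q + q ^ 2 * x')), q, (hK q hq).1,
    (hK q hq).2.1, (hK q hq).2.2, by linarith, by linarith, by linear_combination -he q hq,
    by linarith, by linarith, fun p hp hpz => ?_⟩
  by_cases hpw : p ≤ w
  · have k := (hW p hp).2 hpw
    refine ⟨fun e => ?_, hγ q hq x' p hp hpw, fun g => (hβ p hp hpw).2 ?_⟩
    · exact hp.one_lt.ne' (Nat.dvd_one.1 (Int.natCast_dvd_natCast.1
        ((dvd_add_left (k.mul_right x)).1 e)))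
    · have := dvd_add g (k.mul_right (α * x + (e q + q ^ 2 * x')))
      rwa [sub_add_cancel] at this
  · exact k5 p ((mP p).2 ⟨⟨by omega, hpz⟩, hp⟩)

end

end Pool.Agent.MP_c7a479_co.Ex

end

section

/-! The choice of the parameters. -/

namespace Pool.Agent.MP_c7a479_co.Ex

open Finset Filter
open scoped Classical

noncomputable section

theorem ev_pow (C : ℝ) (m : ℕ) {ε : ℝ} (hε : 0 < ε) :
    ∀ᶠ l : ℝ in atTop, C * l ^ m ≤ Real.exp (ε * l) := by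
  filter_upwards [(isLittleO_pow_exp_pos_mul_atTop m hε).bound
    (show 0 < 1 / (|C| + 1) by positivity), eventually_ge_atTop 0] with l h h0
  rw [Real.norm_of_nonneg (by positivity), Real.norm_of_nonneg (Real.exp_pos _).le,
    one_div_mul_eq_div, le_div_iff₀ (by positivity)] at h
  nlinarith [le_abs_self C, pow_nonneg h0 m]

theorem dyad {s t : ℝ} (hs : 1 ≤ s) (h : s ≤ t) : ∃ r : ℕ, t ≤ 2 ^ r * s ∧ 2 ^ r * s ≤ 2 * t := by
  obtain ⟨n, h1, h2⟩ := exists_nat_pow_near (x := t / s) (y := 2)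
    ((one_le_div (by linarith)).2 h) one_lt_two
  rw [le_div_iff₀ (by linarith)] at h1
  rw [div_lt_iff₀ (by linarith)] at h2
  exact ⟨n + 1, h2.le, by rw [pow_succ]; linarith⟩

theorem many_primes : ∃ J : ℕ, 1 ≤ J ∧ ∀ z : ℕ, 1 ≤ z → ∃ y : ℕ, z ≤ y ∧ y ≤ 2 ^ J * z ∧
    ∃ K : Finset ℕ, (∀ q ∈ K, q.Prime ∧ y < q ∧ q ≤ 2 * y) ∧ #K ≤ y ∧
      (y : ℝ) ≤ J * Real.log (2 * y) * #K := by
  obtain ⟨C, h0, hC⟩ := EMert_prime
  obtain ⟨J, hJ⟩ := exists_nat_ge (4 * C + 2)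
  have J1 : (1 : ℝ) ≤ J := by linarith
  refine ⟨J, by exact_mod_cast J1, fun z hz => ?_⟩
  set F : ℕ → ℝ := fun j => ∑ p ∈ PP (Real.log (2 ^ j * z : ℕ)), Real.log p / p with hF
  have a := (abs_le.1 (hC _ (Real.log_natCast_nonneg (2 ^ J * z)))).1
  have b := (abs_le.1 (hC _ (Real.log_natCast_nonneg (2 ^ 0 * z)))).2
  have c : Real.log (2 ^ J * z : ℕ) = J * Real.log 2 + Real.log (2 ^ 0 * z : ℕ) := by
    push_cast
    rw [Real.log_mul (by positivity) (by positivity), Real.log_pow, one_mul]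
  have d := mul_le_mul_of_nonneg_left (Real.log_two_gt_d9.le.trans' (show (1 : ℝ) / 2 ≤ _ by
    norm_num)) (Nat.cast_nonneg (α := ℝ) J)
  have e : ∑ _j ∈ range J, 1 / (J : ℝ) ≤ ∑ j ∈ range J, (F (j + 1) - F j) := by
    rw [sum_range_sub, sum_const, card_range, nsmul_eq_mul, mul_one_div_cancel (by positivity)]
    have key : ∀ S T u v : ℝ, -C ≤ S - u → T - v ≤ C → u = J * Real.log 2 + v → 1 ≤ S - T :=
      fun S T u v k1 k2 k3 => by linarith
    exact key _ _ _ _ a b c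
  obtain ⟨j, hj, g⟩ := exists_le_of_sum_le (nonempty_range_iff.2 (by
    have : 1 ≤ J := by exact_mod_cast J1
    omega)) e
  have y1 : 1 ≤ 2 ^ j * z := Nat.succ_le_of_lt (by positivity)
  refine ⟨2 ^ j * z, Nat.le_mul_of_pos_left _ (by positivity), Nat.mul_le_mul_right _
    (Nat.pow_le_pow_right two_pos (mem_range.1 hj).le), ?_⟩
  simp only [hF, show 2 ^ (j + 1) * z = 2 * (2 ^ j * z) by ring] at g
  generalize 2 ^ j * z = y at g y1 ⊢
  have y0 : (0 : ℝ) < y := by exact_mod_cast y1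
  have m : ∀ n p : ℕ, 1 ≤ n → (p ∈ PP (Real.log n) ↔ p.Prime ∧ p ≤ n) := fun n p hn => by
    rw [mem_PP]
    refine and_congr_right fun hp => ?_
    rw [Real.log_le_log_iff (by exact_mod_cast hp.pos) (by exact_mod_cast hn), Nat.cast_le]
  have sub : PP (Real.log y) ⊆ PP (Real.log (2 * y : ℕ)) := fun p hp =>
    (m _ p (by omega)).2 ⟨((m _ p y1).1 hp).1, ((m _ p y1).1 hp).2.trans (by omega)⟩
  have k : ∀ q ∈ PP (Real.log (2 * y : ℕ)) \ PP (Real.log y), q.Prime ∧ y < q ∧ q ≤ 2 * y :=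
    fun q hq => by
      have k1 := (m _ q (by omega)).1 (mem_sdiff.1 hq).1
      exact ⟨k1.1, not_le.1 fun e => (mem_sdiff.1 hq).2 ((m _ q y1).2 ⟨k1.1, e⟩), k1.2⟩
  refine ⟨_, k, (card_le_card (t := Ioc y (2 * y)) fun q hq => mem_Ioc.2 (k q hq).2).trans
    (by rw [Nat.card_Ioc]; omega), ?_⟩
  rw [← sum_sdiff_eq_sub sub] at g
  have g2 := g.trans (sum_le_card_nsmul _ _ (Real.log (2 * y) / y) fun q hq => by
    have k1 : (y : ℝ) ≤ q := by exact_mod_cast (k q hq).2.1.le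
    have k2 : (q : ℝ) ≤ 2 * y := by exact_mod_cast (k q hq).2.2
    exact div_le_div₀ (Real.log_nonneg (by linarith [show (1 : ℝ) ≤ y by exact_mod_cast y1]))
      (Real.log_le_log (by linarith) k2) y0 k1)
  rw [nsmul_eq_mul, ← mul_div_assoc, div_le_div_iff₀ (by linarith) y0] at g2
  linarith

theorem tern : ∃ z₀ : ℕ, ∀ z : ℕ, z₀ ≤ z → ∃ y Z : ℕ, z ≤ y ∧ 1 ≤ Z ∧ Z ≤ y ^ 2 ∧ y ≤ Z ∧
    (y : ℝ) ^ 4 * Z ≤ (z : ℝ) ^ (559 / 100 : ℝ) ∧ (y : ℝ) ≤ (z : ℝ) ^ (10001 / 10000 : ℝ) ∧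
    Tern z y Z := by
  obtain ⟨y₀, hy₀, hS⟩ := sieve_pack
  obtain ⟨J, J1, hJ⟩ := many_primes
  have ht : Tendsto (fun z : ℕ => Real.log z) atTop atTop :=
    Real.tendsto_log_atTop.comp tendsto_natCast_atTop_atTop
  obtain ⟨z₀, hz₀⟩ := eventually_atTop.1 (ht.eventually (((eventually_ge_atTop
    (2000 * Real.exp (y₀ + 4 * 10 ^ 17) + 10 ^ 9)).and
    (ev_pow (12 * 10 ^ 14) 5 (show (0 : ℝ) < 1 / 100000 by norm_num))).and
    ((ev_pow (2 ^ J) 0 (show (0 : ℝ) < 1 / 10000 by norm_num)).and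
    (ev_pow (2 * J) 1 (show (0 : ℝ) < 1 / 10000 by norm_num)))))
  refine ⟨max z₀ 5, fun z hz => ?_⟩
  obtain ⟨⟨e1, e2⟩, e3, e4⟩ := hz₀ z ((le_max_left _ _).trans hz)
  have z5 : 5 ≤ z := (le_max_right _ _).trans hz
  obtain ⟨y, y1, y2, K, hK, K1, K2⟩ := hJ z (by omega)
  have z0 : (0 : ℝ) < z := by positivity
  have y0 : (0 : ℝ) < y := z0.trans_le (by exact_mod_cast y1)
  have rp : ∀ s : ℝ, (z : ℝ) ^ s = Real.exp (s * Real.log z) := fun s => by
    rw [Real.rpow_def_of_pos z0, mul_comm]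
  rw [← Nat.cast_le (α := ℝ)] at y1 y2
  push_cast at y2
  simp only [rp]
  have ez : (z : ℝ) = Real.exp (1 * Real.log z) := by rw [one_mul, Real.exp_log z0]
  have hP : ∀ w : ℕ, 1 ≤ w → ∀ p ∈ (Ioc w z).filter Nat.Prime,
      p.Prime ∧ Real.log w < Real.log p ∧ Real.log p ≤ Real.log z := fun w hw p hp => by
    have k := mem_Ioc.1 (mem_filter.1 hp).1
    have k0 : (0 : ℝ) < w := by exact_mod_cast hw
    have k1 : (w : ℝ) < p := by exact_mod_cast k.1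
    exact ⟨(mem_filter.1 hp).2, Real.log_lt_log k0 k1,
      Real.log_le_log (by linarith) (by exact_mod_cast k.2)⟩
  have lz := Real.log_le_self z0.le
  generalize Real.log z = l at *
  obtain ⟨X, hX⟩ : ∃ X : ℝ → ℝ, ∀ s, X s = Real.exp (s * l) := ⟨_, fun _ => rfl⟩
  simp only [← hX, pow_zero, mul_one, pow_one] at e2 e3 e4 ez ⊢
  have l9 : 10 ^ 9 ≤ l := by linarith [Real.exp_pos (y₀ + 4 * 10 ^ 17)]
  have l0 : 0 < l := by linarith
  have Xp : ∀ s, 0 < X s := fun s => hX s ▸ Real.exp_pos _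
  have Xa : ∀ s t, X s * X t = X (s + t) := fun s t => by rw [hX, hX, hX, ← Real.exp_add, add_mul]
  have Xm : ∀ s t, s ≤ t → X s ≤ X t := fun s t h => by
    rw [hX, hX]
    exact Real.exp_le_exp.2 (mul_le_mul_of_nonneg_right h l0.le)
  have X3 : ∀ s t, s + 1 / 10000 ≤ t → 3 * X s ≤ X t := fun s t h => by
    have k : 3 ≤ X (1 / 10000) := by
      rw [hX]
      linarith [Real.add_one_le_exp (1 / 10000 * l)]
    exact (mul_le_mul_of_nonneg_right k (Xp s).le).trans ((Xa _ _).le.trans (Xm _ _ (by linarith)))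
  have y3 : (y : ℝ) ≤ X (10001 / 10000) := y2.trans (by
    rw [ez]
    exact (mul_le_mul_of_nonneg_right e3 (Xp _).le).trans ((Xa _ _).le.trans (Xm _ _ (by norm_num))))
  rw [ez] at y1
  obtain ⟨w, w1, w2⟩ : ∃ w : ℕ, (w : ℝ) ≤ l / 1000 ∧ l / 2000 ≤ w :=
    ⟨⌊l / 1000⌋₊, Nat.floor_le (by positivity), by linarith [Nat.lt_floor_add_one (l / 1000)]⟩
  have w3 : (2 : ℝ) ≤ w := by linarith
  have w0 : 0 < w := by exact_mod_cast w3.trans_lt' two_pos
  have w4 : y₀ + 4 * 10 ^ 17 ≤ Real.log w := by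
    rw [Real.le_log_iff_exp_le (by linarith)]
    linarith
  have l4 : l ≤ l ^ 4 := le_self_pow₀ (by linarith) (by norm_num)
  have l5 : l ^ 4 ≤ l ^ 5 := pow_le_pow_right₀ (by linarith) (by norm_num)
  obtain ⟨a, a1, a2⟩ := dyad (s := w) (t := 10 ^ 14 * l ^ 4) (by linarith) (by linarith)
  have a0 : (w : ℝ) ≤ 2 ^ a * w := le_mul_of_one_le_left (by linarith) (one_le_pow₀ one_le_two)
  have a3 : 2 ^ a * (w : ℝ) ≤ X (1 / 100000) := by linarith
  obtain ⟨b, b1, b2⟩ := dyad (s := 2 ^ a * w) (t := y) (by linarith)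
    (a3.trans ((Xm _ _ (by norm_num)).trans y1))
  obtain ⟨c, c1, c2⟩ := dyad (s := 2 ^ b * (2 ^ a * w)) (t := X (1043 / 500))
    (by linarith [Xp 1, X3 0 1 (by norm_num), show X 0 = 1 by simp [hX]])
    (by linarith [X3 (10001 / 10000) (1043 / 500) (by norm_num)])
  have lg : Real.log (2 ^ a * w : ℕ) ≤ 1 / 100000 * l := by
    rw [Real.log_le_iff_le_exp (by positivity), ← hX]
    exact_mod_cast a3
  obtain ⟨v, f, v1, v2, hsv⟩ := hS (Real.log w) l (l / 1000) (2 ^ a * w)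
    ((Ioc w z).filter Nat.Prime) (by linarith)
    (Real.log_le_log (by linarith) (by exact_mod_cast a0)) (by
      have k1 : ((2 ^ a * w : ℕ) : ℝ) ≤ (w : ℝ) ^ 10 := by
        have k2 : (l / 2000) ^ 10 ≤ (w : ℝ) ^ 10 := pow_le_pow_left₀ (by positivity) w2 10
        have k3 : ((10 : ℝ) ^ 9) ^ 6 ≤ l ^ 6 := pow_le_pow_left₀ (by positivity) l9 6
        have k4 := mul_le_mul_of_nonneg_right k3 (show 0 ≤ l ^ 4 by positivity)
        push_cast
        linarith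
      have := Real.log_le_log (by positivity) k1
      rwa [Real.log_pow] at this) (by linarith) (by linarith) (hP w (by exact_mod_cast w3.trans' one_le_two))
  rw [div_le_iff₀ (by linarith)] at v1
  have v0 : 0 < v := pos_of_mul_pos_left (lt_of_lt_of_le (by linarith) v1) (by linarith)
  have r1 : ((a : ℝ) + b + c + 1) ≤ 6 * l := by
    have k1 : (2 : ℝ) ^ (a + b + c) * 1 ≤ 2 ^ (a + b + c) * w := by gcongr; linarith
    have k2 : (2 : ℝ) ^ (a + b + c) ≤ X 3 := by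
      rw [show (2 : ℝ) ^ (a + b + c) * w = 2 ^ c * (2 ^ b * (2 ^ a * w)) by ring] at k1
      linarith [X3 (1043 / 500) 3 (by norm_num), Xp (1043 / 500)]
    have k3 := Real.log_le_log (by positivity) k2
    rw [Real.log_pow, hX, Real.log_exp] at k3
    push_cast at k3
    have k4 := mul_le_mul_of_nonneg_left Real.log_two_gt_d9.le (show (0 : ℝ) ≤ a + b + c by positivity)
    linarith
  have M1 : 2 * 10 ^ 14 * l ^ 4 * ((a : ℝ) + b + c + 1) ≤ X (1 / 10000) := by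
    have := mul_le_mul_of_nonneg_left r1 (show 0 ≤ 2 * 10 ^ 14 * l ^ 4 by positivity)
    linarith [Xm (1 / 100000) (1 / 10000) (by norm_num)]
  have K3 : X (4999 / 10000) ≤ √(#K) := by
    refine Real.le_sqrt_of_sq_le ?_
    have k1 : Real.log (2 * y) ≤ 2 * l := by
      rw [Real.log_le_iff_le_exp (by positivity), ← hX]
      linarith [X3 (10001 / 10000) 2 (by norm_num)]
    have k2 : J * Real.log (2 * y) * #K ≤ X (1 / 10000) * #K := mul_le_mul_of_nonneg_right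
      ((mul_le_mul_of_nonneg_left k1 (Nat.cast_nonneg J)).trans (by linarith)) (Nat.cast_nonneg _)
    refine le_of_mul_le_mul_left (le_trans ?_ (y1.trans (K2.trans k2))) (Xp (1 / 10000))
    rw [sq, Xa, Xa]
    exact Xm _ _ (by norm_num)
  obtain ⟨h, h1, h2⟩ : ∃ h : ℕ, X (15864 / 10000) ≤ h ∧ (h : ℝ) ≤ X (15865 / 10000) :=
    ⟨⌈X (15864 / 10000)⌉₊, Nat.le_ceil _, by
      linarith [Nat.ceil_lt_add_one (Xp (15864 / 10000)).le, Xm 0 (15864 / 10000) (by norm_num),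
        X3 (15864 / 10000) (15865 / 10000) (by norm_num), show X 0 = 1 by simp [hX]]⟩
  have W1 : (primorial w : ℝ) ≤ X (14 / 10000) := by
    have k1 : (primorial w : ℝ) ≤ 4 ^ w := by exact_mod_cast primorial_le_four_pow w
    refine k1.trans ?_
    rw [hX, ← Real.log_le_iff_le_exp (by positivity), Real.log_pow,
      show (4 : ℝ) = 2 ^ 2 by norm_num, Real.log_pow]
    have := mul_le_mul w1 Real.log_two_lt_d9.le (Real.log_nonneg one_le_two) (by positivity)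
    push_cast
    linarith
  have W0 : (1 : ℝ) ≤ primorial w := by exact_mod_cast primorial_pos w
  have Z1 : ((primorial w * h : ℕ) : ℝ) ≤ X (15879 / 10000) := by
    push_cast
    exact (mul_le_mul W1 h2 (by positivity) (Xp _).le).trans ((Xa _ _).le.trans
      (Xm _ _ (by norm_num)))
  have Z2 : primorial w * h ≤ y ^ 2 := by
    have : ((primorial w * h : ℕ) : ℝ) ≤ (y : ℝ) ^ 2 := Z1.trans ((Xm _ _ (by norm_num)).trans
      ((Xa 1 1).ge.trans (by rw [sq]; exact mul_le_mul y1 y1 (Xp _).le y0.le)))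
    exact_mod_cast this
  have Z3 : y ≤ primorial w * h := by
    have : (y : ℝ) ≤ primorial w * h := y3.trans ((Xm _ _ (by norm_num)).trans
      (h1.trans (le_mul_of_one_le_left (by positivity) W0)))
    exact_mod_cast this
  have zy : z ≤ y := by
    rw [← ez] at y1
    exact_mod_cast y1
  refine ⟨y, primorial w * h, zy, by omega, Z2, Z3, ?_, y3, tern_w (f := f) (l := l) (v := v)
    (a := a) (b := b) (c := c) (K := K) ⟨⟨_, hsv, ?_⟩, by exact_mod_cast w3.trans' one_le_two,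
      fun p hp => (mem_Ioc.1 (mem_filter.1 hp).1).1, v0.le⟩
    ⟨v2, by linarith, l0, ?_, a1, b1, b2, K1, M1.trans ((Xm _ _ (by norm_num)).trans K3), ?_, ?_⟩
    (by omega) (by exact_mod_cast w3) ?_ zy hK Z2⟩
  · refine (mul_le_mul (pow_le_pow_left₀ y0.le y3 4) Z1 (by positivity) (by
      have := Xp (10001 / 10000); positivity)).trans ?_
    rw [show X (10001 / 10000) ^ 4 = X (10001 / 10000) * X (10001 / 10000) * (X (10001 / 10000) *
      X (10001 / 10000)) by ring, Xa, Xa, Xa]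
    exact Xm _ _ (by norm_num)
  · rw [show l / 1000 + 417 / 200 * l = 1043 / 500 * l by ring, ← hX]
    exact_mod_cast c1
  · linarith [mul_le_mul_of_nonneg_right w2 v0.le]
  · have k1 : X (7932 / 10000) ≤ √h := Real.le_sqrt_of_sq_le (by
      rw [sq, Xa]; exact (Xm _ _ (by norm_num)).trans h1)
    exact (mul_le_mul M1 y3 y0.le (Xp _).le).trans ((Xa _ _).le.trans ((Xm _ _ (by norm_num)).trans
      ((Xa _ _).ge.trans (mul_le_mul K3 k1 (Xp _).le (Real.sqrt_nonneg _)))))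
  · have k1 : 2 ^ c * (2 ^ b * (2 ^ a * (w : ℝ))) ≤ X (20861 / 10000) := by
      linarith [X3 (1043 / 500) (20861 / 10000) (by norm_num), Xp (1043 / 500)]
    exact (mul_le_mul M1 k1 (by positivity) (Xp _).le).trans ((Xa _ _).le.trans
      ((Xm _ _ (by norm_num)).trans
        ((Xa _ _).ge.trans (mul_le_mul K3 h1 (Xp _).le (Real.sqrt_nonneg _)))))
  · have : (w : ℝ) ≤ y := by
      rw [← ez] at y1
      linarith
    exact_mod_cast this

end

end Pool.Agent.MP_c7a479_co.Ex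

end

section

/-! The exponent `5 / 28`. -/

namespace Pool.Agent.MP_c7a479_co.Ex

open Finset
open scoped Classical

theorem card_pf {z t : ℕ} (hz : 2 ≤ z) (h0 : t ≠ 0) (ht : t < z ^ 6)
    (hp : ∀ p : ℕ, p.Prime → p ∣ t → z < p) : #t.primeFactors ≤ 5 := by
  have h1 := Nat.le_of_dvd (Nat.pos_of_ne_zero h0) (Nat.prod_primeFactors_dvd t)
  have h2 : z ^ #t.primeFactors ≤ ∏ p ∈ t.primeFactors, p := pow_card_le_prod _ _ _ fun p h =>
    (hp p (Nat.prime_of_mem_primeFactors h) (Nat.dvd_of_mem_primeFactors h)).le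
  have := (Nat.pow_lt_pow_iff_right (show 1 < z by omega)).1 (h2.trans_lt (h1.trans_lt ht))
  omega

theorem two_levels {k y Z n : ℕ} (hy : 20 * (k + 2) ≤ y) (hZ : Z ≤ y ^ 2) (hyZ : y ≤ Z)
    (hT : Tern (20 * (k + 2)) y Z) (h1 : 10 ^ 4 * (y ^ 4 * Z) ≤ n) (h2 : n < (20 * (k + 2)) ^ 6) :
    Td (Fin (k + 2)) (Fin n) := by
  obtain ⟨s, s1, s2, s3, s4, s5⟩ : ∃ s : ℕ, y < s ∧ s ≤ 2 * y ∧ Even ((n : ℤ) - s ^ 2) ∧
      (∀ p : ℕ, p.Prime → p ≠ 2 → p ≤ 20 * (k + 2) → ¬ p ∣ s) ∧ ∀ t U : ℕ, t ≠ 0 →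
      (∀ p : ℕ, p.Prime → p ∣ t → 20 * (k + 2) < p) → t ≤ n → 4 * y ^ 2 ≤ U →
      U + 2 * y ^ 4 ≤ y * t → Td (Fin (k + 2)) (Fin U) → Td (Fin (k + 2)) (Fin (s ^ 2 * t + U)) := by
    rcases Nat.even_or_odd n with hn | hn
    · obtain ⟨q, q1, q2, ⟨e, e1, rfl⟩, q3⟩ := lev_even hy
      refine ⟨2 ^ e, q1, q2, ?_, fun p hp h _ hd => h ((Nat.prime_dvd_prime_iff_eq hp
        Nat.prime_two).1 (hp.dvd_of_dvd_pow hd)), fun t U t0 t1 t2 _ u2 =>
        q3 t U t0 t1 (card_pf (by omega) t0 (t2.trans_lt h2) t1) ?_⟩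
      · refine ((Int.even_coe_nat n).2 hn).sub ?_
        push_cast
        exact (even_two.pow_of_ne_zero (by omega)).pow_of_ne_zero two_ne_zero
      · have a : U % (2 ^ e - 1) ≤ 2 * y := (Nat.mod_lt _ (by omega)).le.trans (by omega)
        have b : 400 * (k + 2) ^ 2 ≤ y ^ 2 := by nlinarith
        have c : y * (U / (2 ^ e - 1)) ≤ U := (Nat.mul_le_mul_right _ (by omega)).trans
          (Nat.mul_div_le U (2 ^ e - 1))
        have d := Nat.mul_le_mul_left y (Nat.mul_le_mul a b)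
        refine Nat.le_of_mul_le_mul_left ?_ (show 0 < y by omega)
        linarith
    · obtain ⟨q, hq, q1, q2⟩ := Nat.exists_prime_lt_and_le_two_mul y (by omega)
      refine ⟨q, q1, q2, ((Int.odd_coe_nat n).2 hn).sub_odd
        ((Int.odd_coe_nat q).2 (hq.odd_of_ne_two (by omega))).pow, fun p hp _ h hd => ?_,
        fun t U t0 t1 _ u1 u2 => lev_odd hq (by omega) t0 (fun p hp h => by
          have := t1 p hp h
          omega) (by nlinarith) ?_⟩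
      · have := (Nat.prime_dvd_prime_iff_eq hp hq).1 hd
        omega
      · exact (Nat.le_add_right _ _).trans (u2.trans (Nat.mul_le_mul_right _ (by omega)))
  have y40 : (40 : ℤ) ≤ y := by omega
  have Z1 : (y : ℤ) ≤ Z := by exact_mod_cast hyZ
  have Z2 : (Z : ℤ) ≤ (y : ℤ) ^ 2 := by exact_mod_cast hZ
  have n1 : 10 ^ 4 * ((y : ℤ) ^ 4 * Z) ≤ n := by exact_mod_cast h1
  have a0 : (y : ℤ) ≤ s := by exact_mod_cast s1.le
  have a0' : (s : ℤ) ≤ 2 * y := by exact_mod_cast s2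
  have y0 : (0 : ℤ) < y := by linarith
  have Z0 : (0 : ℤ) < Z := by linarith
  have a1 : (y : ℤ) ^ 2 ≤ (s : ℤ) ^ 2 := pow_le_pow_left₀ y0.le a0 2
  have a2 : (s : ℤ) ^ 2 ≤ 4 * (y : ℤ) ^ 2 := by linarith [pow_le_pow_left₀ (by linarith) a0' 2]
  have a3 : (0 : ℤ) < (s : ℤ) ^ 2 := lt_of_lt_of_le (by positivity) a1
  obtain ⟨c1, c2⟩ := ceil_spec a3 n
  have b1 : (y : ℤ) ^ 2 * (y * Z) ≤ s ^ 2 * (y * Z) := by gcongr
  have b2 : (s : ℤ) ^ 2 * (y * Z) ≤ 4 * y ^ 2 * (y * Z) := by gcongr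
  have b3 : (y : ℤ) ^ 3 * Z ≤ y ^ 3 * y ^ 2 := by gcongr
  have b4 : (y : ℤ) ^ 2 * 1 ≤ y ^ 2 * Z := by gcongr; linarith
  have b5 : (y : ℤ) ^ 2 * Z * 40 ≤ y ^ 2 * Z * y := by gcongr
  have b6 : (y : ℤ) ^ 5 * 40 ^ 2 ≤ y ^ 5 * y ^ 2 := by gcongr
  have b7 : (y : ℤ) ^ 3 * y ≤ y ^ 3 * Z := by gcongr
  have b8 : (y : ℤ) * Z * 40 ≤ y * Z * y := by gcongr
  have b9 : (0 : ℤ) < y * Z := by positivity
  have b10 : 2500 * y ^ 2 * Z ≤ (n : ℤ) / s ^ 2 := Int.le_ediv_of_mul_le a3 (by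
    have : 2500 * (y : ℤ) ^ 2 * Z * s ^ 2 ≤ 2500 * y ^ 2 * Z * (4 * y ^ 2) := by gcongr
    linarith)
  have b11 : (0 : ℤ) < y ^ 2 := by positivity
  have b12 : (0 : ℤ) < y ^ 5 := by positivity
  obtain ⟨t, t', u, q, hq, q1, q2, t1, t2, hn, u1, u2, hr⟩ := hT (s ^ 2) n (n / s ^ 2 - 300 * y * Z)
    a1 a2 s3 (fun p hp h h' hd => s4 p hp h h' (Int.natCast_dvd_natCast.1
      ((Nat.prime_iff_prime_int.1 hp).dvd_of_dvd_pow hd))) (by linarith) (by linarith)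
  have d1 := mul_le_mul_of_nonneg_left t1 a3.le
  have d2 := mul_le_mul_of_nonneg_left t2 a3.le
  have q3 : (q : ℤ) ≤ 2 * y := by exact_mod_cast q2
  have q4 : (q : ℤ) ^ 2 ≤ 4 * (y : ℤ) ^ 2 := by linarith [pow_le_pow_left₀ (by positivity) q3 2]
  have d3 : 49 * y * Z ≤ t' := by
    by_contra hc
    have e1 := mul_le_mul_of_nonneg_left (not_le.1 hc).le (sq_nonneg (q : ℤ))
    have e2 := mul_le_mul_of_nonneg_right q4 b9.le
    linarith
  have d4 := mul_le_mul_of_nonneg_left d3 y0.le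
  have d5 := mul_le_mul_of_nonneg_left (show 2400 * y ^ 2 * Z ≤ t by linarith) y0.le
  have d6 : 0 ≤ (q : ℤ) ^ 2 * t' := mul_nonneg (sq_nonneg _) (by linarith)
  have d7 : 1 * t ≤ s ^ 2 * t := mul_le_mul_of_nonneg_right (by linarith) (by linarith)
  lift t to ℕ using by linarith
  lift t' to ℕ using by linarith
  lift u to ℕ using by linarith
  have r : ∀ m : ℕ, (∀ p : ℕ, p.Prime → p ≤ 20 * (k + 2) → ¬ (p : ℤ) ∣ m) →
      ∀ p : ℕ, p.Prime → p ∣ m → 20 * (k + 2) < p := fun m h p hp hd =>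
    not_le.1 fun e => h p hp e (Int.natCast_dvd_natCast.2 hd)
  have r1 := r t fun p hp h => (hr p hp h).1
  have r2 := r t' fun p hp h => (hr p hp h).2.1
  have r3 := r u fun p hp h => (hr p hp h).2.2
  have hU := lev_odd (k := k) (t := t') (U := u) hq (by omega) (by
      rintro rfl
      simp only [Nat.cast_zero] at d3
      linarith) (fun p hp h => by have := r2 p hp h; omega) (by zify; linarith)
    (le_trans (by zify; linarith) (Nat.mul_le_mul_right t' (show y ≤ q - 1 by omega)))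
    (td_rough' (by
      rintro rfl
      simp only [Nat.cast_zero] at u1
      linarith) fun p hp h => by have := r3 p hp h; omega)
  refine (s5 t _ (by
      rintro rfl
      simp only [Nat.cast_zero] at t1
      linarith) r1 (by zify; linarith) (by zify; linarith) (by zify; linarith) hU).of_card ?_
  simp only [Fintype.card_fin]
  zify
  linarith

theorem final_exp : ∃ n₀ : ℕ, ∀ n : ℕ, n₀ ≤ n →
    ∃ k : ℕ, (n : ℝ) ^ (5 / 28 : ℝ) ≤ k ∧ HasVarSet 2 n k := by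
  obtain ⟨z₀, hz₀⟩ := tern
  obtain ⟨x₀, hx₀⟩ := Filter.eventually_atTop.1
    ((tendsto_rpow_atTop (show (0 : ℝ) < 1 / 100 by norm_num)).eventually_ge_atTop
      (10 ^ 4 * 40 ^ 6))
  obtain ⟨n₀, hn₀⟩ := Filter.eventually_atTop.1
    (((tendsto_rpow_atTop (show (0 : ℝ) < 5 / 28 by norm_num)).comp
      tendsto_natCast_atTop_atTop).eventually_ge_atTop (max x₀ (z₀ + 3)))
  refine ⟨n₀, fun n hn => ⟨⌈(n : ℝ) ^ (5 / 28 : ℝ)⌉₊, Nat.le_ceil _, ?_⟩⟩
  have h1 : max x₀ (z₀ + 3) ≤ (n : ℝ) ^ (5 / 28 : ℝ) := hn₀ n hn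
  have h11 : ((n : ℝ) ^ (5 / 28 : ℝ)) ^ (28 / 5 : ℝ) = n := by
    rw [← Real.rpow_mul n.cast_nonneg]
    norm_num
  set x := (n : ℝ) ^ (5 / 28 : ℝ)
  have h2 := hx₀ x ((le_max_left _ _).trans h1)
  have h3 := (le_max_right _ _).trans h1
  have z0 : (0 : ℝ) ≤ z₀ := z₀.cast_nonneg
  have x0 : 0 < x := by linarith
  have h4 := Nat.le_ceil x
  have h5 := Nat.ceil_lt_add_one x0.le
  set k := ⌈x⌉₊
  have z1 : x < ((20 * (k + 2) : ℕ) : ℝ) := by push_cast; linarith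
  have z2 : ((20 * (k + 2) : ℕ) : ℝ) ≤ 40 * x := by push_cast; linarith
  obtain ⟨y, Z, y1, -, y2, y3, y4, -, hT⟩ := hz₀ (20 * (k + 2)) (by
    have : (z₀ : ℝ) ≤ ((20 * (k + 2) : ℕ) : ℝ) := by linarith
    exact_mod_cast this)
  refine (two_levels y1 y2 y3 hT ?_ ?_).hasVarSet
  · have a : ((20 * (k + 2) : ℕ) : ℝ) ^ (559 / 100 : ℝ) ≤ 40 ^ 6 * x ^ (559 / 100 : ℝ) := by
      refine (Real.rpow_le_rpow (by positivity) z2 (by norm_num)).trans ?_
      rw [Real.mul_rpow (by norm_num) x0.le, ← Real.rpow_natCast]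
      exact mul_le_mul_of_nonneg_right
        (Real.rpow_le_rpow_of_exponent_le (by norm_num) (by norm_num)) (by positivity)
    have b : x ^ (1 / 100 : ℝ) * x ^ (559 / 100 : ℝ) = n := by
      rw [← Real.rpow_add x0, ← h11]
      norm_num
    have c := mul_le_mul_of_nonneg_right h2 (show 0 ≤ x ^ (559 / 100 : ℝ) by positivity)
    have : (10 : ℝ) ^ 4 * (y ^ 4 * Z) ≤ n := by linarith
    exact_mod_cast this
  · have a : (n : ℝ) ≤ x ^ 6 := by
      rw [← h11, ← Real.rpow_natCast]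
      exact Real.rpow_le_rpow_of_exponent_le (by linarith) (by norm_num)
    exact_mod_cast a.trans_lt (pow_lt_pow_left₀ z1 x0.le (by norm_num))

end Pool.Agent.MP_c7a479_co.Ex

end
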